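import Mathlib

/-!
Holonomy of germ cocycles.

Plan. `path_induction`: cover the unit interval by the preimages of the interiors of the
neighbourhoods (`exists_monotone_Icc_subset_open_cover_unitInterval`), use `Path.subpath`,
`Path.Homotopy.subpathTransSubpath`, `Path.subpath_zero_one` (or a supremum argument).
`exists_hol`: put on `X × G` (a type synonym) the topology whose open sets `U` satisfy
`(x, g) ∈ U → ∀ᶠ z in 𝓝 x, (z, g * h x z) ∈ U`; the projection is a covering map, trivialised over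
the interior of `{z | ∀ᶠ w in 𝓝 z, h x w = h x z * h z w}` by `(z, g) ↦ (z, g * (h x z)⁻¹)`
(`IsCoveringMap.mk`, `Trivialization`); left multiplication by `G` is continuous, so lifts starting
at `(x, g)` are translates of lifts starting at `(x, 1)`; `H p` is the second coordinate of the end
point of `IsCoveringMap.liftPath` (or `IsCoveringMap.monodromy`) started at `(x, 1)`.
-/

set_option autoImplicit false

open Set Filter Topology

namespace Neuwirth

/-- Induction over paths. -/
theorem path_induction {X : Type*} [TopologicalSpace X] (P : ∀ {a b : X}, Path a b → Prop)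
    (htrans : ∀ {a b c : X} (p : Path a b) (q : Path b c), P p → P q → P (p.trans q))
    (hhom : ∀ {a b : X} (p q : Path a b), p.Homotopic q → P p → P q)
    (hloc : ∀ y : X, ∃ U ∈ 𝓝 y, ∀ (a b : X) (p : Path a b), (∀ s, p s ∈ U) → P p)
    {a b : X} (p : Path a b) : P p := by
  choose U hU hP using hloc
  obtain ⟨t, h0, hm, ⟨n, h1⟩, ht⟩ := exists_monotone_Icc_subset_open_cover_unitInterval
    (c := fun y => p ⁻¹' interior (U y)) (fun y => isOpen_interior.preimage p.continuous)
    fun s _ => mem_iUnion.2 ⟨p s, mem_interior_iff_mem_nhds.2 (hU _)⟩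
  have key : ∀ k, P (p.subpath (t 0) (t k)) := fun k => by
    induction k with
    | zero =>
      refine hP (p (t 0)) _ _ _ fun s => ?_
      rw [Path.subpath_self]
      exact mem_of_mem_nhds (hU _)
    | succ k ih =>
      obtain ⟨y, hy⟩ := ht k
      refine hhom _ _ ⟨Path.Homotopy.subpathTransSubpath p _ (t k) _⟩
        (htrans _ _ ih (hP y _ _ _ fun s => ?_))
      have : p.subpath (t k) (t (k + 1)) s ∈ range (p.subpath (t k) (t (k + 1))) := ⟨s, rfl⟩
      rw [Path.range_subpath_of_le _ _ _ (hm k.le_succ)] at this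
      obtain ⟨u, hu, e⟩ := this
      exact e ▸ interior_subset (hy hu)
  have k1 : ∀ s s', s = 0 → s' = 1 → P (p.subpath s s') → P (p.subpath 0 1) := by
    rintro _ _ rfl rfl h
    exact h
  have k2 : ∀ (a' b' : X) (ha : a' = a) (hb : b' = b), P (p.cast ha hb) → P p := by
    rintro _ _ rfl rfl h
    exact h
  have k3 := k1 _ _ h0 (h1 n le_rfl) (key n)
  rw [Path.subpath_zero_one] at k3
  exact k2 _ _ _ _ k3

/-- A multiplicative homotopy invariant function on paths. -/
structure Hol (X : Type*) [TopologicalSpace X] (G : Type*) [Group G] where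
  H : ∀ {x y : X}, Path x y → G
  trans : ∀ {x y z : X} (p : Path x y) (q : Path y z), H (p.trans q) = H p * H q
  homot : ∀ {x y : X} (p q : Path x y), p.Homotopic q → H p = H q

namespace Hol

variable {X Y : Type*} [TopologicalSpace X] [TopologicalSpace Y] {G : Type*} [Group G]

theorem refl (Φ : Hol X G) (x : X) : Φ.H (Path.refl x) = 1 := by
  have h := Φ.trans (Path.refl x) (Path.refl x)
  rw [Path.refl_trans_refl] at h
  exact left_eq_mul.1 h

theorem symm (Φ : Hol X G) {x y : X} (p : Path x y) : Φ.H p.symm = (Φ.H p)⁻¹ := by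
  have h := Φ.homot _ _ ⟨Path.Homotopy.reflTransSymm p⟩
  rw [Φ.refl, Φ.trans] at h
  exact eq_inv_of_mul_eq_one_right h.symm

theorem cast (Φ : Hol X G) {x y x' y' : X} (p : Path x y) (hx : x' = x) (hy : y' = y) :
    Φ.H (p.cast hx hy) = Φ.H p := by
  subst hx hy; rfl

/-- Pull back along a continuous map. -/
def comap (Φ : Hol X G) (f : C(Y, X)) : Hol Y G where
  H p := Φ.H (p.map f.continuous)
  trans p q := by rw [Path.map_trans, Φ.trans]
  homot p q h := Φ.homot _ _ (h.map f)

/-- Locally the holonomy is given by the function `h`. -/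
def Loc (Φ : Hol X G) (h : X → X → G) : Prop :=
  ∀ x, ∃ U ∈ 𝓝 x, ∀ (y z : X) (p : Path y z), (∀ s, p s ∈ U) → Φ.H p = (h x y)⁻¹ * h x z

/-- A holonomy that is locally given by a global gauge is given by it globally. -/
theorem eq_of_loc (Φ : Hol X G) (g : X → G)
    (hloc : ∀ x : X, ∃ U ∈ 𝓝 x, ∀ (y z : X) (p : Path y z), (∀ s, p s ∈ U) →
      Φ.H p = (g y)⁻¹ * g z) {y z : X} (p : Path y z) : Φ.H p = (g y)⁻¹ * g z := by
  refine path_induction (fun {a b} q => Φ.H q = (g a)⁻¹ * g b) (fun q r hq hr => ?_)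
    (fun q r h hq => (Φ.homot _ _ h).symm.trans hq) hloc p
  rw [Φ.trans, hq, hr, mul_assoc, mul_inv_cancel_left]

end Hol

/-- The total space of the covering attached to a germ cocycle. -/
structure Hol_E {X G : Type*} (h : X → X → G) where
  x : X
  g : G

section cover

variable {X : Type*} [TopologicalSpace X] {G : Type*} [Group G] {h : X → X → G}

instance Hol_top : TopologicalSpace (Hol_E h) :=
  TopologicalSpace.mkOfNhds fun e => map (fun z => ⟨z, e.g * h e.x z⟩) (𝓝 e.x)

variable (hself : ∀ x, h x x = 1)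
  (hloc : ∀ x, ∀ᶠ z in 𝓝 x, ∀ᶠ w in 𝓝 z, h x w = h x z * h z w)
include hself hloc

theorem Hol_nhds (e : Hol_E h) : 𝓝 e = map (fun z => ⟨z, e.g * h e.x z⟩) (𝓝 e.x) := by
  refine TopologicalSpace.nhds_mkOfNhds _ e (fun e s hs => ?_) fun e s hs => ?_
  · have : (⟨e.x, e.g * h e.x e.x⟩ : Hol_E h) ∈ s :=
      mem_of_mem_nhds (s := (fun z => (⟨z, e.g * h e.x z⟩ : Hol_E h)) ⁻¹' s) hs
    rwa [hself, mul_one] at this
  · rw [eventually_map]
    filter_upwards [eventually_eventually_nhds.2 (mem_map.1 hs), hloc e.x] with z h1 h2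
    rw [mem_map]
    filter_upwards [h1, h2] with w h3 h4
    show (⟨w, e.g * h e.x z * h z w⟩ : Hol_E h) ∈ s
    rw [mul_assoc, ← h4]
    exact h3

theorem Hol_cont {A : Type*} [TopologicalSpace A] {f : A → X} {g : A → G} {a : A}
    (hf : ContinuousAt f a) (hg : ∀ᶠ b in 𝓝 a, g b = g a * h (f a) (f b)) :
    ContinuousAt (fun b => (⟨f b, g b⟩ : Hol_E h)) a := by
  rw [ContinuousAt, Hol_nhds hself hloc]
  refine (tendsto_map.comp hf).congr' ?_
  filter_upwards [hg] with b hb
  rw [hb]
  rfl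

theorem Hol_left (c : G) : Continuous fun e : Hol_E h => (⟨e.x, c * e.g⟩ : Hol_E h) := by
  refine continuous_iff_continuousAt.2 fun e => ?_
  rw [ContinuousAt, Hol_nhds hself hloc, Hol_nhds hself hloc, tendsto_map'_iff]
  exact tendsto_map.congr fun z => by simp only [Function.comp, mul_assoc]

theorem Hol_cov : IsCoveringMap (Hol_E.x : Hol_E h → X) := by
  let : TopologicalSpace G := ⊥
  have : DiscreteTopology G := ⟨rfl⟩
  have hx : Continuous (Hol_E.x : Hol_E h → X) := continuous_iff_continuousAt.2 fun e => by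
    rw [ContinuousAt, Hol_nhds hself hloc, tendsto_map'_iff]
    exact tendsto_id
  refine IsCoveringMap.mk _ (fun _ => G) (fun x =>
    { toFun := fun e => (e.x, e.g * (h x e.x)⁻¹)
      invFun := fun u => ⟨u.1, u.2 * h x u.1⟩
      source := Hol_E.x ⁻¹' interior {z | ∀ᶠ w in 𝓝 z, h x w = h x z * h z w}
      target := interior {z | ∀ᶠ w in 𝓝 z, h x w = h x z * h z w} ×ˢ univ
      map_source' := fun e he => ⟨he, trivial⟩
      map_target' := fun u hu => hu.1
      left_inv' := fun e _ => by simp only [inv_mul_cancel_right]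
      right_inv' := fun u _ => by simp only [mul_inv_cancel_right]
      open_source := isOpen_interior.preimage hx
      open_target := isOpen_interior.prod isOpen_univ
      continuousOn_toFun := fun e he => ?_
      continuousOn_invFun := fun u hu => ?_
      baseSet := interior {z | ∀ᶠ w in 𝓝 z, h x w = h x z * h z w}
      open_baseSet := isOpen_interior
      source_eq := rfl
      target_eq := rfl
      proj_toFun := fun _ _ => rfl }) fun x => mem_interior_iff_mem_nhds.2 (hloc x)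
  · refine (hx.continuousAt.prodMk ?_).continuousWithinAt
    rw [ContinuousAt, Hol_nhds hself hloc, tendsto_map'_iff]
    refine tendsto_const_nhds.congr' ?_
    have h1 : ∀ᶠ w in 𝓝 e.x, h x w = h x e.x * h e.x w :=
      interior_subset (s := {z | ∀ᶠ w in 𝓝 z, h x w = h x z * h z w}) he
    filter_upwards [h1] with w hw
    show _ = e.g * h e.x w * (h x w)⁻¹
    rw [hw, mul_inv_rev, mul_assoc, mul_inv_cancel_left]
  · refine (Hol_cont hself hloc continuousAt_fst ?_).continuousWithinAt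
    have h1 : ∀ᶠ w in 𝓝 u.1, h x w = h x u.1 * h u.1 w :=
      interior_subset (s := {z | ∀ᶠ w in 𝓝 z, h x w = h x z * h z w}) hu.1
    have h2 : ∀ᶠ v in 𝓝 u, v.2 = u.2 :=
      continuousAt_snd.eventually (p := fun c => c = u.2) ((isOpen_discrete _).mem_nhds rfl)
    filter_upwards [continuousAt_fst.eventually h1, h2] with v h3 h4
    rw [h3, h4, mul_assoc]

end cover

/-- A germ cocycle has a holonomy. -/
theorem exists_hol {X : Type*} [TopologicalSpace X] {G : Type*} [Group G] (h : X → X → G)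
    (hself : ∀ x, h x x = 1)
    (hloc : ∀ x, ∀ᶠ z in 𝓝 x, ∀ᶠ w in 𝓝 z, h x w = h x z * h z w) :
    ∃ Φ : Hol X G, Φ.Loc h := by
  have cov := Hol_cov hself hloc
  have hC : ∀ {x y : X} (p : Path x y) (Γ : unitInterval → Hol_E h), Continuous Γ →
      (∀ t, (Γ t).x = p t) → (Γ 1).g = (Γ 0).g *
        (cov.monodromy (Path.Homotopic.Quotient.mk p) ⟨⟨x, 1⟩, rfl⟩).1.g := by
    intro x y p Γ hc hp
    have h1 := (cov.eq_liftPath_iff (γ := p.toContinuousMap) (e := ⟨x, 1⟩) p.source
      (Γ := fun t => ⟨(Γ t).x, (Γ 0).g⁻¹ * (Γ t).g⟩)).2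
      ⟨(Hol_left hself hloc _).comp hc, funext hp, by
        rw [inv_mul_cancel, hp, p.source]⟩
    have h2 : (Γ 0).g⁻¹ * (Γ 1).g =
      (cov.monodromy (Path.Homotopic.Quotient.mk p) ⟨⟨x, 1⟩, rfl⟩).1.g :=
      congrArg Hol_E.g (congrFun h1 1)
    rw [← h2, mul_inv_cancel_left]
  refine ⟨⟨fun {x y} p => (cov.monodromy (Path.Homotopic.Quotient.mk p) ⟨⟨x, 1⟩, rfl⟩).1.g,
    fun {x y z} p q => ?_, fun p q e => ?_⟩, fun x => ⟨_, hloc x, fun y z p hp => ?_⟩⟩
  · rw [Path.Homotopic.Quotient.mk_trans, cov.monodromy_trans_apply]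
    generalize cov.monodromy (Path.Homotopic.Quotient.mk p) ⟨⟨x, 1⟩, rfl⟩ = e
    have h0 : q.toContinuousMap 0 = e.1.x := q.source.trans e.2.symm
    have h1 := hC q (cov.liftPath q.toContinuousMap e.1 h0) (ContinuousMap.continuous _)
      (congrFun (cov.liftPath_lifts _ _ h0))
    rw [cov.liftPath_zero] at h1
    exact h1
  · rw [Path.Homotopic.Quotient.eq.2 e]
  · have h1 := hC p (fun t => ⟨p t, h x (p t)⟩) (continuous_iff_continuousAt.2 fun t =>
      Hol_cont hself hloc p.continuous.continuousAt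
        (p.continuous.continuousAt.eventually (hp t))) fun _ => rfl
    rw [p.source, p.target] at h1
    exact eq_inv_mul_of_mul_eq h1.symm

/-- Germ cocycles on a subset. -/
def CocyOn {X : Type*} [TopologicalSpace X] {G : Type*} [Group G] (S : Set X) (h : X → X → G) :
    Prop :=
  (∀ x, h x x = 1) ∧ ∀ x ∈ S, ∀ᶠ z in 𝓝[S] x, ∀ᶠ w in 𝓝[S] z, h x w = h x z * h z w

theorem CocyOn.exists_hol {X : Type*} [TopologicalSpace X] {G : Type*} [Group G] {S : Set X}
    {h : X → X → G} (hh : CocyOn S h) : ∃ Φ : Hol ↥S G, Φ.Loc fun x y => h x y := by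
  refine Neuwirth.exists_hol _ (fun x => hh.1 x) fun x => ?_
  have h1 := hh.2 x x.2
  rw [← map_nhds_subtype_val, eventually_map] at h1
  filter_upwards [h1] with z hz
  rwa [← map_nhds_subtype_val, eventually_map] at hz

/-- Lifting of paths up to homotopy along a map with local sections through every point. -/
theorem exists_lift {Z Y : Type*} [TopologicalSpace Z] [TopologicalSpace Y] (π : C(Z, Y))
    (hs : ∀ y : Y, ∃ U ∈ 𝓝 y, ∀ z : Z, π z ∈ U →
      ∃ s : Y → Z, ContinuousOn s U ∧ s (π z) = z ∧ ∀ u ∈ U, π (s u) = u)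
    {y y' : Y} (γ : Path y y') (z : Z) (hz : y = π z) :
    ∃ (z' : Z) (hz' : y' = π z') (p : Path z z'),
      ((p.map π.continuous).cast hz hz').Homotopic γ := by
  refine path_induction (fun {a b} δ => ∀ (z : Z) (hz : a = π z), ∃ (z' : Z) (hz' : b = π z')
    (p : Path z z'), ((p.map π.continuous).cast hz hz').Homotopic δ) ?_ ?_ (fun u => ?_) γ z hz
  · rintro _ _ _ δ ε h1 h2 z rfl
    obtain ⟨z', rfl, p, hp⟩ := h1 z rfl
    obtain ⟨z'', rfl, q, hq⟩ := h2 z' rfl
    refine ⟨z'', rfl, p.trans q, ?_⟩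
    rw [Path.map_trans]
    exact hp.hcomp hq
  · intro a b δ ε e h1 z hz
    obtain ⟨z', hz', p, hp⟩ := h1 z hz
    exact ⟨z', hz', p, hp.trans e⟩
  · obtain ⟨U, hU, h1⟩ := hs u
    refine ⟨U, hU, ?_⟩
    rintro _ b δ hδ z rfl
    obtain ⟨s, hc, h2, h3⟩ := h1 z (δ.source ▸ hδ 0)
    refine ⟨s b, (h3 b (δ.target ▸ hδ 1)).symm,
      ⟨⟨fun t => s (δ t), hc.comp_continuous δ.continuous hδ⟩, (congrArg s δ.source).trans h2,
        congrArg s δ.target⟩, ?_⟩
    have k : ∀ ε : Path (π z) b, ε = δ → ε.Homotopic δ := fun ε e => e ▸ Path.Homotopic.refl ε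
    exact k _ (Path.ext (funext fun t => h3 _ (hδ t)))

/-- A set that contracts inside itself is simply connected. -/
theorem isSimplyConnected_of_contraction {X : Type*} [TopologicalSpace X] (S : Set X) (x₀ : X)
    (hx₀ : x₀ ∈ S) (c : ℝ × X → X) (hc : ContinuousOn c (Icc 0 1 ×ˢ S))
    (hmem : ∀ t ∈ Icc (0 : ℝ) 1, ∀ x ∈ S, c (t, x) ∈ S) (h0 : ∀ x ∈ S, c (0, x) = x)
    (h1 : ∀ x ∈ S, c (1, x) = x₀) : IsSimplyConnected S := by
  have : ContractibleSpace S := (contractible_iff_id_nullhomotopic S).2 ⟨⟨x₀, hx₀⟩,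
    ⟨{ toFun := fun u => ⟨c (u.1, u.2), hmem _ u.1.2 _ u.2.2⟩
       continuous_toFun := (hc.comp_continuous (f := fun u : unitInterval × S =>
          ((u.1 : ℝ), (u.2 : X))) (by fun_prop) fun u => ⟨u.1.2, u.2.2⟩).subtype_mk _
       map_zero_left := fun x => Subtype.ext (h0 _ x.2)
       map_one_left := fun x => Subtype.ext (h1 _ x.2) }⟩⟩
  exact SimplyConnectedSpace.ofContractible S

/-- Two paths with the same ends in a simply connected set are homotopic. -/
theorem homotopic_of_isSimplyConnected {X : Type*} [TopologicalSpace X] {S : Set X}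
    (hS : IsSimplyConnected S) {a b : X} (p q : Path a b) (hp : ∀ s, p s ∈ S)
    (hq : ∀ s, q s ∈ S) : p.Homotopic q := by
  have := hS.simplyConnectedSpace
  have ha : a ∈ S := p.source ▸ hp 0
  have hb : b ∈ S := p.target ▸ hp 1
  let l : ∀ r : Path a b, (∀ s, r s ∈ S) → Path (⟨a, ha⟩ : S) ⟨b, hb⟩ := fun r hr =>
    ⟨⟨fun s => ⟨r s, hr s⟩, r.continuous.subtype_mk _⟩, Subtype.ext r.source, Subtype.ext r.target⟩
  exact (SimplyConnectedSpace.paths_homotopic (l p hp) (l q hq)).map
    ⟨Subtype.val, continuous_subtype_val⟩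

/-- Tails: over a simply connected set there is a coherent choice of classes of paths from a base
point of the target. -/
theorem exists_tail {Z Y : Type*} [TopologicalSpace Z] [TopologicalSpace Y] [PathConnectedSpace Y]
    (π : C(Z, Y)) (y₀ : Y) (S : Set Z) (hS : S.Nonempty → IsSimplyConnected S) :
    ∃ τ : ∀ z : Z, Path y₀ (π z), ∀ (z z' : Z) (p : Path z z'), (∀ s, p s ∈ S) →
      ((τ z).trans (p.map π.continuous)).Homotopic (τ z') := by
  rcases S.eq_empty_or_nonempty with rfl | ⟨z₀, h₀⟩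
  · exact ⟨fun z => PathConnectedSpace.somePath _ _, fun z z' p hp => (hp 0).elim⟩
  have hS' := hS ⟨z₀, h₀⟩
  let β : Path y₀ (π z₀) := PathConnectedSpace.somePath _ _
  have h1 : ∀ z, ∃ σ : Path y₀ (π z), z ∈ S → ∃ q : Path z₀ z, (∀ s, q s ∈ S) ∧
      σ = β.trans (q.map π.continuous) := fun z => by
    by_cases hz : z ∈ S
    · obtain ⟨q, hq⟩ := hS'.isPathConnected.joinedIn z₀ h₀ z hz
      exact ⟨_, fun _ => ⟨q, hq, rfl⟩⟩
    · exact ⟨PathConnectedSpace.somePath _ _, fun h => (hz h).elim⟩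
  choose τ hτ using h1
  refine ⟨τ, fun z z' p hp => ?_⟩
  obtain ⟨q, hq, e⟩ := hτ z (p.source ▸ hp 0)
  obtain ⟨q', hq', e'⟩ := hτ z' (p.target ▸ hp 1)
  have h2 := homotopic_of_isSimplyConnected hS' (q.trans p) q' (fun s => by
    have : q.trans p s ∈ range (q.trans p) := ⟨s, rfl⟩
    rw [Path.trans_range] at this
    rcases this with ⟨u, hu⟩ | ⟨u, hu⟩
    exacts [hu ▸ hq u, hu ▸ hp u]) hq'
  have h3 := h2.map π
  rw [Path.map_trans] at h3
  rw [e, e']
  exact Path.Homotopic.trans ⟨Path.Homotopy.transAssoc _ _ _⟩ ((Path.Homotopic.refl β).hcomp h3)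

end Neuwirth
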