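import Mathlib

/-!
Knots on nested tori joined by half twisted bands.

The open solid `T^2 x (0, l+1)` of the 3-sphere is described by coordinates `(ζ, ρ)`, where
`ζ = θ + i t` is taken modulo `ℤ + ℤ i` and `ρ` is the depth.
-/

set_option autoImplicit false

open Complex Set

namespace Neuwirth

/-- The 3-sphere. -/
abbrev S3 : Type := {p : ℂ × ℂ // ‖p.1‖ ^ 2 + ‖p.2‖ ^ 2 = 1}

/-- Data of a knot on nested tori. Layer `i` (for `1 ≤ i ≤ l`) lies on the torus of depth `i` and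
consists of the `n i` strands `θ = α i t + k / n i`; `B j` is the set of centres of the bands
joining layer `j` to layer `j + 1`, `e j` is the sign of their half twist and `ε` their radius.
The integer matrix with rows `(a, b)` and `(c, d)` gives the two angles of the 3-sphere. -/
structure Nest where
  l : ℕ
  n : ℕ → ℕ
  q : ℕ → ℤ
  α : ℕ → ℝ → ℝ
  e : ℕ → ℝ
  B : ℕ → Set ℂ
  ε : ℝ
  a : ℤ
  b : ℤ
  c : ℤ
  d : ℤ

namespace Nest

variable (N : Nest)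

/-- The point of the 3-sphere with coordinates `(ζ, ρ)`. -/
noncomputable def E (x : ℂ × ℝ) : S3 :=
  ⟨((Real.cos (Real.pi * x.2 / (2 * (N.l + 1))) : ℝ) *
      exp (((2 * Real.pi * (N.a * x.1.re + N.b * x.1.im) : ℝ) : ℂ) * I),
    (Real.sin (Real.pi * x.2 / (2 * (N.l + 1))) : ℝ) *
      exp (((2 * Real.pi * (N.c * x.1.re + N.d * x.1.im) : ℝ) : ℂ) * I)), by
    simp only [norm_mul, norm_exp_ofReal_mul_I, mul_one, norm_real, Real.norm_eq_abs, sq_abs]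
    exact Real.cos_sq_add_sin_sq _⟩

/-- The point `ζ` lies on a strand of layer `i`. -/
def On (i : ℕ) (ζ : ℂ) : Prop := ∃ k : ℤ, (N.n i : ℝ) * (ζ.re - N.α i ζ.im) = k

/-- The knot in the coordinates `(ζ, ρ)`: the strands of the layers outside the discs of radius
`ε` around the adjacent bands, and the two edges of each half twisted band. -/
def knotUp : Set (ℂ × ℝ) :=
  {x | ∃ i : ℕ, 1 ≤ i ∧ i ≤ N.l ∧ x.2 = i ∧ N.On i x.1 ∧
    ∀ β ∈ N.B (i - 1) ∪ N.B i, N.ε ≤ ‖x.1 - β‖} ∪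
  {x | ∃ j : ℕ, ∃ β ∈ N.B j, ∃ s σ : ℝ, |s| ≤ 1 / 2 ∧ (σ = 1 ∨ σ = -1) ∧
    x = (β + ((σ * (N.ε / 2 + N.ε * |s|) : ℝ) : ℂ) * exp (((N.e j * Real.pi * s : ℝ) : ℂ) * I),
      j + 1 / 2 + s)}

/-- The knot in the 3-sphere. -/
def knot : Set S3 := N.E '' N.knotUp

/-- The conditions on the data. -/
structure Good : Prop where
  two_le : 2 ≤ N.l
  det : N.a * N.d - N.b * N.c = 1 ∨ N.a * N.d - N.b * N.c = -1
  n_pos : ∀ i, 0 < N.n i
  cont : ∀ i, Continuous (N.α i)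
  per : ∀ i t, N.α i (t + 1) = N.α i t + N.q i / N.n i
  sign : ∀ j, N.e j = 1 ∨ N.e j = -1
  ε_pos : 0 < N.ε
  ε_le : ∀ i, i ≤ N.l → 4 * N.ε * N.n i ≤ 1
  bands : ∀ j, (N.B j).Nonempty ↔ 1 ≤ j ∧ j < N.l
  inv : ∀ j, ∀ β ∈ N.B j, ∀ k m : ℤ, β + k + m * I ∈ N.B j
  sep : ∀ j j', ∀ β ∈ N.B j, ∀ β' ∈ N.B j', |β.im - β'.im| < 4 * N.ε →
    j = j' ∧ ∃ k : ℤ, β' = β + k
  align : ∀ j, ∀ β ∈ N.B j, N.On j β ∧ N.On (j + 1) β ∧ ∀ t, |t - β.im| ≤ 2 * N.ε →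
    N.α j t = N.α j β.im ∧ N.α (j + 1) t = N.α (j + 1) β.im
  mono : ∀ j, ∀ β ∈ N.B j, ∀ β' ∈ N.B j, β.im < β'.im → ∃ k : ℤ,
    N.e j * (N.α (j + 1) β'.im - N.α (j + 1) β.im) ≤ N.e j * (β'.re + k - β.re) ∧
    N.e j * (β'.re + k - β.re) ≤ N.e j * (N.α j β'.im - N.α j β.im)
  outer : 2 ≤ |N.a * N.q 1 + N.b * N.n 1|
  inner : 2 ≤ |N.c * N.q N.l + N.d * N.n N.l|

end Nest

/-- Near `x` the triple (3-sphere, `F`, `K`) looks like (space, plane, line). -/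
def Flat (F K : Set S3) (x : S3) : Prop :=
  ∃ φ : OpenPartialHomeomorph S3 (ℝ × ℝ × ℝ), x ∈ φ.source ∧
    ∀ y ∈ φ.source, (y ∈ F ↔ (φ y).2.2 = 0) ∧ (y ∈ K ↔ (φ y).2 = 0)

/-- The inclusion of `F \ K` in the complement of `K`. -/
def incl (F K : Set S3) : C(↥(F \ K), ↥Kᶜ) :=
  ⟨Set.inclusion fun _ h => h.2, continuous_inclusion _⟩

end Neuwirth
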