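import Pool.Agent.Work.MP_d5331a_gt.Hol
import Pool.Agent.Work.MP_d5331a_gt.Defs

-- merged part: Pool.Agent.Work.MP_d5331a_gt.Walk
section
/-!
Reduced walks in a graph, and the group of normal forms of a free product of `ℤ` with a free group.

Plan for `exists_walk`: `path_induction` with the conclusion as predicate. Concatenation: prove by
induction on the first walk that a walk `L₁ ++ L₂` with `L₂` reduced can be replaced by a reduced
walk with the same ends, the same product and only darts of `L₁ ++ L₂` (one step: put a dart `d`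
in front of a reduced walk; if the walk starts with the reverse dart cancel both).
Plan for the group: `S s` sends `(k, L)` to `(k', L')` if `k = 0` and `L = (s, false, k') :: L'`,
and to `(0, (s, true, k) :: L)` otherwise; its inverse is the same with `true`, `false` exchanged.
-/

set_option autoImplicit false

open Set Filter Topology

namespace Neuwirth

section Walks

variable {A C : Type*} (src tgt : A → C)

/-- Source of a dart (an arc with a direction). -/
def dsrc (d : A × Bool) : C := if d.2 then src d.1 else tgt d.1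

/-- Target of a dart. -/
def dtgt (d : A × Bool) : C := if d.2 then tgt d.1 else src d.1

/-- Value of a dart. -/
def dval {M : Type*} [Group M] (val : A → M) (d : A × Bool) : M :=
  if d.2 then val d.1 else (val d.1)⁻¹

/-- Walks. -/
inductive Walk : C → List (A × Bool) → C → Prop
  | nil (u : C) : Walk u [] u
  | cons (d : A × Bool) {L : List (A × Bool)} {v : C} :
      Walk (dtgt src tgt d) L v → Walk (dsrc src tgt d) (d :: L) v

/-- No dart is followed by its reverse. -/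
def Reduced (L : List (A × Bool)) : Prop := L.IsChain fun d d' => d' ≠ (d.1, !d.2)

theorem walk_inv {u v : C} {d : A × Bool} {L : List (A × Bool)}
    (h : Walk src tgt u (d :: L) v) : u = dsrc src tgt d ∧ Walk src tgt (dtgt src tgt d) L v := by
  generalize hL : d :: L = L' at h
  cases h with
  | nil => cases hL
  | cons e w =>
    cases hL
    exact ⟨rfl, w⟩

theorem walk_cons_red {M : Type*} [Group M] (val : A → M) (d : A × Bool) {v : C}
    {L : List (A × Bool)} (w : Walk src tgt (dtgt src tgt d) L v) (r : Reduced L) :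
    ∃ L', Walk src tgt (dsrc src tgt d) L' v ∧ Reduced L' ∧ (∀ e ∈ L', e = d ∨ e ∈ L) ∧
      (L'.map (dval val)).prod = dval val d * (L.map (dval val)).prod := by
  cases L with
  | nil => exact ⟨[d], Walk.cons d w, List.IsChain.singleton _, by simp, by simp⟩
  | cons e L =>
    by_cases he : e = (d.1, !d.2)
    · refine ⟨L, ?_, List.IsChain.of_cons r, fun x hx => Or.inr (List.mem_cons_of_mem _ hx), ?_⟩
      · have h := (walk_inv src tgt w).2
        have h2 : dtgt src tgt e = dsrc src tgt d := by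
          rw [he]
          rcases d with ⟨a, _ | _⟩ <;> simp [dtgt, dsrc]
        rwa [h2] at h
      · rw [he]
        rcases d with ⟨a, _ | _⟩ <;> simp [dval]
    · exact ⟨d :: e :: L, Walk.cons d w, List.IsChain.cons_cons he r,
        fun x hx => List.mem_cons.1 hx, by simp⟩

theorem walk_append {M : Type*} [Group M] (val : A → M) {u v z : C} {L₁ L₂ : List (A × Bool)}
    (w₁ : Walk src tgt u L₁ v) (w₂ : Walk src tgt v L₂ z) (r : Reduced L₂) :
    ∃ L, Walk src tgt u L z ∧ Reduced L ∧ (∀ e ∈ L, e ∈ L₁ ∨ e ∈ L₂) ∧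
      (L.map (dval val)).prod = (L₁.map (dval val)).prod * (L₂.map (dval val)).prod := by
  induction w₁ with
  | nil u => exact ⟨L₂, w₂, r, fun e he => Or.inr he, by simp⟩
  | cons d w ih =>
    obtain ⟨L, w', r', m, e⟩ := ih w₂
    obtain ⟨L', w'', r'', m', e'⟩ := walk_cons_red src tgt val d w' r'
    refine ⟨L', w'', r'', fun x hx => ?_, by simp [e', e, mul_assoc]⟩
    rcases m' x hx with h | h
    · exact Or.inl (h ▸ List.mem_cons_self)
    · exact (m x h).imp (List.mem_cons_of_mem _) id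

theorem exists_walk {Z : Type*} [TopologicalSpace Z] {M : Type*} [Group M] (Ξ : Hol Z M)
    (cell : Z → C) (valid : A → Prop) (val : A → M)
    (hloc : ∀ y : Z, ∃ U ∈ 𝓝 y,
      ((∀ a ∈ U, cell a = cell y) ∧
        ∀ (a b : Z) (p : Path a b), (∀ s, p s ∈ U) → Ξ.H p = 1) ∨
      ∃ r, valid r ∧ ∃ pos : Z → Prop, (∀ a ∈ U, pos a → cell a = tgt r) ∧
        (∀ a ∈ U, ¬ pos a → cell a = src r) ∧
        ∀ (a b : Z) (p : Path a b), (∀ s, p s ∈ U) →
          ((pos a ↔ pos b) → Ξ.H p = 1) ∧ (¬ pos a → pos b → Ξ.H p = val r) ∧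
          (pos a → ¬ pos b → Ξ.H p = (val r)⁻¹))
    {a b : Z} (p : Path a b) :
    ∃ L, Walk src tgt (cell a) L (cell b) ∧ Reduced L ∧ (∀ d ∈ L, valid d.1) ∧
      (L.map (dval val)).prod = Ξ.H p := by
  refine path_induction (fun {a b : Z} (p : Path a b) =>
    ∃ L, Walk src tgt (cell a) L (cell b) ∧ Reduced L ∧ (∀ d ∈ L, valid d.1) ∧
      (L.map (dval val)).prod = Ξ.H p) ?_ ?_ ?_ p
  · rintro a b c p q ⟨L₁, w₁, -, v₁, e₁⟩ ⟨L₂, w₂, r₂, v₂, e₂⟩
    obtain ⟨L, w, r, m, e⟩ := walk_append src tgt val w₁ w₂ r₂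
    refine ⟨L, w, r, fun d hd => (m d hd).elim (v₁ d) (v₂ d), ?_⟩
    rw [e, e₁, e₂, Ξ.trans]
  · rintro a b p q h ⟨L, w, r, v, e⟩
    exact ⟨L, w, r, v, e.trans (Ξ.homot p q h)⟩
  · intro y
    obtain ⟨U, hU, h⟩ := hloc y
    refine ⟨U, hU, fun a b p hp => ?_⟩
    have ha : a ∈ U := by simpa using hp 0
    have hb : b ∈ U := by simpa using hp 1
    rcases h with ⟨h1, h2⟩ | ⟨r, hr, pos, h1, h2, h3⟩
    · refine ⟨[], ?_, List.IsChain.nil, by simp, by simp [h2 a b p hp]⟩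
      rw [h1 a ha, h1 b hb]
      exact Walk.nil _
    · obtain ⟨k1, k2, k3⟩ := h3 a b p hp
      by_cases pa : pos a <;> by_cases pb : pos b
      · refine ⟨[], ?_, List.IsChain.nil, by simp, by simp [k1 (by simp [pa, pb])]⟩
        rw [h1 a ha pa, h1 b hb pb]
        exact Walk.nil _
      · refine ⟨[(r, false)], ?_, List.IsChain.singleton _, by simpa using hr,
          by simp [dval, k3 pa pb]⟩
        rw [h1 a ha pa, h2 b hb pb]
        exact Walk.cons (src := src) (tgt := tgt) (r, false) (Walk.nil _)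
      · refine ⟨[(r, true)], ?_, List.IsChain.singleton _, by simpa using hr,
          by simp [dval, k2 pa pb]⟩
        rw [h2 a ha pa, h1 b hb pb]
        exact Walk.cons (src := src) (tgt := tgt) (r, true) (Walk.nil _)
      · refine ⟨[], ?_, List.IsChain.nil, by simp, by simp [k1 (by simp [pa, pb])]⟩
        rw [h2 a ha pa, h2 b hb pb]
        exact Walk.nil _

end Walks

/-- Normal forms `t ^ k₀ s₁ ^ ±1 t ^ k₁ ⋯`. -/
def NF : Type :=
  {x : ℤ × List ((ℕ × ℝ) × Bool × ℤ) //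
    x.2.IsChain fun p q => ¬ (p.1 = q.1 ∧ p.2.1 ≠ q.2.1 ∧ p.2.2 = 0)}

/-- The group acting on normal forms. -/
abbrev Grp : Type := Equiv.Perm NF

/-- The empty normal form. -/
def NF.one : NF := ⟨(0, []), List.IsChain.nil⟩

/-- Left multiplication by `t ^ k`. -/
def T (k : ℤ) : Grp where
  toFun x := ⟨(k + x.1.1, x.1.2), x.2⟩
  invFun x := ⟨(-k + x.1.1, x.1.2), x.2⟩
  left_inv x := Subtype.ext (by simp)
  right_inv x := Subtype.ext (by simp)

theorem T_apply (k : ℤ) (x : NF) : (T k x).1 = (k + x.1.1, x.1.2) := rfl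

theorem T_add (k m : ℤ) : T (k + m) = T k * T m := by
  ext x : 1; exact Subtype.ext (by simp [T_apply, add_assoc])

theorem T_zero : T 0 = 1 := by
  ext x : 1; exact Subtype.ext (by simp [T_apply])

theorem T_neg (k : ℤ) : T (-k) = (T k)⁻¹ := by
  rw [eq_inv_iff_mul_eq_one, ← T_add, neg_add_cancel, T_zero]

open Classical in
/-- One letter acting on normal forms. -/
noncomputable def walkStep (s : ℕ × ℝ) (b : Bool) (x : NF) : NF :=
  if h : x.1.1 = 0 ∧ ∃ k L, x.1.2 = (s, !b, k) :: L then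
    ⟨((x.1.2.headD (s, b, 0)).2.2, x.1.2.tail), x.2.tail⟩
  else
    ⟨(0, (s, b, x.1.1) :: x.1.2), by
      have hx := x.2
      cases e : x.1.2 with
      | nil => exact List.IsChain.singleton _
      | cons q L =>
        rw [e] at hx
        refine List.IsChain.cons_cons ?_ hx
        rintro ⟨h1, h2, h3⟩
        refine h ⟨h3, q.2.2, L, ?_⟩
        rw [e]
        obtain ⟨q1, q2, q3⟩ := q
        simp only at h1 h2
        subst h1
        cases b <;> cases q2 <;> simp_all⟩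

theorem walkStep_neg (s : ℕ × ℝ) (b : Bool) (x : NF)
    (h : ¬ (x.1.1 = 0 ∧ ∃ k L, x.1.2 = (s, !b, k) :: L)) :
    (walkStep s b x).1 = (0, (s, b, x.1.1) :: x.1.2) := by
  rw [walkStep, dif_neg h]

theorem walkStep_pos (s : ℕ × ℝ) (b : Bool) (x : NF) {k : ℤ} {L : List ((ℕ × ℝ) × Bool × ℤ)}
    (h0 : x.1.1 = 0) (h : x.1.2 = (s, !b, k) :: L) : (walkStep s b x).1 = (k, L) := by
  rw [walkStep, dif_pos ⟨h0, k, L, h⟩]
  simp [h]

theorem walkStep_inv (s : ℕ × ℝ) (b : Bool) (x : NF) : walkStep s (!b) (walkStep s b x) = x := by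
  refine Subtype.ext ?_
  by_cases h : x.1.1 = 0 ∧ ∃ k L, x.1.2 = (s, !b, k) :: L
  · obtain ⟨h0, k, L, h⟩ := h
    have e := walkStep_pos s b x h0 h
    rw [walkStep_neg, e]
    · exact Prod.ext h0.symm h.symm
    · rw [e]
      rintro ⟨hk, k', L', hL⟩
      have hx := x.2
      simp only at hk hL
      rw [h, hL] at hx
      exact (List.isChain_cons_cons.1 hx).1 ⟨rfl, by simp, hk⟩
  · have e := walkStep_neg s b x h
    rw [walkStep_pos s (!b) _ (k := x.1.1) (L := x.1.2) (by rw [e]) (by rw [e]; simp)]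

theorem exists_S (s : ℕ × ℝ) : ∃ g : Grp,
    (∀ x : NF, ¬ (x.1.1 = 0 ∧ ∃ k L, x.1.2 = (s, false, k) :: L) →
      (g x).1 = (0, (s, true, x.1.1) :: x.1.2)) ∧
    (∀ x : NF, ¬ (x.1.1 = 0 ∧ ∃ k L, x.1.2 = (s, true, k) :: L) →
      (g⁻¹ x).1 = (0, (s, false, x.1.1) :: x.1.2)) := by
  refine ⟨⟨walkStep s true, walkStep s false, walkStep_inv s true, walkStep_inv s false⟩,
    fun x h => ?_, fun x h => ?_⟩
  · exact walkStep_neg s true x h
  · exact walkStep_neg s false x h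

/-- Left multiplication by the letter `s`. -/
noncomputable def S (s : ℕ × ℝ) : Grp := (exists_S s).choose

theorem S_apply (s : ℕ × ℝ) (x : NF) (h : ¬ (x.1.1 = 0 ∧ ∃ k L, x.1.2 = (s, false, k) :: L)) :
    (S s x).1 = (0, (s, true, x.1.1) :: x.1.2) := (exists_S s).choose_spec.1 x h

theorem S_inv_apply (s : ℕ × ℝ) (x : NF)
    (h : ¬ (x.1.1 = 0 ∧ ∃ k L, x.1.2 = (s, true, k) :: L)) :
    ((S s)⁻¹ x).1 = (0, (s, false, x.1.1) :: x.1.2) := (exists_S s).choose_spec.2 x h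

end Neuwirth
end

-- merged part: Pool.Agent.Work.MP_d5331a_gt.Glue
section
/-!
If both sides of `Y = (V ∩ W) \ K` carry holonomies that detect the fundamental group of `Y`,
then `Y` is injective on fundamental groups in the complement of `K`.

Plan. Fix `y₀ : Y` (the base point of the loop), let `C` be the fundamental group of `Y` at `y₀`.
The maps `γ ↦ (ΦV.H γ)⁻¹`, `γ ↦ (ΦW.H γ)⁻¹` are injective homomorphisms `C →* G`
(`FundamentalGroup.mul_def` reverses the order; injective by `dV`, `dW`). Let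
`Γ = Monoid.PushoutI φ` over `Bool` with maps `ιV ιW : G →* Γ` (`Monoid.PushoutI.of`);
`Monoid.PushoutI.base_injective` and `of_apply_eq_base`. For `x ∈ Y` choose a path `p x` in `Y`
from `y₀` and put `k x = (ιV (ΦV.H (p x)))⁻¹ * ιW (ΦW.H (p x))`; it does not depend on the path,
so `k x * ιW (ΦW.H r) = ιV (ΦV.H r) * k z` for every path `r` in `Y` from `x` to `z`, and by local
path connectedness `k x * ιW (hW x z) = ιV (hV x z) * k z` for `z ∈ Y` near `x ∈ Y`. Define on the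
complement of `K` the cocycle `h x z = ιV (hV x z)` if `z ∈ V`, `x ∈ V`; `k x * ιW (hW x z)` if
`x ∈ V`, `z ∉ V`; `ιW (hW x z)` if `x ∉ V`. It satisfies the hypotheses of `exists_hol` (`V`, `W`
closed, cover). Its holonomy on paths of `Y` is `ιV ∘ ΦV.H` (`path_induction`). A loop of `Y` that
is trivial in the complement of `K` has `ιV (ΦV.H γ) = 1`, so `ΦV.H γ = 1` by
`Monoid.PushoutI.of_injective`, and `dV` concludes.
-/

set_option autoImplicit false

open Set Filter Topology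

namespace Neuwirth

/-- Inclusion of a subset as a continuous map. -/
def inc {X : Type*} [TopologicalSpace X] {S T : Set X} (h : S ⊆ T) : C(↥S, ↥T) :=
  ⟨Set.inclusion h, continuous_inclusion h⟩

theorem glue_push {Y : Type*} [TopologicalSpace Y] {G : Type} [Group G] (A B : Hol Y G) (y : Y)
    (dA : ∀ γ : Path y y, A.H γ = 1 → γ.Homotopic (Path.refl y))
    (dB : ∀ γ : Path y y, B.H γ = 1 → γ.Homotopic (Path.refl y)) :
    ∃ (Γ : Type) (_ : Group Γ) (a b : G →* Γ), Function.Injective a ∧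
      ∀ γ : Path y y, a (A.H γ) = b (B.H γ) := by
  let C : Subgroup (G × G) :=
    { carrier := {c | ∃ γ : Path y y, c = (A.H γ, B.H γ)}
      one_mem' := ⟨Path.refl y, by rw [A.refl, B.refl]; rfl⟩
      mul_mem' := by
        rintro _ _ ⟨γ, rfl⟩ ⟨δ, rfl⟩
        exact ⟨γ.trans δ, by rw [A.trans, B.trans]; rfl⟩
      inv_mem' := by
        rintro _ ⟨γ, rfl⟩
        exact ⟨γ.symm, by rw [A.symm, B.symm]; rfl⟩ }
  let φ : ∀ _ : Bool, C →* G := fun i =>
    cond i ((MonoidHom.fst G G).comp C.subtype) ((MonoidHom.snd G G).comp C.subtype)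
  have hφ : ∀ i, Function.Injective (φ i) := by
    intro i
    rw [injective_iff_map_eq_one]
    rintro ⟨_, γ, rfl⟩ h
    have : γ.Homotopic (Path.refl y) := by
      cases i
      · exact dB γ h
      · exact dA γ h
    exact Subtype.ext (Prod.ext ((A.homot _ _ this).trans (A.refl y))
      ((B.homot _ _ this).trans (B.refl y)))
  refine ⟨Monoid.PushoutI (G := fun _ : Bool => G) φ, inferInstance,
    Monoid.PushoutI.of (φ := φ) true, Monoid.PushoutI.of (φ := φ) false,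
    Monoid.PushoutI.of_injective hφ true, fun γ => ?_⟩
  exact (Monoid.PushoutI.of_apply_eq_base φ true ⟨_, γ, rfl⟩).trans
    (Monoid.PushoutI.of_apply_eq_base φ false ⟨_, γ, rfl⟩).symm

theorem glue_k {Y : Type*} [TopologicalSpace Y] [PathConnectedSpace Y] {G Γ : Type} [Group G]
    [Group Γ] (A B : Hol Y G) (y : Y) (a b : G →* Γ) (h : ∀ γ : Path y y, a (A.H γ) = b (B.H γ)) :
    ∃ k : Y → Γ, ∀ (x z : Y) (r : Path x z), k x * b (B.H r) = a (A.H r) * k z := by
  refine ⟨fun x => (a (A.H (PathConnectedSpace.somePath y x)))⁻¹ *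
    b (B.H (PathConnectedSpace.somePath y x)), fun x z r => ?_⟩
  have := h (((PathConnectedSpace.somePath y x).trans r).trans
    (PathConnectedSpace.somePath y z).symm)
  simp only [A.trans, B.trans, A.symm, B.symm, map_mul, map_inv] at this
  rw [mul_assoc, inv_mul_eq_iff_eq_mul, ← mul_assoc, ← mul_assoc, this,
    inv_mul_cancel_right]

theorem glue_loc {X : Type*} [TopologicalSpace X] {G : Type} [Group G] {S Y : Set X} (hS : Y ⊆ S)
    {h : X → X → G} {Φ : Hol ↥S G} (l : Φ.Loc fun x y => h x y) :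
    (Φ.comap (inc hS)).Loc fun x y => h x y := fun x => by
  obtain ⟨U, h1, h2⟩ := l (inc hS x)
  exact ⟨_, (inc hS).continuous.continuousAt.preimage_mem_nhds h1, fun a b p hp =>
    h2 _ _ (p.map (inc hS).continuous) hp⟩

theorem glue {X : Type*} [TopologicalSpace X] {G : Type} [Group G] (V W K Y : Set X)
    (hV : IsClosed V) (hW : IsClosed W) (hcov : V ∪ W = univ) (hY : Y = (V ∩ W) \ K)
    (hYV : Y ⊆ V) (hYW : Y ⊆ W) (hYK : Y ⊆ Kᶜ)
    [PathConnectedSpace ↥Y] [LocallyPathConnectedSpace ↥Y]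
    (hv hw : X → X → G) (cV : CocyOn V hv) (cW : CocyOn W hw)
    (ΦV : Hol ↥V G) (ΦW : Hol ↥W G) (lV : ΦV.Loc fun x y => hv x y)
    (lW : ΦW.Loc fun x y => hw x y)
    (dV : ∀ (y : ↥Y) (γ : Path y y), (ΦV.comap (inc hYV)).H γ = 1 → γ.Homotopic (Path.refl y))
    (dW : ∀ (y : ↥Y) (γ : Path y y), (ΦW.comap (inc hYW)).H γ = 1 → γ.Homotopic (Path.refl y))
    (y : ↥Y) : Function.Injective (FundamentalGroup.map (inc hYK) y) := by
  classical
  obtain ⟨Γ, _, a, b, ha, hab⟩ := glue_push _ _ y (dV y) (dW y)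
  obtain ⟨k, hk⟩ := glue_k _ _ y a b hab
  have lV' := glue_loc hYV lV
  have lW' := glue_loc hYW lW
  have cov : ∀ x, x ∉ V → x ∈ W := fun x hx => (hcov.ge (mem_univ x)).resolve_left hx
  have cov' : ∀ x, x ∉ W → x ∈ V := fun x hx => (hcov.ge (mem_univ x)).resolve_right hx
  have mY : ∀ x, x ∈ V → x ∈ W → x ∈ Kᶜ → x ∈ Y := fun x h1 h2 h3 => hY.ge ⟨⟨h1, h2⟩, h3⟩
  let k' : X → Γ := fun x => if h : x ∈ Y then k ⟨x, h⟩ else 1
  have key : ∀ x ∈ Y, ∀ᶠ z in 𝓝 x, z ∈ Y → k' x * b (hw x z) = a (hv x z) * k' z := by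
    intro x hx
    obtain ⟨U, u1, u2⟩ := lV' ⟨x, hx⟩
    obtain ⟨U', u3, u4⟩ := lW' ⟨x, hx⟩
    have : ∀ᶠ z : Y in 𝓝 ⟨x, hx⟩, k' x * b (hw x z) = a (hv x z) * k' z := by
      filter_upwards [pathComponentIn_mem_nhds (inter_mem u1 u3)] with z ⟨r, hr⟩
      have h1 := hk _ _ r
      rw [u2 _ _ r fun s => (hr s).1, u4 _ _ r fun s => (hr s).2] at h1
      simpa only [k', dif_pos hx, dif_pos z.2, cV.1, cW.1, inv_one, one_mul] using h1
    rw [nhds_subtype, eventually_comap] at this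
    exact this.mono fun z h hz => h ⟨z, hz⟩ rfl
  let h : X → X → Γ := fun x z =>
    if x ∈ V then if z ∈ V then a (hv x z) else k' x * b (hw x z) else b (hw x z)
  have h1 : ∀ x ∈ V, ∀ z ∈ V, h x z = a (hv x z) := fun x hx z hz => by
    simp only [h, if_pos hx, if_pos hz]
  have h2 : ∀ x ∈ V, ∀ z ∉ V, h x z = k' x * b (hw x z) := fun x hx z hz => by
    simp only [h, if_pos hx, if_neg hz]
  have h3 : ∀ x ∉ V, ∀ z, h x z = b (hw x z) := fun x hx z => by simp only [h, if_neg hx]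
  have eV : ∀ x ∈ V, ∀ᶠ z in 𝓝 x, z ∈ V → ∀ᶠ w in 𝓝 z, w ∈ V → hv x w = hv x z * hv z w :=
    fun x hx => (eventually_nhdsWithin_iff.1 (cV.2 x hx)).mono fun z e hz =>
      eventually_nhdsWithin_iff.1 (e hz)
  have eW : ∀ x ∈ W, ∀ᶠ z in 𝓝 x, z ∈ W → ∀ᶠ w in 𝓝 z, w ∈ W → hw x w = hw x z * hw z w :=
    fun x hx => (eventually_nhdsWithin_iff.1 (cW.2 x hx)).mono fun z e hz =>
      eventually_nhdsWithin_iff.1 (e hz)
  have oV : ∀ x ∉ V, ∀ᶠ z in 𝓝 x, z ∉ V := fun x hx => hV.isOpen_compl.mem_nhds hx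
  have oW : ∀ x ∉ W, ∀ᶠ z in 𝓝 x, z ∉ W := fun x hx => hW.isOpen_compl.mem_nhds hx
  have hc : CocyOn Kᶜ h := by
    refine ⟨fun x => ?_, fun x hx => eventually_nhdsWithin_iff.2 ?_⟩
    · by_cases e : x ∈ V
      · rw [h1 x e x e, cV.1, map_one]
      · rw [h3 x e, cW.1, map_one]
    by_cases xV : x ∈ V
    swap
    · filter_upwards [oV x xV, eW x (cov x xV)] with z zV e _
      refine mem_nhdsWithin_of_mem_nhds ?_
      filter_upwards [oV z zV, e (cov z zV)] with w wV e'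
      rw [h3 x xV, h3 x xV, h3 z zV, e' (cov w wV), map_mul]
    by_cases xW : x ∈ W
    swap
    · filter_upwards [oW x xW, eV x xV] with z zW e _
      refine mem_nhdsWithin_of_mem_nhds ?_
      filter_upwards [oW z zW, e (cov' z zW)] with w wW e'
      rw [h1 x xV w (cov' w wW), h1 x xV z (cov' z zW), h1 z (cov' z zW) w (cov' w wW),
        e' (cov' w wW), map_mul]
    filter_upwards [eV x xV, eW x xW, key x (mY x xV xW hx)] with z e1 e2 e3 zK
    refine mem_nhdsWithin_of_mem_nhds ?_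
    by_cases zV : z ∈ V
    swap
    · filter_upwards [oV z zV, e2 (cov z zV)] with w wV e'
      rw [h2 x xV w wV, h2 x xV z zV, h3 z zV, e' (cov w wV), map_mul, mul_assoc]
    by_cases zW : z ∈ W
    swap
    · filter_upwards [oW z zW, e1 zV] with w wW e'
      rw [h1 x xV w (cov' w wW), h1 x xV z zV, h1 z zV w (cov' w wW), e' (cov' w wW), map_mul]
    filter_upwards [e1 zV, e2 zW] with w e' e''
    by_cases wV : w ∈ V
    · rw [h1 x xV w wV, h1 x xV z zV, h1 z zV w wV, e' wV, map_mul]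
    · rw [h2 x xV w wV, h1 x xV z zV, h2 z zV w wV, e'' (cov w wV), map_mul, ← mul_assoc,
        e3 (mY z zV zW zK), mul_assoc]
  obtain ⟨Φ, lΦ⟩ := hc.exists_hol
  have fin : ∀ {x z : Y} (r : Path x z),
      (Φ.comap (inc hYK)).H r = a ((ΦV.comap (inc hYV)).H r) := fun r => by
    refine path_induction (fun r => (Φ.comap (inc hYK)).H r = a ((ΦV.comap (inc hYV)).H r))
      (fun p q e e' => by rw [Hol.trans, Hol.trans, map_mul, e, e'])
      (fun p q e e' => by rw [← Hol.homot _ p q e, ← Hol.homot _ p q e, e']) (fun x => ?_) r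
    obtain ⟨U, u1, u2⟩ := lV' x
    obtain ⟨U', u3, u4⟩ := glue_loc hYK lΦ x
    refine ⟨_, inter_mem u1 u3, fun c d p hp => ?_⟩
    rw [u2 _ _ p fun s => (hp s).1, u4 _ _ p fun s => (hp s).2, map_mul, map_inv]
    exact congrArg₂ (fun s t => s⁻¹ * t) (h1 _ (hYV x.2) _ (hYV c.2)) (h1 _ (hYV x.2) _ (hYV d.2))
  rw [injective_iff_map_eq_one]
  intro γ
  induction γ using Quotient.inductionOn with
  | _ γ =>
    intro e
    have e1 : (γ.map (inc hYK).continuous).Homotopic (Path.refl _) := Quotient.exact e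
    have e2 : a ((ΦV.comap (inc hYV)).H γ) = 1 :=
      (fin γ).symm.trans ((Φ.homot _ _ e1).trans (Φ.refl _))
    exact Quotient.sound (dV y γ (ha (e2.trans (map_one a).symm)))

end Neuwirth
end

-- merged part: Pool.Agent.Work.MP_d5331a_gt.Up
section
/-!
Definitions in the coordinates `(ζ, ρ)`.

The surface is the union of the sheets; sheet `i` is a graph over the plane minus the discs of
radius `ε / 2` around the bands of the slabs `i - 1` and `i`; near a band of slab `j` the sheets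
`j` and `j + 1` bend towards each other and meet along the neck circle of radius `ε / 2` at depth
`j + 1 / 2`. The region `j` lies between the sheets `j` and `j + 1`; the two sides of the surface
are the unions of the regions of given parity.
-/

set_option autoImplicit false

open Complex Set Classical

namespace Neuwirth

namespace Nest

variable (N : Nest)

/-- `1 - r / ε` at distance `r < ε` from a band of slab `j`, zero elsewhere. -/
noncomputable def bump (j : ℕ) (ζ : ℂ) : ℝ :=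
  if h : ∃ β, β ∈ N.B j ∧ ‖ζ - β‖ < N.ε then 1 - ‖ζ - h.choose‖ / N.ε else 0

/-- The centre of the band near `ζ`, or `ζ` itself. -/
noncomputable def ctr (ζ : ℂ) : ℂ :=
  if h : ∃ β, (∃ j, β ∈ N.B j) ∧ ‖ζ - β‖ < N.ε then h.choose else ζ

/-- The twist (`s = 1`) that straightens the knot on sheet `i`, and its inverse (`s = -1`). -/
noncomputable def tw (i : ℕ) (s : ℝ) (ζ : ℂ) : ℂ :=
  N.ctr ζ + (ζ - N.ctr ζ) *
    exp (((Real.pi * s * (N.e (i - 1) * N.bump (i - 1) ζ - N.e i * N.bump i ζ) : ℝ) : ℂ) * I)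

/-- The coordinate whose integer levels are the strands of the knot on sheet `i`. -/
noncomputable def lin (i : ℕ) (ζ : ℂ) : ℝ :=
  N.n i * ((N.tw i 1 ζ).re - N.α i (N.tw i 1 ζ).im)

/-- The depth of sheet `i`. -/
noncomputable def hgt (i : ℕ) (ζ : ℂ) : ℝ :=
  i + min (N.bump i ζ) (1 / 2) - min (N.bump (i - 1) ζ) (1 / 2)

def Sheet (i : ℕ) : Set (ℂ × ℝ) :=
  {x | N.bump i x.1 ≤ 1 / 2 ∧ N.bump (i - 1) x.1 ≤ 1 / 2 ∧ x.2 = N.hgt i x.1}

/-- The surface. -/
def FUp : Set (ℂ × ℝ) := {x | ∃ i, 1 ≤ i ∧ i ≤ N.l ∧ x ∈ N.Sheet i}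

/-- The surface minus the knot. -/
def YUp : Set (ℂ × ℝ) := N.FUp \ N.knotUp

def Reg (j : ℕ) : Set (ℂ × ℝ) :=
  {x | N.bump j x.1 ≤ 1 / 2 ∧ (j = 0 ∨ N.hgt j x.1 ≤ x.2) ∧ (j = N.l ∨ x.2 ≤ N.hgt (j + 1) x.1)}

/-- The side of parity `c`. -/
def SideUp (c : ℕ) : Set (ℂ × ℝ) :=
  {x | 0 ≤ x.2 ∧ x.2 ≤ N.l + 1 ∧ ∃ j, j ≤ N.l ∧ j % 2 = c ∧ x ∈ N.Reg j}

/-- The part of sheet `i` between two neighbouring strands. -/
def Gap (i : ℕ) (a : ℤ) : Set (ℂ × ℝ) :=
  {x | x ∈ N.Sheet i ∧ a < N.lin i x.1 ∧ N.lin i x.1 < a + 1}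

/-- One of the two strips into which the knot cuts the tube of the band `β` of slab `j`. -/
def Strip (j : ℕ) (β : ℂ) (σ : ℝ) : Set (ℂ × ℝ) :=
  {x | |x.2 - j - 1 / 2| < 1 / 2 ∧ ‖x.1 - β‖ = N.ε / 2 + N.ε * |x.2 - j - 1 / 2| ∧
    0 < σ * ((x.1 - β) * exp (((-(N.e j * Real.pi * (x.2 - j - 1 / 2)) : ℝ) : ℂ) * I)).im}

/-- The index of the strand of layer `i` through `β`. -/
noncomputable def ind (i : ℕ) (β : ℂ) : ℤ := ⌊(N.n i : ℝ) * (β.re - N.α i β.im)⌋

/-- The gap of sheet `j` that contains the outer half of a strip. -/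
noncomputable def go (j : ℕ) (β : ℂ) (σ : ℝ) : ℤ :=
  N.ind j β - if σ * N.e j = 1 then 0 else 1

/-- The gap of sheet `j + 1` that contains the inner half of a strip. -/
noncomputable def gi (j : ℕ) (β : ℂ) (σ : ℝ) : ℤ :=
  N.ind (j + 1) β - if σ * N.e j = 1 then 1 else 0

/-- The last time of a band of slab `j` before `t`. -/
noncomputable def lt (j : ℕ) (t : ℝ) : ℝ := sSup {τ | τ ≤ t ∧ ∃ β ∈ N.B j, β.im = τ}

/-- A band of slab `j` at time `τ`. -/
noncomputable def bd (j : ℕ) (τ : ℝ) : ℂ :=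
  if h : ∃ β, β ∈ N.B j ∧ β.im = τ then h.choose else 0

/-- The angle used in region `j`. -/
noncomputable def ph (j : ℕ) (ζ : ℂ) : ℝ :=
  if j = 0 then N.a * ζ.re + N.b * ζ.im else if j = N.l then N.c * ζ.re + N.d * ζ.im else ζ.re

/-- The value of `ph j` on the lattice vector `k + m i`. -/
def phZ (j : ℕ) (k m : ℤ) : ℤ :=
  if j = 0 then N.a * k + N.b * m else if j = N.l then N.c * k + N.d * m else k

/-- The surface in the 3-sphere. -/
def surf : Set S3 := N.E '' N.FUp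

/-- The sides in the 3-sphere. -/
def side (c : ℕ) : Set S3 := N.E '' N.SideUp c

end Nest

/-- Lattice vectors. -/
noncomputable def vec (k m : ℤ) : ℂ × ℝ := (k + m * I, 0)

/-- The sheet to which a point of depth `ρ` is assigned. -/
noncomputable def sh (ρ : ℝ) : ℕ := ⌊ρ + 1 / 2⌋₊

/-- The region of parity `c` adjacent to sheet `i`. -/
def J (c i : ℕ) : ℕ := if i % 2 = c then i else i - 1

/-- Label of a wall at the time `τ` of a band of slab `j`. -/
noncomputable def labD (j : ℕ) (τ : ℝ) (k : ℤ) : Grp := T k * S (j, Int.fract τ) * T (-k)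

/-- Arcs: a gap crossing the time of a band, or a neck arc. -/
inductive Arc
  | tm (i : ℕ) (a : ℤ) (τ : ℝ)
  | nk (j : ℕ) (β : ℂ) (σ : ℝ)

namespace Nest

variable (N : Nest)

/-- Label of the disc spanning the neck of the band `β` of slab `j`. -/
noncomputable def labE (j : ℕ) (β : ℂ) : Grp :=
  T ⌊N.ph (j - 1) β⌋ * S (j, Int.fract β.im) * T (-⌊N.ph (j + 1) β⌋)

/-- Integer position of the wall through `ζ` at the time of a band of slab `j`. -/
noncomputable def kD (j : ℕ) (ζ : ℂ) : ℤ := ⌊(N.bd j ζ.im).re⌋ + ⌊ζ.re - (N.bd j ζ.im).re⌋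

/-- The chamber of a point of the side `c`. -/
noncomputable def ch (c : ℕ) (x : ℂ × ℝ) : ℕ × ℝ := (J c (sh x.2), N.lt (J c (sh x.2)) x.1.im)

/-- The label of the wall through a point of the side `c`. -/
noncomputable def wl (c : ℕ) (x : ℂ × ℝ) : Grp :=
  if x.2 + 1 / 2 = sh x.2 ∧ sh x.2 % 2 = c then N.labE (sh x.2 - 1) (N.ctr x.1)
  else labD (J c (sh x.2)) x.1.im (N.kD (J c (sh x.2)) x.1)

noncomputable def pot (c : ℕ) (x : ℂ × ℝ) : Grp := T ⌊N.ph (J c (sh x.2)) x.1⌋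

/-- The region on the negative side of the wall through a point of the side `c`. -/
noncomputable def Jm (c : ℕ) (x : ℂ × ℝ) : ℕ :=
  if x.2 + 1 / 2 = sh x.2 ∧ sh x.2 % 2 = c then sh x.2 - 2 else J c (sh x.2)

/-- The cocycle of the side `c` in the coordinates `(ζ, ρ)`. -/
noncomputable def Lt (c : ℕ) (x z : ℂ × ℝ) : Grp :=
  if N.ch c z = N.ch c x then (N.pot c x)⁻¹ * N.pot c z
  else if J c (sh z.2) = Jm c x then (N.pot c x)⁻¹ * (N.wl c x)⁻¹ * N.pot c z else 1

/-- The cell of a point of the surface minus the knot. -/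
noncomputable def cell (c : ℕ) (x : ℂ × ℝ) : ℕ × ℤ × ℝ :=
  (sh x.2, ⌊N.lin (sh x.2) x.1⌋, N.lt (J c (sh x.2)) x.1.im)

noncomputable def src (c : ℕ) : Arc → ℕ × ℤ × ℝ
  | .tm i a τ => (i, a, N.lt (J c i) (τ - N.ε))
  | .nk j β σ => (j, N.go j β σ, N.lt (J c j) (β.im + σ * N.ε))

noncomputable def tgt (c : ℕ) : Arc → ℕ × ℤ × ℝ
  | .tm i a τ => (i, a, τ)
  | .nk j β σ => (j + 1, N.gi j β σ, N.lt (J c (j + 1)) (β.im + σ * N.ε))

def valid (c : ℕ) : Arc → Prop
  | .tm i _ τ => 1 ≤ i ∧ i ≤ N.l ∧ ∃ β ∈ N.B (J c i), β.im = τ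
  | .nk j β σ => β ∈ N.B j ∧ (σ = 1 ∨ σ = -1)

noncomputable def lab (c : ℕ) : Arc → Grp
  | .tm i a τ => labD (J c i) τ
      (⌊(N.bd (J c i) τ).re⌋ + (a - N.ind i (N.bd (J c i) τ)) / (N.n i : ℤ))
  | .nk j β _ => if j % 2 = c then 1 else N.labE j β

end Nest

/-- The lift near `f` of the argument of `z`, in turns. -/
noncomputable def al (f : ℝ) (z : ℂ) : ℝ :=
  f + arg (z * exp (((-(2 * Real.pi * f) : ℝ) : ℂ) * I)) / (2 * Real.pi)

namespace Nest

variable (N : Nest)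

/-- The depth of a point of the 3-sphere. -/
noncomputable def rho (p : S3) : ℝ := 2 * (N.l + 1) / Real.pi * Real.arcsin ‖p.1.2‖

/-- The point `ζ` with angles `u`, `v`. -/
noncomputable def unang (u v : ℝ) : ℂ :=
  (((N.a * N.d - N.b * N.c) * (N.d * u - N.b * v) : ℝ) : ℂ) +
    (((N.a * N.d - N.b * N.c) * (N.a * v - N.c * u) : ℝ) : ℂ) * I

/-- The section of `E` near `x`. -/
noncomputable def sec (x : ℂ × ℝ) (p : S3) : ℂ × ℝ :=
  (N.unang (al (N.a * x.1.re + N.b * x.1.im) p.1.1) (al (N.c * x.1.re + N.d * x.1.im) p.1.2),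
    N.rho p)

/-- A function of two points pushed down to the 3-sphere. -/
noncomputable def down {G : Type*} (L : ℂ × ℝ → ℂ × ℝ → G) (p z : S3) : G :=
  L (N.sec 0 p) (N.sec (N.sec 0 p) z)

end Nest

end Neuwirth
end

-- merged part: Pool.Agent.Work.MP_d5331a_gt.Emap
section
/-!
The map `E` and its sections.

Plan. Write `u = a θ + b t`, `v = c θ + d t`, `δ = a d - b c = ±1`; `unang` inverts `ζ ↦ (u, v)`.
`z = ‖z‖ exp (2 π i (al f z))` for all `z` (`Complex.norm_mul_exp_arg_mul_I`);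
`al f (r exp (2 π i g)) = g` if `r > 0` and `|g - f| < 1 / 2` (`Complex.arg_real_mul`,
`Complex.arg_exp_mul_I` or `arg_mul_cos_add_sin_mul_I`); `al f` is continuous at `z` if
`z exp (-2 π i f)` is in the slit plane (`Complex.continuousAt_arg`). For `0 ≤ ρ ≤ l + 1` the angle
`π ρ / (2 (l + 1))` is in `[0, π / 2]`, so `rho (E x) = ρ` (`Real.arcsin_sin`), and
`cos (arcsin ‖w‖) = ‖z‖` on the sphere.
-/

set_option autoImplicit false

open Complex Set Filter Topology

namespace Neuwirth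

theorem Emap_add (s t : ℝ) :
    exp (((s + t : ℝ) : ℂ) * I) = exp ((s : ℂ) * I) * exp ((t : ℂ) * I) := by
  rw [← exp_add, ofReal_add, add_mul]

theorem Emap_int (g : ℝ) (k : ℤ) : exp (((2 * Real.pi * (g + k) : ℝ) : ℂ) * I) =
    exp (((2 * Real.pi * g : ℝ) : ℂ) * I) :=
  exp_eq_exp_iff_exists_int.2 ⟨k, by push_cast; ring⟩

theorem Emap_inj {g g' : ℝ} {r : ℂ} (hr : r ≠ 0)
    (h : r * exp (((2 * Real.pi * g' : ℝ) : ℂ) * I) = r * exp (((2 * Real.pi * g : ℝ) : ℂ) * I)) :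
    ∃ k : ℤ, g' = g + k := by
  obtain ⟨k, hk⟩ := exp_eq_exp_iff_exists_int.1 (mul_left_cancel₀ hr h)
  refine ⟨k, mul_left_cancel₀ Real.two_pi_pos.ne' ?_⟩
  have := congrArg im hk
  simp at this
  linarith

theorem Emap_al_int (f : ℝ) (k : ℤ) (z : ℂ) : al (f + k) z = al f z + k := by
  have : exp (((-(2 * Real.pi * (f + k)) : ℝ) : ℂ) * I) =
      exp (((-(2 * Real.pi * f) : ℝ) : ℂ) * I) :=
    exp_eq_exp_iff_exists_int.2 ⟨-k, by push_cast; ring⟩
  rw [al, al, this]
  ring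

theorem norm_mul_exp_al (f : ℝ) (z : ℂ) :
    (‖z‖ : ℂ) * exp (((2 * Real.pi * al f z : ℝ) : ℂ) * I) = z := by
  have h1 := norm_mul_exp_arg_mul_I (z * exp (((-(2 * Real.pi * f) : ℝ) : ℂ) * I))
  rw [norm_mul, norm_exp_ofReal_mul_I, mul_one] at h1
  have h2 : 2 * Real.pi * al f z =
      arg (z * exp (((-(2 * Real.pi * f) : ℝ) : ℂ) * I)) + 2 * Real.pi * f := by
    rw [al]
    field_simp
    ring
  rw [h2, Emap_add, ← mul_assoc, h1, mul_assoc, ← Emap_add, neg_add_cancel]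
  simp

theorem al_eq {f g r : ℝ} (hr : 0 < r) (h : |g - f| < 1 / 2) :
    al f ((r : ℂ) * exp (((2 * Real.pi * g : ℝ) : ℂ) * I)) = g := by
  obtain ⟨h1, h2⟩ := abs_lt.1 h
  have hp := Real.pi_pos
  rw [al, mul_assoc, ← Emap_add, arg_real_mul _ hr, exp_mul_I,
    arg_cos_add_sin_mul_I ⟨by nlinarith, by nlinarith⟩]
  field_simp
  ring

theorem al_zero (f : ℝ) : al f 0 = f := by
  rw [al, zero_mul, arg_zero, zero_div, add_zero]

theorem Emap_al_self {f r : ℝ} (hr : 0 ≤ r) :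
    al f ((r : ℂ) * exp (((2 * Real.pi * f : ℝ) : ℂ) * I)) = f := by
  rcases hr.eq_or_lt with e | e
  · rw [← e, ofReal_zero, zero_mul, al_zero]
  · exact al_eq e (by simp)

/-- Near a non-zero point `z₀` with angle `f` the function `al f` is continuous. -/
theorem al_continuousAt {f r : ℝ} (hr : 0 < r) :
    ∀ᶠ z in 𝓝 ((r : ℂ) * exp (((2 * Real.pi * f : ℝ) : ℂ) * I)), ContinuousAt (al f) z ∧ z ≠ 0 := by
  have hc : Continuous fun z : ℂ => z * exp (((-(2 * Real.pi * f) : ℝ) : ℂ) * I) := by fun_prop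
  have h1 : (r : ℂ) * exp (((2 * Real.pi * f : ℝ) : ℂ) * I) *
      exp (((-(2 * Real.pi * f) : ℝ) : ℂ) * I) ∈ slitPlane := by
    rw [mul_assoc, ← Emap_add, add_neg_cancel, ofReal_zero, zero_mul, exp_zero, mul_one]
    exact ofReal_mem_slitPlane.2 hr
  filter_upwards [hc.continuousAt.eventually (isOpen_slitPlane.mem_nhds h1)] with z hz
  refine ⟨continuousAt_const.add (ContinuousAt.div_const ?_ _), fun h0 => ?_⟩
  · exact ContinuousAt.comp (f := fun z : ℂ => z * exp (((-(2 * Real.pi * f) : ℝ) : ℂ) * I))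
      (continuousAt_arg hz) hc.continuousAt
  · exact slitPlane_ne_zero hz (by rw [h0, zero_mul])

/-- Two continuous lifts of the argument differ locally by a constant integer. -/
theorem al_loc {f f' : ℝ} {z : ℂ} (hz : z ≠ 0) (hf : ContinuousAt (al f) z)
    (hf' : (‖z‖ : ℂ) * exp (((2 * Real.pi * f' : ℝ) : ℂ) * I) = z) :
    ∃ k : ℤ, f' = al f z + k ∧ ∀ᶠ w in 𝓝 z, al f' w = al f w + k := by
  obtain ⟨k, hk⟩ := Emap_inj (ofReal_ne_zero.2 (norm_ne_zero_iff.2 hz))
    (hf'.trans (norm_mul_exp_al f z).symm)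
  refine ⟨k, hk, ?_⟩
  filter_upwards [Metric.tendsto_nhds.1 hf (1 / 2) (by norm_num), eventually_ne_nhds hz]
    with w h1 h2
  have h3 := al_eq (f := f') (g := al f w + k) (norm_pos_iff.2 h2) (by
    rw [hk, add_sub_add_right_eq_sub, ← Real.dist_eq]; exact h1)
  rwa [Emap_int, norm_mul_exp_al] at h3

namespace Nest

variable {N : Nest}

theorem continuous_E : Continuous N.E := by
  refine Continuous.subtype_mk ?_ _
  fun_prop

theorem continuous_rho : Continuous N.rho := by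
  exact continuous_const.mul (Real.continuous_arcsin.comp
    (continuous_snd.comp continuous_subtype_val).norm)

theorem rho_mem (p : S3) : 0 ≤ N.rho p ∧ N.rho p ≤ N.l + 1 := by
  have hp := Real.pi_pos
  refine ⟨mul_nonneg (by positivity) (Real.arcsin_nonneg.2 (norm_nonneg _)), ?_⟩
  refine (mul_le_mul_of_nonneg_left (Real.arcsin_le_pi_div_two _) (by positivity)).trans
    (le_of_eq ?_)
  field_simp

theorem Emap_ang {ρ : ℝ} (h0 : 0 ≤ ρ) (h1 : ρ ≤ N.l + 1) :
    0 ≤ Real.pi * ρ / (2 * (N.l + 1)) ∧ Real.pi * ρ / (2 * (N.l + 1)) ≤ Real.pi / 2 := by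
  have hp := Real.pi_pos
  refine ⟨by positivity, ?_⟩
  rw [div_le_iff₀ (by positivity)]
  nlinarith

theorem Emap_pos {ρ : ℝ} (h0 : 0 < ρ) (h1 : ρ < N.l + 1) :
    0 < Real.cos (Real.pi * ρ / (2 * (N.l + 1))) ∧
      0 < Real.sin (Real.pi * ρ / (2 * (N.l + 1))) := by
  have hp := Real.pi_pos
  have a1 : 0 < Real.pi * ρ / (2 * (N.l + 1)) := by positivity
  have a2 : Real.pi * ρ / (2 * (N.l + 1)) < Real.pi / 2 := by
    rw [div_lt_iff₀ (by positivity)]
    nlinarith
  exact ⟨Real.cos_pos_of_mem_Ioo ⟨by linarith, a2⟩, Real.sin_pos_of_pos_of_lt_pi a1 (by linarith)⟩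

theorem Emap_fst (x : ℂ × ℝ) : (N.E x).1.1 = (Real.cos (Real.pi * x.2 / (2 * (N.l + 1))) : ℝ) *
    exp (((2 * Real.pi * (N.a * x.1.re + N.b * x.1.im) : ℝ) : ℂ) * I) := rfl

theorem Emap_snd (x : ℂ × ℝ) : (N.E x).1.2 = (Real.sin (Real.pi * x.2 / (2 * (N.l + 1))) : ℝ) *
    exp (((2 * Real.pi * (N.c * x.1.re + N.d * x.1.im) : ℝ) : ℂ) * I) := rfl

theorem Emap_vec (x : ℂ × ℝ) (k m : ℤ) (a b : ℤ) :
    a * (x + vec k m).1.re + b * (x + vec k m).1.im =
      a * x.1.re + b * x.1.im + ((a * k + b * m : ℤ) : ℝ) := by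
  simp [vec]
  ring

theorem Emap_vec2 (x : ℂ × ℝ) (k m : ℤ) : (x + vec k m).2 = x.2 := add_zero _

theorem Emap_unang_add (u v u' v' : ℝ) :
    N.unang (u + u') (v + v') = N.unang u v + N.unang u' v' := by
  simp only [unang]
  push_cast
  ring

theorem Emap_unang_cont : Continuous fun q : ℝ × ℝ => N.unang q.1 q.2 := by
  unfold unang
  fun_prop

theorem rho_E {x : ℂ × ℝ} (h0 : 0 ≤ x.2) (h1 : x.2 ≤ N.l + 1) : N.rho (N.E x) = x.2 := by
  obtain ⟨a1, a2⟩ := Emap_ang (N := N) h0 h1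
  have hp := Real.pi_pos
  rw [rho, Emap_snd, norm_mul, norm_exp_ofReal_mul_I, mul_one, norm_real, Real.norm_eq_abs,
    abs_of_nonneg (Real.sin_nonneg_of_nonneg_of_le_pi a1 (by linarith)),
    Real.arcsin_sin (by linarith) a2]
  field_simp

theorem E_add (x : ℂ × ℝ) (k m : ℤ) : N.E (x + vec k m) = N.E x := by
  refine Subtype.ext (Prod.ext ?_ ?_)
  · rw [Emap_fst, Emap_fst, Emap_vec, Emap_vec2, Emap_int]
  · rw [Emap_snd, Emap_snd, Emap_vec, Emap_vec2, Emap_int]

variable (hN : N.Good)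
include hN

theorem Emap_det : ((N.a : ℝ) * N.d - N.b * N.c) ^ 2 = 1 := by
  have : (N.a * N.d - N.b * N.c) ^ 2 = 1 := by rcases hN.det with h | h <;> rw [h] <;> norm_num
  exact_mod_cast this

theorem unang_fst (u v : ℝ) : N.a * (N.unang u v).re + N.b * (N.unang u v).im = u := by
  have := Emap_det hN
  simp only [unang, add_re, add_im, ofReal_re, ofReal_im, mul_re, mul_im, I_re, I_im]
  linear_combination u * this

theorem unang_snd (u v : ℝ) : N.c * (N.unang u v).re + N.d * (N.unang u v).im = v := by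
  have := Emap_det hN
  simp only [unang, add_re, add_im, ofReal_re, ofReal_im, mul_re, mul_im, I_re, I_im]
  linear_combination v * this

theorem unang_self (ζ : ℂ) :
    N.unang (N.a * ζ.re + N.b * ζ.im) (N.c * ζ.re + N.d * ζ.im) = ζ := by
  have := Emap_det hN
  refine Complex.ext ?_ ?_
  · simp only [unang, add_re, ofReal_re, ofReal_im, mul_re, I_re, I_im]
    linear_combination ζ.re * this
  · simp only [unang, add_im, ofReal_re, ofReal_im, mul_im, I_re, I_im]
    linear_combination ζ.im * this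

theorem E_sec (x : ℂ × ℝ) (p : S3) : N.E (N.sec x p) = p := by
  have hp := Real.pi_pos
  have h1 : Real.pi * (N.sec x p).2 / (2 * (N.l + 1)) = Real.arcsin ‖p.1.2‖ := by
    simp only [sec, rho]
    field_simp
  have h2 := p.2
  have h3 : ‖p.1.2‖ ≤ 1 := by nlinarith [norm_nonneg p.1.2, sq_nonneg ‖p.1.1‖]
  refine Subtype.ext (Prod.ext ?_ ?_)
  · have h4 : 1 - ‖p.1.2‖ ^ 2 = ‖p.1.1‖ ^ 2 := by linarith
    rw [Emap_fst, h1, Real.cos_arcsin, h4, Real.sqrt_sq (norm_nonneg _)]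
    simp only [sec]
    rw [unang_fst hN, norm_mul_exp_al]
  · rw [Emap_snd, h1, Real.sin_arcsin (by linarith [norm_nonneg p.1.2]) h3]
    simp only [sec]
    rw [unang_snd hN, norm_mul_exp_al]

theorem sec_E_self {x : ℂ × ℝ} (h0 : 0 ≤ x.2) (h1 : x.2 ≤ N.l + 1) : N.sec x (N.E x) = x := by
  obtain ⟨a1, a2⟩ := Emap_ang (N := N) h0 h1
  have hp := Real.pi_pos
  rw [sec, rho_E h0 h1, Emap_fst, Emap_snd,
    Emap_al_self (Real.cos_nonneg_of_mem_Icc ⟨by linarith, a2⟩),
    Emap_al_self (Real.sin_nonneg_of_nonneg_of_le_pi a1 (by linarith)), unang_self hN]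

theorem E_eq {x y : ℂ × ℝ} (h0 : 0 < x.2) (h1 : x.2 < N.l + 1) (h0' : 0 ≤ y.2)
    (h1' : y.2 ≤ N.l + 1) (h : N.E x = N.E y) : ∃ k m : ℤ, y = x + vec k m := by
  have h2 : y.2 = x.2 := by rw [← rho_E h0' h1', ← h, rho_E h0.le h1.le]
  obtain ⟨a1, a2⟩ := Emap_pos (N := N) h0 h1
  have h3 := congrArg (fun p : S3 => p.1.1) h.symm
  have h4 := congrArg (fun p : S3 => p.1.2) h.symm
  simp only [Emap_fst, Emap_snd, h2] at h3 h4
  obtain ⟨k, hk⟩ := Emap_inj (ofReal_ne_zero.2 a1.ne') h3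
  obtain ⟨m, hm⟩ := Emap_inj (ofReal_ne_zero.2 a2.ne') h4
  refine ⟨(N.a * N.d - N.b * N.c) * (N.d * k - N.b * m),
    (N.a * N.d - N.b * N.c) * (N.a * m - N.c * k), Prod.ext ?_ (by rw [Emap_vec2, h2])⟩
  rw [← unang_self hN y.1, hk, hm, Emap_unang_add, unang_self hN]
  simp only [unang, vec, Prod.fst_add]
  push_cast
  ring

theorem sec_add (x : ℂ × ℝ) (p : S3) (k m : ℤ) :
    N.sec (x + vec k m) p = N.sec x p + vec k m := by
  refine Prod.ext ?_ (by rw [Emap_vec2]; rfl)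
  have h1 := unang_self hN ((k : ℂ) + m * I)
  simp only [add_re, add_im, intCast_re, intCast_im, mul_re, mul_im, I_re, I_im, mul_zero, mul_one,
    sub_zero, add_zero, zero_add] at h1
  simp only [sec]
  rw [Emap_vec, Emap_vec, Emap_al_int, Emap_al_int, Emap_unang_add]
  push_cast
  rw [h1]
  rfl

theorem sec_E {x : ℂ × ℝ} (h0 : 0 < x.2) (h1 : x.2 < N.l + 1) :
    ∀ᶠ y in 𝓝 x, N.sec x (N.E y) = y := by
  have c1 : Continuous fun y : ℂ × ℝ => N.a * y.1.re + N.b * y.1.im := by fun_prop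
  have c2 : Continuous fun y : ℂ × ℝ => N.c * y.1.re + N.d * y.1.im := by fun_prop
  filter_upwards [Metric.tendsto_nhds.1 (c1.tendsto x) (1 / 2) (by norm_num),
    Metric.tendsto_nhds.1 (c2.tendsto x) (1 / 2) (by norm_num),
    (continuous_snd.tendsto x).eventually (Ioo_mem_nhds h0 h1)] with y a1 a2 a3
  obtain ⟨b1, b2⟩ := Emap_pos (N := N) a3.1 a3.2
  rw [sec, rho_E a3.1.le a3.2.le, Emap_fst, Emap_snd, al_eq b1 a1, al_eq b2 a2, unang_self hN]

theorem sec_continuousAt {x : ℂ × ℝ} (h0 : 0 < x.2) (h1 : x.2 < N.l + 1) :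
    ∀ᶠ p in 𝓝 (N.E x), ContinuousAt (N.sec x) p := by
  obtain ⟨b1, b2⟩ := Emap_pos (N := N) h0 h1
  have c1 : Continuous fun p : S3 => p.1.1 := continuous_fst.comp continuous_subtype_val
  have c2 : Continuous fun p : S3 => p.1.2 := continuous_snd.comp continuous_subtype_val
  filter_upwards [(c1.tendsto (N.E x)).eventually (al_continuousAt b1),
    (c2.tendsto (N.E x)).eventually (al_continuousAt b2)] with p a1 a2
  have d1 := ContinuousAt.comp (f := fun p : S3 => p.1.1) a1.1 c1.continuousAt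
  have d2 := ContinuousAt.comp (f := fun p : S3 => p.1.2) a2.1 c2.continuousAt
  exact ((Emap_unang_cont (N := N)).continuousAt.comp (d1.prodMk d2)).prodMk
    continuous_rho.continuousAt

/-- `E` is a local homeomorphism, injective modulo nothing on a small neighbourhood. -/
theorem exists_Eloc {x : ℂ × ℝ} (h0 : 0 < x.2) (h1 : x.2 < N.l + 1) :
    ∃ ψ : OpenPartialHomeomorph (ℂ × ℝ) S3, x ∈ ψ.source ∧ (∀ y, ψ y = N.E y) ∧
      ∀ y ∈ ψ.source, 0 < y.2 ∧ y.2 < N.l + 1 := by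
  obtain ⟨U, hU, oU, xU⟩ := eventually_nhds_iff.1 ((sec_E hN h0 h1).and
    ((continuous_snd.tendsto x).eventually (Ioo_mem_nhds h0 h1)))
  obtain ⟨V, hV, oV, xV⟩ := eventually_nhds_iff.1 (sec_continuousAt hN h0 h1)
  have cV : ContinuousOn (N.sec x) V := fun p hp => (hV p hp).continuousWithinAt
  exact ⟨{ toFun := N.E
           invFun := N.sec x
           source := U ∩ N.E ⁻¹' V
           target := V ∩ N.sec x ⁻¹' U
           map_source' := fun y hy => ⟨hy.2, by rw [mem_preimage, (hU y hy.1).1]; exact hy.1⟩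
           map_target' := fun p hp => ⟨hp.2, by rw [mem_preimage, E_sec hN]; exact hp.1⟩
           left_inv' := fun y hy => (hU y hy.1).1
           right_inv' := fun p _ => E_sec hN x p
           open_source := oU.inter (oV.preimage continuous_E)
           open_target := cV.isOpen_inter_preimage oV oU
           continuousOn_toFun := continuous_E.continuousOn
           continuousOn_invFun := cV.mono inter_subset_left },
    ⟨xU, xV⟩, fun _ => rfl, fun y hy => (hU y hy.1).2⟩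

/-- Membership in the image of an invariant set. -/
theorem E_mem_image {St : Set (ℂ × ℝ)} (hinv : ∀ x k m, x ∈ St → x + vec k m ∈ St)
    (hr : ∀ x ∈ St, 0 ≤ x.2 ∧ x.2 ≤ N.l + 1) {x : ℂ × ℝ} (h0 : 0 < x.2) (h1 : x.2 < N.l + 1) :
    N.E x ∈ N.E '' St ↔ x ∈ St := by
  refine ⟨?_, fun h => mem_image_of_mem _ h⟩
  rintro ⟨y, hy, e⟩
  obtain ⟨k, m, rfl⟩ := E_eq hN h0 h1 (hr y hy).1 (hr y hy).2 e.symm
  have h2 := hinv _ (-k) (-m) hy
  have h3 : x + vec k m + vec (-k) (-m) = x := by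
    refine Prod.ext ?_ (by rw [Emap_vec2, Emap_vec2])
    simp only [vec, Prod.fst_add]
    push_cast
    ring
  rwa [h3] at h2

omit hN in
/-- The image of a closed invariant set of bounded depth is compact. -/
theorem isCompact_image {St : Set (ℂ × ℝ)} (hinv : ∀ x k m, x ∈ St → x + vec k m ∈ St)
    (hr : ∀ x ∈ St, 0 ≤ x.2 ∧ x.2 ≤ N.l + 1) (hc : IsClosed St) : IsCompact (N.E '' St) := by
  have h1 := ((isCompact_closedBall (0 : ℂ × ℝ) (N.l + 2)).inter_left hc).image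
    (continuous_E (N := N))
  convert h1 using 1
  refine Subset.antisymm ?_ (image_mono inter_subset_left)
  rintro _ ⟨x, hx, rfl⟩
  refine ⟨x + vec (-⌊x.1.re⌋) (-⌊x.1.im⌋), ⟨hinv _ _ _ hx, ?_⟩, E_add _ _ _⟩
  have hl : (0 : ℝ) ≤ N.l := Nat.cast_nonneg _
  rw [mem_closedBall_zero_iff, Prod.norm_def, Emap_vec2]
  refine max_le ((norm_le_abs_re_add_abs_im _).trans ?_) ?_
  · have a1 : (x + vec (-⌊x.1.re⌋) (-⌊x.1.im⌋)).1.re = Int.fract x.1.re := by
      simp [vec, Int.fract, sub_eq_add_neg]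
    have a2 : (x + vec (-⌊x.1.re⌋) (-⌊x.1.im⌋)).1.im = Int.fract x.1.im := by
      simp [vec, Int.fract, sub_eq_add_neg]
    rw [a1, a2, abs_of_nonneg (Int.fract_nonneg _), abs_of_nonneg (Int.fract_nonneg _)]
    linarith [Int.fract_lt_one x.1.re, Int.fract_lt_one x.1.im]
  · rw [Real.norm_eq_abs, abs_of_nonneg (hr x hx).1]
    linarith [(hr x hx).2]

end Nest

end Neuwirth
end

-- merged part: Pool.Agent.Work.MP_d5331a_gt.Down
section
/-!
Pushing invariant cocycles down to the 3-sphere.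

Plan. Let `p = E x` with `x ∈ St`, `x' = sec 0 p`. If `0 < ρ < l + 1` then `x' = x + vec k m ∈ St`,
`sec x'` is continuous near `p`, sends `p` to `x'` and points of `E '' St` near `p` into `St`
(`E_mem_image`), so it tends to `𝓝[St] x'`. For `z` near `p` put `y = sec x' z`; then
`sec 0 z = y + vec k' m'` (`E_eq`), `sec (sec 0 z) w = sec y w + vec k' m'` (`sec_add`) and
`sec y w = sec y (E (sec x' w)) = sec x' w` for `w` near `z` (`sec_E`). At a point of depth `0`
all nearby points have depth `< 1 / 2`, only the first angle matters, and `al_loc`,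
`al_continuousAt`, `unang_fst` give the cocycle identity (`⌊u + k⌋ = ⌊u⌋ + k`). The same at depth
`l + 1` with the second angle.
-/

set_option autoImplicit false

open Complex Set Filter Topology

namespace Neuwirth

theorem Down_angle {G : Type*} [Group G] (τ : ℤ → G) (hτ : ∀ k m, τ (k + m) = τ k * τ m)
    {π : S3 → ℂ} (hπ : Continuous π) (f : ℝ) {p : S3} (hp : π p ≠ 0) :
    ∀ᶠ z in 𝓝 p, ∀ᶠ w in 𝓝 z, (τ ⌊al f (π p)⌋)⁻¹ * τ ⌊al (al f (π p)) (π w)⌋ =
      (τ ⌊al f (π p)⌋)⁻¹ * τ ⌊al (al f (π p)) (π z)⌋ *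
        ((τ ⌊al f (π z)⌋)⁻¹ * τ ⌊al (al f (π z)) (π w)⌋) := by
  have h1 := al_continuousAt (f := al f (π p)) (norm_pos_iff.2 hp)
  rw [norm_mul_exp_al] at h1
  filter_upwards [hπ.continuousAt.eventually h1] with z hz
  obtain ⟨k, h2, h3⟩ := al_loc hz.2 hz.1 (norm_mul_exp_al f (π z))
  filter_upwards [hπ.continuousAt.eventually h3] with w hw
  rw [hw, h2, Int.floor_add_intCast, Int.floor_add_intCast, add_comm _ k, add_comm _ k, hτ, hτ]
  group

namespace Nest

variable {N : Nest} (hN : N.Good)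
include hN

theorem down_loc {G : Type*} (L : ℂ × ℝ → ℂ × ℝ → G)
    (hL : ∀ x z k m, L (x + vec k m) (z + vec k m) = L x z) {x : ℂ × ℝ} (h0 : 0 < x.2)
    (h1 : x.2 < N.l + 1) : ∀ᶠ y in 𝓝 x, N.down L (N.E x) (N.E y) = L x y := by
  obtain ⟨k, m, h⟩ := E_eq hN (y := N.sec 0 (N.E x)) h0 h1 (rho_mem _).1 (rho_mem _).2
    (E_sec hN _ _).symm
  filter_upwards [sec_E hN h0 h1] with y hy
  rw [down, h, sec_add hN, hy, hL]

theorem Down_tendsto {St : Set (ℂ × ℝ)} (hinv : ∀ x k m, x ∈ St → x + vec k m ∈ St)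
    (hr : ∀ x ∈ St, 0 ≤ x.2 ∧ x.2 ≤ N.l + 1) {x : ℂ × ℝ} {p : S3} (h0 : 0 < N.rho p)
    (h1 : N.rho p < N.l + 1) (hc : ContinuousAt (N.sec x) p) :
    Tendsto (N.sec x) (𝓝[N.E '' St] p) (𝓝[St] (N.sec x p)) := by
  refine tendsto_nhdsWithin_iff.2 ⟨hc.mono_left nhdsWithin_le_nhds, ?_⟩
  filter_upwards [nhdsWithin_le_nhds (continuous_rho.continuousAt.eventually (Ioo_mem_nhds h0 h1)),
    self_mem_nhdsWithin] with q hq hq'
  refine (E_mem_image hN hinv hr (x := N.sec x q) hq.1 hq.2).1 ?_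
  rwa [E_sec hN]

theorem Down_fst (x : ℂ × ℝ) (p : S3) : N.a * (N.sec x p).1.re + N.b * (N.sec x p).1.im =
    al (N.a * x.1.re + N.b * x.1.im) p.1.1 := unang_fst hN _ _

theorem Down_snd (x : ℂ × ℝ) (p : S3) : N.c * (N.sec x p).1.re + N.d * (N.sec x p).1.im =
    al (N.c * x.1.re + N.d * x.1.im) p.1.2 := unang_snd hN _ _

theorem down_cocy {G : Type*} [Group G] (St : Set (ℂ × ℝ)) (L : ℂ × ℝ → ℂ × ℝ → G)
    (hinv : ∀ x k m, x ∈ St → x + vec k m ∈ St) (hr : ∀ x ∈ St, 0 ≤ x.2 ∧ x.2 ≤ N.l + 1)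
    (hL : ∀ x z k m, L (x + vec k m) (z + vec k m) = L x z) (hc : CocyOn St L)
    (τ : ℤ → G) (hτ : ∀ k m, τ (k + m) = τ k * τ m)
    (hbot : (∃ x ∈ St, x.2 = 0) → ∀ y z : ℂ × ℝ, 0 ≤ y.2 → y.2 < 1 / 2 → 0 ≤ z.2 → z.2 < 1 / 2 →
      L y z = (τ ⌊N.a * y.1.re + N.b * y.1.im⌋)⁻¹ * τ ⌊N.a * z.1.re + N.b * z.1.im⌋)
    (htop : (∃ x ∈ St, x.2 = N.l + 1) → ∀ y z : ℂ × ℝ, N.l + 1 / 2 < y.2 → y.2 ≤ N.l + 1 →
      N.l + 1 / 2 < z.2 → z.2 ≤ N.l + 1 →
      L y z = (τ ⌊N.c * y.1.re + N.d * y.1.im⌋)⁻¹ * τ ⌊N.c * z.1.re + N.d * z.1.im⌋) :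
    CocyOn (N.E '' St) (N.down L) := by
  have hself : ∀ p, N.sec (N.sec 0 p) p = N.sec 0 p := fun p => by
    have := sec_E_self hN (x := N.sec 0 p) (rho_mem _).1 (rho_mem _).2
    rwa [E_sec hN] at this
  refine ⟨fun p => by rw [down, hself, hc.1], ?_⟩
  rintro _ ⟨x, hx, rfl⟩
  have hρ := rho_E (hr x hx).1 (hr x hx).2
  have hl : (0 : ℝ) ≤ N.l := Nat.cast_nonneg _
  rcases (hr x hx).1.eq_or_lt with h0 | h0
  · have hb := hbot ⟨x, hx, h0.symm⟩
    have h2 : ∀ z w, N.rho z < 1 / 2 → N.rho w < 1 / 2 → N.down L z w = _ := fun z w hz hw =>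
      hb (N.sec 0 z) (N.sec (N.sec 0 z) w) (rho_mem z).1 hz (rho_mem w).1 hw
    simp only [Down_fst hN] at h2
    have h3 : N.rho (N.E x) < 1 / 2 := by rw [hρ, ← h0]; norm_num
    have h4 : (N.E x).1.1 ≠ 0 := by simp [E, ← h0]
    refine nhdsWithin_le_nhds ?_
    filter_upwards [Down_angle τ hτ (π := fun p => p.1.1) (by fun_prop) _ h4,
      eventually_eventually_nhds.2 (continuous_rho.continuousAt.eventually (gt_mem_nhds h3))]
      with z k1 k2
    refine nhdsWithin_le_nhds ?_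
    filter_upwards [k1, k2] with w k3 k4
    rw [h2 _ _ h3 k4, h2 _ _ h3 k2.self_of_nhds, h2 _ _ k2.self_of_nhds k4]
    exact k3
  rcases (hr x hx).2.eq_or_lt with h1 | h1
  · have hb := htop ⟨x, hx, h1⟩
    have h2 : ∀ z w, N.l + 1 / 2 < N.rho z → N.l + 1 / 2 < N.rho w → N.down L z w = _ :=
      fun z w hz hw => hb (N.sec 0 z) (N.sec (N.sec 0 z) w) hz (rho_mem z).2 hw (rho_mem w).2
    simp only [Down_snd hN] at h2
    have h3 : N.l + 1 / 2 < N.rho (N.E x) := by rw [hρ, h1]; linarith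
    have h4 : (N.E x).1.2 ≠ 0 := fun h => by
      rw [rho, h, norm_zero, Real.arcsin_zero, mul_zero] at h3
      linarith
    refine nhdsWithin_le_nhds ?_
    filter_upwards [Down_angle τ hτ (π := fun p => p.1.2) (by fun_prop) _ h4,
      eventually_eventually_nhds.2 (continuous_rho.continuousAt.eventually (lt_mem_nhds h3))]
      with z k1 k2
    refine nhdsWithin_le_nhds ?_
    filter_upwards [k1, k2] with w k3 k4
    rw [h2 _ _ h3 k4, h2 _ _ h3 k2.self_of_nhds, h2 _ _ k2.self_of_nhds k4]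
    exact k3
  rw [← hρ] at h0 h1
  generalize hp : N.E x = p at h0 h1
  have h2 : N.sec 0 p ∈ St := (E_mem_image hN hinv hr (x := N.sec 0 p) h0 h1).1
    ⟨x, hx, hp.trans (E_sec hN _ _).symm⟩
  have h3 := sec_continuousAt hN (x := N.sec 0 p) h0 h1
  rw [E_sec hN] at h3
  have h4 := Down_tendsto hN hinv hr h0 h1 h3.self_of_nhds
  rw [hself] at h4
  filter_upwards [h4.eventually (hc.2 _ h2), nhdsWithin_le_nhds h3,
    nhdsWithin_le_nhds (continuous_rho.continuousAt.eventually (Ioo_mem_nhds h0 h1))]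
    with z k1 k2 k3
  filter_upwards [(Down_tendsto hN hinv hr k3.1 k3.2 k2).eventually k1, nhdsWithin_le_nhds
    (k2.eventually (down_loc hN L hL (x := N.sec (N.sec 0 p) z) k3.1 k3.2))] with w k4 k5
  rw [E_sec hN, E_sec hN] at k5
  rw [k5]
  exact k4

/-- The local form of the holonomy of a pushed down cocycle, pulled back to a subset. -/
theorem hol_up {G : Type*} [Group G] (L : ℂ × ℝ → ℂ × ℝ → G)
    (hL : ∀ x z k m, L (x + vec k m) (z + vec k m) = L x z) {V : Set S3} (Φ : Hol ↥V G)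
    (hΦ : Φ.Loc fun p z => N.down L p z) {Z : Set (ℂ × ℝ)}
    (hZ : ∀ x ∈ Z, 0 < x.2 ∧ x.2 < N.l + 1) (f : C(↥Z, ↥V)) (hf : ∀ x, (f x : S3) = N.E x) :
    (Φ.comap f).Loc fun x y => L x y := by
  intro x
  obtain ⟨U, hU, h⟩ := hΦ (f x)
  refine ⟨_, inter_mem (f.continuous.continuousAt hU) (continuous_subtype_val.continuousAt.eventually
    (down_loc hN L hL (hZ x x.2).1 (hZ x x.2).2)), fun y z p hp => ?_⟩
  have h1 : N.down L (N.E x) (N.E y) = L x y := p.source ▸ (hp 0).2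
  have h2 : N.down L (N.E x) (N.E z) = L x z := p.target ▸ (hp 1).2
  refine (h _ _ (p.map f.continuous) fun s => (hp s).1).trans ?_
  simp only [hf, h1, h2]

end Nest

end Neuwirth
end

-- merged part: Pool.Agent.Work.MP_d5331a_gt.DetectA
section
/-!
General facts on holonomies: a holonomy that detects the fundamental group, gauges on simply
connected sets, products.
-/

set_option autoImplicit false

open Set Filter Topology CategoryTheory

namespace Neuwirth

theorem exists_univ (Y : Type) [TopologicalSpace Y] [PathConnectedSpace Y] (y₀ : Y) :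
    ∃ (M : Type) (_ : Group M) (Ψ : Hol Y M),
      ∀ (y : Y) (γ : Path y y), Ψ.H γ = 1 → γ.Homotopic (Path.refl y) := by
  let σ : ∀ a : Y, FundamentalGroupoid.mk y₀ ⟶ FundamentalGroupoid.mk a := fun a =>
    FundamentalGroupoid.fromPath (.mk (PathConnectedSpace.somePath y₀ a))
  let f : ∀ {a b : Y}, Path a b → (FundamentalGroupoid.mk a ⟶ FundamentalGroupoid.mk b) :=
    fun p => FundamentalGroupoid.fromPath (.mk p)
  have hf : ∀ {a b c : Y} (p : Path a b) (q : Path b c), f (p.trans q) = f p ≫ f q :=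
    fun p q => rfl
  refine ⟨(End (FundamentalGroupoid.mk y₀))ᵐᵒᵖ, inferInstance,
    ⟨fun {a b} p => MulOpposite.op (σ a ≫ f p ≫ Groupoid.inv (σ b)), fun p q => ?_,
      fun p q h => ?_⟩, fun y γ h => ?_⟩
  · rw [← MulOpposite.op_mul, End.mul_def, hf]
    simp
  · rw [show f p = f q from (FundamentalGroupoid.fromPath_eq_iff_homotopic p q).2 h]
  · have h1 : σ y ≫ f γ ≫ Groupoid.inv (σ y) = 𝟙 _ := MulOpposite.op_injective h
    have h2 : f γ = 𝟙 _ := by
      have := congrArg (fun g => Groupoid.inv (σ y) ≫ g ≫ σ y) h1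
      simpa using this
    exact (FundamentalGroupoid.fromPath_eq_iff_homotopic γ (Path.refl y)).1 h2

namespace Hol

variable {Z : Type*} [TopologicalSpace Z] {M G : Type*} [Group M] [Group G]

theorem exists_gauge (Φ : Hol Z M) {S : Set Z} (hS : S.Nonempty → IsSimplyConnected S) :
    ∃ g : Z → M, ∀ (a b : Z) (p : Path a b), (∀ s, p s ∈ S) → Φ.H p = (g a)⁻¹ * g b := by
  rcases S.eq_empty_or_nonempty with rfl | ⟨z₀, h₀⟩
  · exact ⟨fun _ => 1, fun a b p hp => (hp 0).elim⟩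
  have hS' := hS ⟨z₀, h₀⟩
  have h1 : ∀ z, ∃ x : M, z ∈ S → ∃ q : Path z₀ z, (∀ s, q s ∈ S) ∧ x = Φ.H q := fun z => by
    by_cases hz : z ∈ S
    · obtain ⟨q, hq⟩ := hS'.isPathConnected.joinedIn z₀ h₀ z hz
      exact ⟨_, fun _ => ⟨q, hq, rfl⟩⟩
    · exact ⟨1, fun h => (hz h).elim⟩
  choose g hg using h1
  refine ⟨g, fun a b p hp => ?_⟩
  obtain ⟨q, hq, e⟩ := hg a (p.source ▸ hp 0)
  obtain ⟨q', hq', e'⟩ := hg b (p.target ▸ hp 1)
  have h2 := homotopic_of_isSimplyConnected hS' (q.trans p) q' (fun s => by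
    have : q.trans p s ∈ range (q.trans p) := ⟨s, rfl⟩
    rw [Path.trans_range] at this
    rcases this with ⟨u, hu⟩ | ⟨u, hu⟩
    exacts [hu ▸ hq u, hu ▸ hp u]) hq'
  rw [e, e', ← Φ.homot _ _ h2, Φ.trans, inv_mul_cancel_left]

/-- The product of two holonomies, each changed by a gauge. -/
def pair (Φ : Hol Z M) (Ψ : Hol Z G) (g : Z → M) (h : Z → G) : Hol Z (M × G) where
  H {a b} p := (g a * Φ.H p * (g b)⁻¹, h a * Ψ.H p * (h b)⁻¹)
  trans p q := by simp [Φ.trans, Ψ.trans, mul_assoc]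
  homot p q e := by rw [Φ.homot p q e, Ψ.homot p q e]

end Hol

theorem isSimplyConnected_preimage_val {X : Type*} [TopologicalSpace X] {Y S : Set X}
    (h : S ⊆ Y) (hS : IsSimplyConnected S) : IsSimplyConnected (Subtype.val ⁻¹' S : Set ↥Y) := by
  rw [← IsEmbedding.subtypeVal.isSimplyConnected_image, Subtype.image_preimage_coe,
    inter_eq_right.2 h]
  exact hS

theorem exists_path_val {X : Type*} [TopologicalSpace X] {Y S : Set X} (h : S ⊆ Y) {a b : ↥Y}
    (hj : JoinedIn S a.1 b.1) : ∃ p : Path a b, ∀ s, (p s).1 ∈ S := by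
  obtain ⟨q, hq⟩ := hj
  exact ⟨⟨⟨fun s => ⟨q s, h (hq s)⟩, q.continuous.subtype_mk _⟩, Subtype.ext q.source,
    Subtype.ext q.target⟩, hq⟩

theorem two_sided {M : Type*} [Group M] {pa pb : Prop} {x xa xb c₁ c₂ : M} (h : x = xa * xb⁻¹)
    (ha : pa → xa = c₂) (ha' : ¬ pa → xa = c₁) (hb : pb → xb = c₂) (hb' : ¬ pb → xb = c₁) :
    ((pa ↔ pb) → x = 1) ∧ (¬ pa → pb → x = c₁ * c₂⁻¹) ∧ (pa → ¬ pb → x = (c₁ * c₂⁻¹)⁻¹) := by
  refine ⟨fun e => ?_, fun h1 h2 => ?_, fun h1 h2 => ?_⟩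
  · by_cases h1 : pa
    · rw [h, ha h1, hb (e.1 h1), mul_inv_cancel]
    · rw [h, ha' h1, hb' (mt e.2 h1), mul_inv_cancel]
  · rw [h, ha' h1, hb h2]
  · rw [h, ha h1, hb' h2, mul_inv_rev, inv_inv]

end Neuwirth
end
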