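import Pool.Agent.Work.MP_d5331a_gt.DetectA

-- merged part: Pool.Agent.Work.MP_d5331a_gt.Bump
section
/-!
Bumps, centres and twists.

Plan. `band_unique`: `sep` gives `β' = β + k` and `|k| < 4 ε ≤ 1`. All `_near` formulas follow
from it (a band within `ε` of `ζ` is within `3 ε` of `β`). Continuity: by `loc_model` the function
agrees near each point with an explicit continuous function (`ContinuousAt.congr`).
Translation: use the `_near` and `_far` formulas and `Good.inv`.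
-/

set_option autoImplicit false

open Complex Set

namespace Neuwirth

namespace Nest

variable {N : Nest} (hN : N.Good)
include hN

theorem eps_le : 4 * N.ε ≤ 1 := by
  have h1 := hN.ε_le 0 (Nat.zero_le _)
  have h2 : (1 : ℝ) ≤ N.n 0 := by exact_mod_cast hN.n_pos 0
  (refine le_of_not_gt fun h_nl => ?_; linarith only [h_nl, h1, h2, hN.ε_pos, mul_nonneg_of_nonpos_of_nonpos (Mathlib.Tactic.Linarith.sub_nonpos_of_le h2) (le_of_lt (Mathlib.Tactic.Linarith.sub_neg_of_lt h_nl))])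

theorem band_range {j : ℕ} {β : ℂ} (hβ : β ∈ N.B j) : 1 ≤ j ∧ j < N.l :=
  (hN.bands j).1 ⟨β, hβ⟩

theorem band_unique {j j' : ℕ} {β β' : ℂ} (hβ : β ∈ N.B j) (hβ' : β' ∈ N.B j')
    (h : ‖β - β'‖ < 4 * N.ε) : j = j' ∧ β = β' := by
  obtain ⟨h1, k, rfl⟩ := hN.sep j j' β hβ β' hβ' ((abs_im_le_norm (β - β')).trans_lt h)
  rw [sub_add_cancel_left, norm_neg, norm_intCast] at h
  have h2 : |k| < 1 := by exact_mod_cast h.trans_le (eps_le hN)
  rw [Int.abs_lt_one_iff.1 h2]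
  exact ⟨h1, by simp⟩

theorem bump_close {j j' : ℕ} {β β' ζ : ℂ} (hβ : β ∈ N.B j) (hβ' : β' ∈ N.B j')
    (h : ‖ζ - β‖ < 2 * N.ε) (h' : ‖ζ - β'‖ < N.ε) : j = j' ∧ β = β' := by
  refine band_unique hN hβ hβ' ?_
  have h1 := norm_sub_le_norm_sub_add_norm_sub β ζ β'
  rw [norm_sub_rev β ζ] at h1
  linarith [hN.ε_pos]

theorem bump_near {j : ℕ} {β ζ : ℂ} (hβ : β ∈ N.B j) (h : ‖ζ - β‖ < 2 * N.ε) :
    N.bump j ζ = max 0 (1 - ‖ζ - β‖ / N.ε) := by
  unfold bump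
  split_ifs with h'
  · rw [← (bump_close hN hβ h'.choose_spec.1 h h'.choose_spec.2).2, max_eq_right]
    have h1 := h'.choose_spec.2
    rw [← (bump_close hN hβ h'.choose_spec.1 h h1).2] at h1
    exact sub_nonneg.2 ((div_le_one hN.ε_pos).2 h1.le)
  · rw [max_eq_left]
    exact sub_nonpos.2 ((one_le_div hN.ε_pos).2 (not_lt.1 fun h1 => h' ⟨β, hβ, h1⟩))

theorem bump_other {j j' : ℕ} {β ζ : ℂ} (hβ : β ∈ N.B j) (h : ‖ζ - β‖ < 2 * N.ε) (hj : j' ≠ j) :
    N.bump j' ζ = 0 := by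
  refine dif_neg ?_
  rintro ⟨β', hβ', h'⟩
  exact hj (bump_close hN hβ hβ' h h').1.symm

theorem ctr_near {j : ℕ} {β ζ : ℂ} (hβ : β ∈ N.B j) (h : ‖ζ - β‖ < N.ε) : N.ctr ζ = β := by
  have h' : ∃ β, (∃ j, β ∈ N.B j) ∧ ‖ζ - β‖ < N.ε := ⟨β, ⟨j, hβ⟩, h⟩
  obtain ⟨⟨j', h1⟩, h2⟩ := h'.choose_spec
  rw [ctr, dif_pos h']
  exact (bump_close hN hβ h1 (by linarith [hN.ε_pos]) h2).2.symm

theorem tw_near {j : ℕ} {β ζ : ℂ} (hβ : β ∈ N.B j) (h : ‖ζ - β‖ < 2 * N.ε) (i : ℕ) (s : ℝ) :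
    N.tw i s ζ = β + (ζ - β) * exp (((Real.pi * s *
      (N.e (i - 1) * N.bump (i - 1) ζ - N.e i * N.bump i ζ) : ℝ) : ℂ) * I) := by
  rcases lt_or_ge ‖ζ - β‖ N.ε with h1 | h1
  · rw [tw, ctr_near hN hβ h1]
  · have h2 : ∀ j', N.bump j' ζ = 0 := by
      intro j'
      rcases eq_or_ne j' j with rfl | hj
      · rw [bump_near hN hβ h]
        exact max_eq_left (sub_nonpos.2 ((one_le_div hN.ε_pos).2 h1))
      · exact bump_other hN hβ h hj
    simp [tw, h2]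

omit hN in
theorem bump_far {j : ℕ} {ζ : ℂ} (h : ∀ β ∈ N.B j, N.ε ≤ ‖ζ - β‖) : N.bump j ζ = 0 := by
  refine dif_neg ?_
  rintro ⟨β, hβ, h'⟩
  exact h'.not_ge (h β hβ)

omit hN in
theorem ctr_far {ζ : ℂ} (h : ∀ j, ∀ β ∈ N.B j, N.ε ≤ ‖ζ - β‖) : N.ctr ζ = ζ := by
  refine dif_neg ?_
  rintro ⟨β, ⟨j, hβ⟩, h'⟩
  exact h'.not_ge (h j β hβ)

omit hN in
/-- The twist of sheet `i` only sees the bands of the two adjacent slabs. -/
theorem tw_far {i : ℕ} {ζ : ℂ} (h : N.bump (i - 1) ζ = 0) (h' : N.bump i ζ = 0) (s : ℝ) :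
    N.tw i s ζ = ζ := by
  simp [tw, h, h']

omit hN in
theorem exists_of_bump_ne {j : ℕ} {ζ : ℂ} (h : N.bump j ζ ≠ 0) :
    ∃ β ∈ N.B j, ‖ζ - β‖ < N.ε := by
  by_contra h'
  exact h (bump_far fun β hβ => not_lt.1 fun h1 => h' ⟨β, hβ, h1⟩)

theorem bump_nonneg (j : ℕ) (ζ : ℂ) : 0 ≤ N.bump j ζ := by
  unfold bump
  split_ifs with h
  · exact sub_nonneg.2 ((div_le_one hN.ε_pos).2 h.choose_spec.2.le)
  · exact le_rfl

theorem bump_le_one (j : ℕ) (ζ : ℂ) : N.bump j ζ ≤ 1 := by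
  unfold bump
  split_ifs with h
  · exact sub_le_self _ (div_nonneg (norm_nonneg _) hN.ε_pos.le)
  · exact zero_le_one

theorem bump_zero (ζ : ℂ) : N.bump 0 ζ = 0 := by
  exact bump_far fun β hβ => absurd (band_range hN hβ).1 (by omega)

theorem bump_of_le {j : ℕ} (hj : N.l ≤ j) (ζ : ℂ) : N.bump j ζ = 0 := by
  exact bump_far fun β hβ => absurd (band_range hN hβ).2 (by omega)

/-- At most one bump is non-zero at a point. -/
theorem bump_eq_zero_or {j j' : ℕ} (hj : j ≠ j') (ζ : ℂ) : N.bump j ζ = 0 ∨ N.bump j' ζ = 0 := by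
  refine or_iff_not_imp_left.2 fun h => ?_
  obtain ⟨β, hβ, h1⟩ := exists_of_bump_ne h
  exact bump_other hN hβ (by linarith [hN.ε_pos]) hj.symm

omit hN in
theorem loc_model (ζ₀ : ℂ) : (∃ j, ∃ β ∈ N.B j, ‖ζ₀ - β‖ < 2 * N.ε) ∨
    ∀ ζ, ‖ζ - ζ₀‖ < N.ε → ∀ j, ∀ β ∈ N.B j, N.ε ≤ ‖ζ - β‖ := by
  refine or_iff_not_imp_left.2 fun h ζ hζ j β hβ => ?_
  have h1 : 2 * N.ε ≤ ‖ζ₀ - β‖ := not_lt.1 fun h1 => h ⟨j, β, hβ, h1⟩
  have h2 := norm_sub_le_norm_sub_add_norm_sub ζ₀ ζ β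
  rw [norm_sub_rev ζ₀ ζ] at h2
  linarith

theorem bump_cases (ζ : ℂ) : (∃ j, ∃ β ∈ N.B j, ‖ζ - β‖ < 2 * N.ε) ∨
    ∀ j, ∀ β ∈ N.B j, N.ε ≤ ‖ζ - β‖ :=
  (loc_model ζ).imp_right fun h => h ζ (by simpa using hN.ε_pos)

omit hN in
theorem bump_ev {β ζ₀ : ℂ} {r : ℝ} (h : ‖ζ₀ - β‖ < r) : ∀ᶠ ζ in nhds ζ₀, ‖ζ - β‖ < r :=
  (isOpen_lt (by fun_prop) continuous_const).mem_nhds h

theorem bump_norm_tw {j : ℕ} {β ζ : ℂ} (hβ : β ∈ N.B j) (h : ‖ζ - β‖ < 2 * N.ε) (i : ℕ) (s : ℝ) :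
    ‖N.tw i s ζ - β‖ = ‖ζ - β‖ := by
  rw [tw_near hN hβ h, add_sub_cancel_left, norm_mul, norm_exp_ofReal_mul_I, mul_one]

theorem continuous_bump (j : ℕ) : Continuous (N.bump j) := by
  refine continuous_iff_continuousAt.2 fun ζ₀ => ?_
  rcases loc_model (N := N) ζ₀ with ⟨j', β, hβ, h⟩ | h
  · rcases eq_or_ne j j' with rfl | hj
    · have h1 : Continuous fun ζ : ℂ => max 0 (1 - ‖ζ - β‖ / N.ε) := by fun_prop
      exact h1.continuousAt.congr ((bump_ev h).mono fun ζ hζ => (bump_near hN hβ hζ).symm)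
    · exact continuousAt_const.congr ((bump_ev h).mono fun ζ hζ => (bump_other hN hβ hζ hj).symm)
  · exact continuousAt_const.congr ((bump_ev (β := ζ₀) (by simpa using hN.ε_pos)).mono
      fun ζ hζ => (bump_far (h ζ hζ j)).symm)

theorem continuous_tw (i : ℕ) (s : ℝ) : Continuous (N.tw i s) := by
  refine continuous_iff_continuousAt.2 fun ζ₀ => ?_
  rcases loc_model (N := N) ζ₀ with ⟨j, β, hβ, h⟩ | h
  · have h2 := continuous_bump hN (i - 1)
    have h3 := continuous_bump hN i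
    have h1 : Continuous fun ζ : ℂ => β + (ζ - β) * exp (((Real.pi * s *
      (N.e (i - 1) * N.bump (i - 1) ζ - N.e i * N.bump i ζ) : ℝ) : ℂ) * I) := by fun_prop
    exact h1.continuousAt.congr ((bump_ev h).mono fun ζ hζ => (tw_near hN hβ hζ i s).symm)
  · exact continuousAt_id.congr ((bump_ev (β := ζ₀) (by simpa using hN.ε_pos)).mono
      fun ζ hζ => (tw_far (bump_far (h ζ hζ _)) (bump_far (h ζ hζ _)) s).symm)

theorem continuous_lin (i : ℕ) : Continuous (N.lin i) := by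
  have h1 := continuous_tw hN i 1
  exact continuous_const.mul ((continuous_re.comp h1).sub ((hN.cont i).comp (continuous_im.comp h1)))

theorem continuous_hgt (i : ℕ) : Continuous (N.hgt i) := by
  have h2 := continuous_bump hN (i - 1)
  have h3 := continuous_bump hN i
  unfold hgt
  fun_prop

theorem bump_tw (j i : ℕ) (s : ℝ) (ζ : ℂ) : N.bump j (N.tw i s ζ) = N.bump j ζ := by
  rcases bump_cases hN ζ with ⟨j', β, hβ, h⟩ | h
  · have h1 := bump_norm_tw hN hβ h i s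
    rcases eq_or_ne j j' with rfl | hj
    · rw [bump_near hN hβ h, bump_near hN hβ (h1.trans_lt h), h1]
    · rw [bump_other hN hβ h hj, bump_other hN hβ (h1.trans_lt h) hj]
  · rw [tw_far (bump_far (h _)) (bump_far (h _))]

theorem hgt_tw (j i : ℕ) (s : ℝ) (ζ : ℂ) : N.hgt j (N.tw i s ζ) = N.hgt j ζ := by
  simp only [hgt, bump_tw hN]

theorem tw_tw (i : ℕ) (s : ℝ) (ζ : ℂ) : N.tw i (-s) (N.tw i s ζ) = ζ := by
  rcases bump_cases hN ζ with ⟨j', β, hβ, h⟩ | h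
  · rw [tw_near hN hβ ((bump_norm_tw hN hβ h i s).trans_lt h), bump_tw hN, bump_tw hN,
      tw_near hN hβ h, add_sub_cancel_left, mul_assoc (ζ - β), ← exp_add, ← add_mul, ← ofReal_add,
      mul_neg, neg_mul, add_neg_cancel]
    simp
  · rw [tw_far (bump_far (h _)) (bump_far (h _)) s, tw_far (bump_far (h _)) (bump_far (h _))]

/-- The twist as a homeomorphism. -/
noncomputable def twH (i : ℕ) : ℂ ≃ₜ ℂ where
  toFun := N.tw i 1
  invFun := N.tw i (-1)
  left_inv := tw_tw hN i 1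
  right_inv ζ := by simpa using tw_tw hN i (-1) ζ
  continuous_toFun := continuous_tw hN i 1
  continuous_invFun := continuous_tw hN i (-1)

theorem α_add_int (i : ℕ) (t : ℝ) (m : ℤ) :
    N.α i (t + m) = N.α i t + m * (N.q i / N.n i) := by
  induction m using Int.induction_on with
  | zero => simp
  | succ m ih =>
    push_cast at ih ⊢
    rw [← add_assoc, hN.per, ih]
    ring
  | pred m ih =>
    have h := hN.per i (t + (-(m : ℝ) - 1))
    push_cast at ih ⊢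
    rw [show t + (-(m : ℝ) - 1) + 1 = t + -(m : ℝ) by ring, ih] at h
    linarith only [h]

theorem band_add {j : ℕ} {β : ℂ} (k m : ℤ) : β + (k + m * I) ∈ N.B j ↔ β ∈ N.B j := by
  refine ⟨fun h => ?_, fun h => add_assoc β _ _ ▸ hN.inv j β h k m⟩
  convert hN.inv j _ h (-k) (-m) using 1
  push_cast
  ring

theorem bump_far_add {ζ : ℂ} (h : ∀ j, ∀ β ∈ N.B j, N.ε ≤ ‖ζ - β‖) (k m : ℤ) :
    ∀ j, ∀ β ∈ N.B j, N.ε ≤ ‖ζ + (k + m * I) - β‖ := by
  intro j β hβ
  have h1 := h j (β - (k + m * I)) ((band_add hN k m).1 (by rwa [sub_add_cancel]))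
  rwa [← sub_add, ← add_sub_right_comm] at h1

omit hN in
theorem bump_re (ζ : ℂ) (k m : ℤ) : (ζ + (k + m * I)).re = ζ.re + k := by simp

omit hN in
theorem bump_im (ζ : ℂ) (k m : ℤ) : (ζ + (k + m * I)).im = ζ.im + m := by simp

theorem bump_add (j : ℕ) (ζ : ℂ) (k m : ℤ) : N.bump j (ζ + (k + m * I)) = N.bump j ζ := by
  rcases bump_cases hN ζ with ⟨j', β, hβ, h⟩ | h
  · have h1 := (band_add hN k m).2 hβ
    have h2 := congrArg norm (add_sub_add_right_eq_sub ζ β (k + m * I))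
    rcases eq_or_ne j j' with rfl | hj
    · rw [bump_near hN hβ h, bump_near hN h1 (h2.trans_lt h), h2]
    · rw [bump_other hN hβ h hj, bump_other hN h1 (h2.trans_lt h) hj]
  · rw [bump_far (h j), bump_far (bump_far_add hN h k m j)]

theorem ctr_add (ζ : ℂ) (k m : ℤ) : N.ctr (ζ + (k + m * I)) = N.ctr ζ + (k + m * I) := by
  by_cases h : ∃ j, ∃ β ∈ N.B j, ‖ζ - β‖ < N.ε
  · obtain ⟨j, β, hβ, h⟩ := h
    rw [ctr_near hN hβ h, ctr_near hN ((band_add hN k m).2 hβ) (by rwa [add_sub_add_right_eq_sub])]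
  · have h' : ∀ j, ∀ β ∈ N.B j, N.ε ≤ ‖ζ - β‖ := fun j β hβ => not_lt.1 fun h1 => h ⟨j, β, hβ, h1⟩
    rw [ctr_far h', ctr_far (bump_far_add hN h' k m)]

theorem tw_add (i : ℕ) (s : ℝ) (ζ : ℂ) (k m : ℤ) :
    N.tw i s (ζ + (k + m * I)) = N.tw i s ζ + (k + m * I) := by
  rw [tw, tw, ctr_add hN, bump_add hN, bump_add hN]
  ring

theorem lin_add (i : ℕ) (ζ : ℂ) (k m : ℤ) :
    N.lin i (ζ + (k + m * I)) = N.lin i ζ + ((N.n i * k - N.q i * m : ℤ) : ℝ) := by
  have h : (N.n i : ℝ) ≠ 0 := by exact_mod_cast (hN.n_pos i).ne'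
  rw [lin, lin, tw_add hN, bump_re, bump_im, α_add_int hN]
  push_cast
  field_simp
  ring

theorem hgt_add (i : ℕ) (ζ : ℂ) (k m : ℤ) : N.hgt i (ζ + (k + m * I)) = N.hgt i ζ := by
  simp only [hgt, bump_add hN]

theorem ind_add (i : ℕ) (β : ℂ) (k m : ℤ) :
    N.ind i (β + (k + m * I)) = N.ind i β + (N.n i * k - N.q i * m) := by
  have h : (N.n i : ℝ) ≠ 0 := by exact_mod_cast (hN.n_pos i).ne'
  rw [ind, ind, bump_re, bump_im, α_add_int hN, ← Int.floor_add_intCast]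
  congr 1
  push_cast
  field_simp
  ring

theorem ind_eq {i j : ℕ} {β : ℂ} (hβ : β ∈ N.B j) (hi : i = j ∨ i = j + 1) :
    (N.ind i β : ℝ) = N.n i * (β.re - N.α i β.im) := by
  obtain ⟨k, hk⟩ : N.On i β := by
    rcases hi with rfl | rfl
    exacts [(hN.align _ β hβ).1, (hN.align _ β hβ).2.1]
  rw [ind, hk, Int.floor_intCast]

theorem lin_near {i j : ℕ} {β ζ : ℂ} (hβ : β ∈ N.B j) (hi : i = j ∨ i = j + 1)
    (h : ‖ζ - β‖ < 2 * N.ε) :
    N.lin i ζ = N.ind i β + N.n i * ((ζ - β) * exp (((Real.pi *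
      (N.e (i - 1) * N.bump (i - 1) ζ - N.e i * N.bump i ζ) : ℝ) : ℂ) * I)).re := by
  have h1 : |(N.tw i 1 ζ).im - β.im| ≤ 2 * N.ε :=
    (abs_im_le_norm (N.tw i 1 ζ - β)).trans ((bump_norm_tw hN hβ h i 1).trans_lt h).le
  have h2 : N.α i (N.tw i 1 ζ).im = N.α i β.im := by
    rcases hi with rfl | rfl
    exacts [((hN.align _ β hβ).2.2 _ h1).1, ((hN.align _ β hβ).2.2 _ h1).2]
  rw [lin, h2, ind_eq hN hβ hi, tw_near hN hβ h, add_re, mul_one]
  ring

theorem bump_cos {i : ℕ} (hi : 1 ≤ i) {ζ : ℂ} (h1 : N.bump i ζ ≤ 1 / 2)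
    (h2 : N.bump (i - 1) ζ ≤ 1 / 2) :
    0 ≤ Real.cos (Real.pi * (N.e (i - 1) * N.bump (i - 1) ζ - N.e i * N.bump i ζ)) := by
  have h3 := bump_nonneg hN i ζ
  have h4 := bump_nonneg hN (i - 1) ζ
  have h5 : |N.e (i - 1) * N.bump (i - 1) ζ - N.e i * N.bump i ζ| ≤ 1 / 2 := by
    rw [abs_le]
    rcases bump_eq_zero_or hN (j := i) (j' := i - 1) (by omega) ζ with h | h <;>
      rcases hN.sign i with h6 | h6 <;> rcases hN.sign (i - 1) with h7 | h7 <;>
      rw [h6, h7] <;> constructor <;> linarith only [h4, h, h2, h3, h1]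
  rw [abs_le] at h5
  refine Real.cos_nonneg_of_neg_pi_div_two_le_of_le ?_ ?_ <;> linarith only [h5, Real.pi_pos, mul_nonneg_of_nonpos_of_nonpos (Mathlib.Tactic.Linarith.sub_nonpos_of_le h5.left) (le_of_lt (Mathlib.Tactic.Linarith.sub_neg_of_lt Real.pi_pos)), mul_nonneg_of_nonpos_of_nonpos (Mathlib.Tactic.Linarith.sub_nonpos_of_le h5.right) (le_of_lt (Mathlib.Tactic.Linarith.sub_neg_of_lt Real.pi_pos))]

omit hN in
theorem bump_between {K k : ℤ} {r c : ℝ} (hr : |r| < 1) (h0 : 0 ≤ c) (h1 : c ≤ 1)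
    (h2 : K ≤ k + r) (h3 : k + r < K + 1) : K ≤ k + r * c ∧ k + r * c ≤ K + 1 := by
  rw [abs_lt] at hr
  have h4 : K < k + 1 := by exact_mod_cast (by linarith : (K : ℝ) < k + 1)
  have h5 : k < K + 1 + 1 := by exact_mod_cast (by linarith : (k : ℝ) < K + 1 + 1)
  have h6 : (K : ℝ) ≤ k := by exact_mod_cast Int.lt_add_one_iff.1 h4
  have h7 : (k : ℝ) ≤ K + 1 := by exact_mod_cast Int.lt_add_one_iff.1 h5
  constructor <;> linarith only [h0, h2, h1, h6, h3, h7, mul_nonneg_of_nonpos_of_nonpos (Mathlib.Tactic.Linarith.sub_nonpos_of_le h0) (Mathlib.Tactic.Linarith.sub_nonpos_of_le h2), mul_nonneg_of_nonpos_of_nonpos (Mathlib.Tactic.Linarith.sub_nonpos_of_le h1) (Mathlib.Tactic.Linarith.sub_nonpos_of_le h6), mul_nonneg_of_nonpos_of_nonpos (Mathlib.Tactic.Linarith.sub_nonpos_of_le h0) (le_of_lt (Mathlib.Tactic.Linarith.sub_neg_of_lt h3)), mul_nonneg_of_nonpos_of_nonpos (Mathlib.Tactic.Linarith.sub_nonpos_of_le h1) (Mathlib.Tactic.Linarith.sub_nonpos_of_le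 h7)]

/-- At the time of a band, the gap of a point determines its position between the translates of
the band. -/
theorem floor_re_eq {i j : ℕ} {β : ℂ} (hβ : β ∈ N.B j) (hi : i = j ∨ i = j + 1) {a : ℤ}
    {x : ℂ × ℝ} (hx : x ∈ N.Gap i a) (ht : x.1.im = β.im) :
    ⌊x.1.re - β.re⌋ = (a - N.ind i β) / (N.n i : ℤ) := by
  obtain ⟨⟨hb1, hb2, -⟩, h1, h2⟩ := hx
  have hn : (0 : ℝ) < N.n i := by exact_mod_cast hN.n_pos i
  have hK1 := Int.floor_le (x.1.re - β.re)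
  have hK2 := Int.lt_floor_add_one (x.1.re - β.re)
  set K := ⌊x.1.re - β.re⌋
  obtain ⟨u, h3, h4, h5⟩ : ∃ u : ℝ, N.lin i x.1 = N.ind i β + N.n i * u ∧ K ≤ u ∧ u ≤ K + 1 := by
    rcases bump_cases hN x.1 with ⟨j', β', hβ', h⟩ | h
    · obtain ⟨rfl, k, rfl⟩ := hN.sep j j' β hβ β' hβ' (by
        rw [← ht]
        exact (abs_im_le_norm (x.1 - β')).trans_lt (by linarith only [h, hN, hN.ε_pos]))
      have h3 := ind_add hN i β k 0
      have h4 := (abs_re_le_norm _).trans_lt h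
      have h5 := lin_near hN hβ' hi h
      have h6 := bump_cos hN (i := i) (by have := band_range hN hβ; omega) hb1 hb2
      simp only [Int.cast_zero, zero_mul, add_zero, mul_zero, sub_zero] at h3
      rw [h3, mul_re, exp_ofReal_mul_I_re, sub_im, add_im, intCast_im, add_zero, ht, sub_self,
        zero_mul, sub_zero] at h5
      rw [sub_re, add_re, intCast_re] at h4 h5
      refine ⟨k + (x.1.re - (β.re + k)) * Real.cos _, h5.trans (by push_cast; ring), ?_⟩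
      exact bump_between (r := x.1.re - (β.re + k)) (h4.trans_le (by linarith only [h1, h2, hN, eps_le hN, hN.ε_pos]))
        h6 (Real.cos_le_one _) (by linarith only [hK1]) (by linarith only [hK2])
    · refine ⟨x.1.re - β.re, ?_, hK1, hK2.le⟩
      rw [lin, tw_far (bump_far (h _)) (bump_far (h _)), ind_eq hN hβ hi, ht]
      ring
  have hn' : (0 : ℤ) < N.n i := by exact_mod_cast hN.n_pos i
  have h6 : ((K * N.n i : ℤ) : ℝ) < ((a - N.ind i β + 1 : ℤ) : ℝ) := by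
    push_cast
    linarith only [h2, h3, h4, mul_nonneg_of_nonpos_of_nonpos (Mathlib.Tactic.Linarith.sub_nonpos_of_le (Mathlib.Tactic.Linarith.natCast_nonneg ℝ (N.n i))) (Mathlib.Tactic.Linarith.sub_nonpos_of_le h4)]
  have h7 : ((a - N.ind i β : ℤ) : ℝ) < (((K + 1) * N.n i : ℤ) : ℝ) := by
    push_cast
    linarith only [h1, h3, h5, mul_nonneg_of_nonpos_of_nonpos (Mathlib.Tactic.Linarith.sub_nonpos_of_le (Mathlib.Tactic.Linarith.natCast_nonneg ℝ (N.n i))) (Mathlib.Tactic.Linarith.sub_nonpos_of_le h5)]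
  have h8 := (Int.le_ediv_iff_mul_le hn').2 (Int.lt_add_one_iff.1 (Int.cast_lt.1 h6))
  have h9 := (Int.ediv_lt_iff_lt_mul hn').2 (Int.cast_lt.1 h7)
  omega

end Nest

end Neuwirth
end

-- merged part: Pool.Agent.Work.MP_d5331a_gt.Sheets
section
/-!
Sheets, regions, gaps and strips.

Plan. Near a band `β` of slab `j` put `r = ‖ζ - β‖`, `s = ρ - j - 1 / 2`. For `ε / 2 ≤ r ≤ ε`
the bump is `1 - r / ε`; sheet `j` is `s = 1 / 2 - r / ε ≤ 0` and sheet `j + 1` is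
`s = r / ε - 1 / 2 ≥ 0`, so both are `r = ε / 2 + ε |s|`. On sheet `j` the twist multiplies
`ζ - β` by `exp (-i e π (1 / 2 + s))`, on sheet `j + 1` by `exp (i e π (1 / 2 - s))`; with
`w = (ζ - β) exp (-i e π s)` the real part of the twisted vector is `e * w.im` on sheet `j` and
`-e * w.im` on sheet `j + 1` (`lin_near`); its absolute value times `n` is at most `1 / 4`
(`Good.ε_le`). At most one bump is non-zero (`bump_eq_zero_or`), `hgt i ≤ hgt (i + 1)`, with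
equality only when `bump i ≥ 1 / 2`, and `|hgt i - i| ≤ 1 / 2`.
-/

set_option autoImplicit false

open Complex Set Filter Topology

namespace Neuwirth

theorem vec_add (x : ℂ × ℝ) (k m : ℤ) : x + vec k m = (x.1 + (k + m * I), x.2) := by
  simp [vec, Prod.ext_iff]

namespace Nest

variable {N : Nest} (hN : N.Good)
include hN

omit hN in
theorem sheets_exp {e : ℝ} (he : e = 1 ∨ e = -1) (θ : ℝ) (v : ℂ) :
    (v * exp (((θ + e * (Real.pi / 2) : ℝ) : ℂ) * I)).re = -(e * (v * exp ((θ : ℂ) * I)).im) := by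
  have h : exp (((e * (Real.pi / 2) : ℝ) : ℂ) * I) = e * I := by
    rw [exp_mul_I, ← ofReal_cos, ← ofReal_sin]
    rcases he with rfl | rfl <;> simp
  rw [ofReal_add, add_mul, exp_add, h, ← mul_assoc, ← mul_assoc, mul_I_re, mul_comm _ (e : ℂ),
    im_ofReal_mul]

omit hN in
theorem sheets_norm (v : ℂ) (θ : ℝ) : ‖v * exp ((θ : ℂ) * I)‖ = ‖v‖ := by
  rw [norm_mul, norm_exp_ofReal_mul_I, mul_one]

omit hN in
theorem sheets_int {a : ℤ} {t : ℝ} (h : |t| < 1) : (∃ k : ℤ, (a : ℝ) + t = k) ↔ t = 0 := by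
  refine ⟨fun ⟨k, hk⟩ => ?_, fun h0 => ⟨a, by rw [h0, add_zero]⟩⟩
  have e : t = ((k - a : ℤ) : ℝ) := by
    push_cast
    linarith only [hk]
  rw [e, ← Int.cast_abs, ← Int.cast_one, Int.cast_lt, Int.abs_lt_one_iff] at h
  rw [e, h, Int.cast_zero]

omit hN in
theorem sheets_nat {i j : ℕ} (h : |(i : ℝ) - j - 1 / 2| < 1 / 2) : False := by
  obtain ⟨h1, h2⟩ := abs_lt.1 h
  have h3 : j < i := by exact_mod_cast (by linarith only [h1] : (j : ℝ) < i)
  have h4 : i < j + 1 := by exact_mod_cast (by linarith only [h2] : (i : ℝ) < j + 1)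
  omega

omit hN in
theorem sheets_sh {ρ : ℝ} {i : ℕ} (h1 : (i : ℝ) ≤ ρ + 1 / 2) (h2 : ρ + 1 / 2 < i + 1) : sh ρ = i :=
  (Nat.floor_eq_iff ((Nat.cast_nonneg i).trans h1)).2 ⟨h1, h2⟩

omit hN in
theorem sheets_iff {i : ℕ} {x : ℂ × ℝ} : x ∈ N.Sheet i ↔ N.bump i x.1 ≤ 1 / 2 ∧
    N.bump (i - 1) x.1 ≤ 1 / 2 ∧ x.2 = i + N.bump i x.1 - N.bump (i - 1) x.1 := by
  refine and_congr_right fun h1 => and_congr_right fun h2 => ?_
  rw [hgt, min_eq_left h1, min_eq_left h2]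

omit hN in
theorem sheets_plain {i : ℕ} {x : ℂ × ℝ} (h : N.bump (i - 1) x.1 = 0) (h' : N.bump i x.1 = 0) :
    x ∈ N.Sheet i ↔ x.2 = i := by
  rw [sheets_iff, h, h']
  norm_num

theorem sheets_near {j : ℕ} {β ζ : ℂ} (hβ : β ∈ N.B j) (h : ‖ζ - β‖ ≤ N.ε) :
    N.bump j ζ = 1 - ‖ζ - β‖ / N.ε ∧ N.bump (j - 1) ζ = 0 ∧ N.bump (j + 1) ζ = 0 := by
  have h0 := hN.ε_pos
  have h1 := (band_range hN hβ).1
  have h2 : ‖ζ - β‖ < 2 * N.ε := by linarith only [h, h0]
  refine ⟨?_, bump_other hN hβ h2 (by omega), bump_other hN hβ h2 (by omega)⟩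
  rw [bump_near hN hβ h2, max_eq_right (sub_nonneg.2 (div_le_one_of_le₀ h h0.le))]

theorem sheets_outer {j : ℕ} {β : ℂ} (hβ : β ∈ N.B j) {x : ℂ × ℝ} (h : ‖x.1 - β‖ ≤ N.ε) :
    x ∈ N.Sheet j ↔ x.2 ≤ j + 1 / 2 ∧ ‖x.1 - β‖ = N.ε / 2 + N.ε * |x.2 - j - 1 / 2| := by
  obtain ⟨h1, h2, -⟩ := sheets_near hN hβ h
  have h0 := hN.ε_pos
  have e : ‖x.1 - β‖ = N.ε * (‖x.1 - β‖ / N.ε) := by field_simp
  rw [sheets_iff, h1, h2]
  generalize ‖x.1 - β‖ / N.ε = t at e
  rw [e]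
  constructor
  · rintro ⟨a1, -, a2⟩
    refine ⟨by linarith only [a1, a2], ?_⟩
    rw [abs_of_nonpos (by linarith only [a1, a2]), a2]
    ring
  · rintro ⟨a1, a2⟩
    rw [abs_of_nonpos (by linarith only [a1])] at a2
    have a3 : t = 1 / 2 - (x.2 - j - 1 / 2) := mul_left_cancel₀ h0.ne' (by linarith only [a2])
    exact ⟨by linarith only [a1, a3], by norm_num, by linarith only [a3]⟩

theorem sheets_inner {j : ℕ} {β : ℂ} (hβ : β ∈ N.B j) {x : ℂ × ℝ} (h : ‖x.1 - β‖ ≤ N.ε) :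
    x ∈ N.Sheet (j + 1) ↔ j + 1 / 2 ≤ x.2 ∧ ‖x.1 - β‖ = N.ε / 2 + N.ε * |x.2 - j - 1 / 2| := by
  obtain ⟨h1, -, h2⟩ := sheets_near hN hβ h
  have h0 := hN.ε_pos
  have e : ‖x.1 - β‖ = N.ε * (‖x.1 - β‖ / N.ε) := by field_simp
  rw [sheets_iff, Nat.add_sub_cancel, h1, h2]
  generalize ‖x.1 - β‖ / N.ε = t at e
  rw [e]
  push_cast
  constructor
  · rintro ⟨-, a1, a2⟩
    refine ⟨by linarith only [a1, a2], ?_⟩
    rw [abs_of_nonneg (by linarith only [a1, a2]), a2]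
    ring
  · rintro ⟨a1, a2⟩
    rw [abs_of_nonneg (by linarith only [a1])] at a2
    have a3 : t = 1 / 2 + (x.2 - j - 1 / 2) := mul_left_cancel₀ h0.ne' (by linarith only [a2])
    exact ⟨by norm_num, by linarith only [a1, a3], by linarith only [a3]⟩

theorem sheets_lin_outer {j : ℕ} {β : ℂ} (hβ : β ∈ N.B j) {x : ℂ × ℝ} (h : ‖x.1 - β‖ ≤ N.ε)
    (hx : x ∈ N.Sheet j) : N.lin j x.1 = N.ind j β + N.n j * (N.e j *
      ((x.1 - β) * exp (((-(N.e j * Real.pi * (x.2 - j - 1 / 2)) : ℝ) : ℂ) * I)).im) := by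
  have h2 := (sheets_near hN hβ h).2.1
  have h3 := (sheets_iff.1 hx).2.2
  have e : Real.pi * (N.e (j - 1) * N.bump (j - 1) x.1 - N.e j * N.bump j x.1) =
      -(N.e j * Real.pi * (x.2 - j - 1 / 2)) + -N.e j * (Real.pi / 2) := by
    rw [h3, h2]
    ring
  have he : -N.e j = 1 ∨ -N.e j = -1 := by rcases hN.sign j with h | h <;> simp [h]
  rw [lin_near hN hβ (Or.inl rfl) (by linarith only [h, hN, hN.ε_pos]), e, sheets_exp he, neg_mul, neg_neg]

theorem sheets_lin_inner {j : ℕ} {β : ℂ} (hβ : β ∈ N.B j) {x : ℂ × ℝ} (h : ‖x.1 - β‖ ≤ N.ε)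
    (hx : x ∈ N.Sheet (j + 1)) : N.lin (j + 1) x.1 = N.ind (j + 1) β + N.n (j + 1) * -(N.e j *
      ((x.1 - β) * exp (((-(N.e j * Real.pi * (x.2 - j - 1 / 2)) : ℝ) : ℂ) * I)).im) := by
  have h2 := (sheets_near hN hβ h).2.2
  have h3 := (sheets_iff.1 hx).2.2
  have e : Real.pi * (N.e (j + 1 - 1) * N.bump (j + 1 - 1) x.1 -
      N.e (j + 1) * N.bump (j + 1) x.1) =
      -(N.e j * Real.pi * (x.2 - j - 1 / 2)) + N.e j * (Real.pi / 2) := by
    rw [h3, h2, Nat.add_sub_cancel]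
    push_cast
    ring
  rw [lin_near hN hβ (Or.inr rfl) (by linarith only [h, hN, hN.ε_pos]), e, sheets_exp (hN.sign j)]

theorem sheets_small {i : ℕ} (hi : i ≤ N.l) {e : ℝ} (he : e = 1 ∨ e = -1) {v : ℂ}
    (hv : ‖v‖ ≤ N.ε) (θ : ℝ) : |N.n i * (e * (v * exp ((θ : ℂ) * I)).im)| < 1 := by
  have h1 := abs_im_le_norm (v * exp ((θ : ℂ) * I))
  rw [sheets_norm] at h1
  have h2 : |e| = 1 := by rcases he with rfl | rfl <;> simp
  have h3 := mul_le_mul_of_nonneg_left (h1.trans hv) (Nat.cast_nonneg (α := ℝ) (N.n i))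
  have h4 := hN.ε_le i hi
  rw [abs_mul, abs_mul, h2, one_mul, Nat.abs_cast]
  linarith only [h3, h4]

omit hN in
theorem sheets_band {σ : ℝ} (hσ : σ = 1 ∨ σ = -1) {r : ℝ} (hr : 0 ≤ r) (β : ℂ) (θ : ℝ) :
    ‖β + ((σ * r : ℝ) : ℂ) * exp ((θ : ℂ) * I) - β‖ = r := by
  rw [add_sub_cancel_left, sheets_norm, norm_real, Real.norm_eq_abs, abs_mul, abs_of_nonneg hr]
  rcases hσ with rfl | rfl <;> simp

theorem sheets_tube {j : ℕ} {β : ℂ} (hβ : β ∈ N.B j) {x : ℂ × ℝ} (h1 : ‖x.1 - β‖ < N.ε)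
    (h2 : |x.2 - j - 1 / 2| < 1 / 2) :
    (x ∈ N.FUp ↔ ‖x.1 - β‖ = N.ε / 2 + N.ε * |x.2 - j - 1 / 2|) ∧
    (x ∈ N.knotUp ↔ ‖x.1 - β‖ = N.ε / 2 + N.ε * |x.2 - j - 1 / 2| ∧
      ((x.1 - β) * exp (((-(N.e j * Real.pi * (x.2 - j - 1 / 2)) : ℝ) : ℂ) * I)).im = 0) := by
  have h0 := hN.ε_pos
  obtain ⟨r1, r2⟩ := band_range hN hβ
  refine ⟨⟨?_, fun h => ?_⟩, ?_, fun h => ?_⟩
  · rintro ⟨i, a1, -, a3⟩
    by_cases e1 : i = j
    · exact ((sheets_outer hN hβ h1.le).1 (e1 ▸ a3)).2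
    by_cases e2 : i = j + 1
    · exact ((sheets_inner hN hβ h1.le).1 (e2 ▸ a3)).2
    rw [(sheets_plain (bump_other hN hβ (by linarith only [h1, h0]) (by omega))
      (bump_other hN hβ (by linarith only [h1, h0]) e1)).1 a3] at h2
    exact (sheets_nat h2).elim
  · rcases le_total x.2 (j + 1 / 2) with e | e
    · exact ⟨j, r1, r2.le, (sheets_outer hN hβ h1.le).2 ⟨e, h⟩⟩
    · exact ⟨j + 1, by omega, r2, (sheets_inner hN hβ h1.le).2 ⟨e, h⟩⟩
  · rintro (⟨i, -, -, a3, -⟩ | ⟨j', β', hβ', s, σ, a1, a2, a3⟩)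
    · rw [a3] at h2
      exact (sheets_nat h2).elim
    have b1 : x.1 = _ := congrArg Prod.fst a3
    have b2 : x.2 = _ := congrArg Prod.snd a3
    dsimp only at b1 b2
    have b3 : ‖x.1 - β'‖ = N.ε / 2 + N.ε * |s| := by
      rw [b1]
      exact sheets_band a2 (by positivity) _ _
    have b4 := norm_sub_le_norm_sub_add_norm_sub β x.1 β'
    rw [norm_sub_rev β x.1] at b4
    have b5 := mul_le_mul_of_nonneg_left a1 h0.le
    obtain ⟨rfl, rfl⟩ := band_unique hN hβ hβ' (by linarith only [h1, h0, b3, b4, b5])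
    have b6 : x.2 - j - 1 / 2 = s := by linarith only [b2]
    rw [b6]
    refine ⟨b3, ?_⟩
    rw [b1, add_sub_cancel_left, mul_assoc, ← exp_add, ← add_mul, ← ofReal_add, add_neg_cancel,
      ofReal_zero, zero_mul, exp_zero, mul_one, ofReal_im]
  · obtain ⟨a1, a2⟩ := h
    obtain ⟨s, hs⟩ : ∃ s, x.2 - j - 1 / 2 = s := ⟨_, rfl⟩
    rw [hs] at a1 a2 h2
    set w := (x.1 - β) * exp (((-(N.e j * Real.pi * s) : ℝ) : ℂ) * I) with hw
    have b1 : w = (w.re : ℂ) := Complex.ext rfl a2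
    have b2 : |w.re| = N.ε / 2 + N.ε * |s| := by
      rw [← a1, ← Real.norm_eq_abs, ← norm_real, ← b1, hw, sheets_norm]
    have b3 : x.1 = β + w * exp (((N.e j * Real.pi * s : ℝ) : ℂ) * I) := by
      rw [hw, mul_assoc, ← exp_add, ← add_mul, ← ofReal_add, neg_add_cancel, ofReal_zero, zero_mul,
        exp_zero, mul_one, add_sub_cancel]
    obtain ⟨σ, c1, c2⟩ : ∃ σ : ℝ, (σ = 1 ∨ σ = -1) ∧ w.re = σ * (N.ε / 2 + N.ε * |s|) := by
      rcases (abs_eq (by positivity)).1 b2 with e | e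
      · exact ⟨1, Or.inl rfl, by rw [e, one_mul]⟩
      · exact ⟨-1, Or.inr rfl, by rw [e, neg_one_mul]⟩
    refine Or.inr ⟨j, β, hβ, s, σ, h2.le, c1, Prod.ext ?_ (by linarith only [hs])⟩
    rw [← c2, ← b1]
    exact b3

theorem mem_knot_iff {i : ℕ} (h1 : 1 ≤ i) (h2 : i ≤ N.l) {x : ℂ × ℝ} (hx : x ∈ N.Sheet i) :
    x ∈ N.knotUp ↔ ∃ k : ℤ, N.lin i x.1 = k := by
  have h0 := hN.ε_pos
  have hn : ∀ i, (N.n i : ℝ) ≠ 0 := fun i => Nat.cast_ne_zero.2 (hN.n_pos i).ne'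
  have he : ∀ j, N.e j ≠ 0 := fun j => by rcases hN.sign j with h | h <;> simp [h]
  have ht : ∀ {j : ℕ} {β : ℂ}, ‖x.1 - β‖ < N.ε → ‖x.1 - β‖ = N.ε / 2 + N.ε * |x.2 - j - 1 / 2| →
      |x.2 - j - 1 / 2| < 1 / 2 := fun h h' => lt_of_mul_lt_mul_left (by linarith only [h, h']) h0.le
  by_cases b1 : N.bump i x.1 = 0
  swap
  · obtain ⟨β, hβ, h⟩ := exists_of_bump_ne b1
    have a1 := ((sheets_outer hN hβ h.le).1 hx).2
    rw [(sheets_tube hN hβ h (ht h a1)).2, sheets_lin_outer hN hβ h.le hx,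
      sheets_int (sheets_small hN h2 (hN.sign i) h.le _), mul_eq_zero, mul_eq_zero]
    simp only [a1, hn, he, true_and, false_or]
  by_cases b2 : N.bump (i - 1) x.1 = 0
  swap
  · obtain ⟨j, rfl⟩ : ∃ j, i = j + 1 := ⟨i - 1, by omega⟩
    obtain ⟨β, hβ, h⟩ := exists_of_bump_ne b2
    rw [Nat.add_sub_cancel] at hβ
    have a1 := ((sheets_inner hN hβ h.le).1 hx).2
    have a2 := sheets_small hN h2 (hN.sign j) h.le (-(N.e j * Real.pi * (x.2 - j - 1 / 2)))
    rw [← abs_neg, ← mul_neg] at a2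
    rw [(sheets_tube hN hβ h (ht h a1)).2, sheets_lin_inner hN hβ h.le hx,
      sheets_int a2, mul_eq_zero, neg_eq_zero, mul_eq_zero]
    simp only [a1, hn, he, true_and, false_or]
  have a1 := (sheets_plain b2 b1).1 hx
  have a2 : (∃ k : ℤ, N.lin i x.1 = k) ↔ N.On i x.1 := by rw [lin, tw_far b2 b1, On]
  constructor
  · rintro (⟨i', -, -, a3, a4, -⟩ | ⟨j, β, hβ, s, σ, c1, c2, c3⟩)
    · rw [a1, Nat.cast_inj] at a3
      exact a2.2 (a3 ▸ a4)
    have d1 : x.1 = _ := congrArg Prod.fst c3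
    have d2 : x.2 = _ := congrArg Prod.snd c3
    dsimp only at d1 d2
    have d3 : ‖x.1 - β‖ = N.ε / 2 + N.ε * |s| := by
      rw [d1]
      exact sheets_band c2 (by positivity) _ _
    have d4 := mul_le_mul_of_nonneg_left c1 h0.le
    obtain ⟨c4, c5⟩ := abs_le.1 c1
    have d5 : j ≤ i := by exact_mod_cast (by linarith only [a1, d2, c4] : (j : ℝ) ≤ i)
    have d6 : i ≤ j + 1 := by exact_mod_cast (by linarith only [a1, d2, c5] : (i : ℝ) ≤ j + 1)
    have d7 : i = j ∨ i = j + 1 := by omega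
    have d8 : Real.cos (N.e j * Real.pi * s) = 0 := by
      have d9 : N.e j * Real.pi * s = Real.pi / 2 ∨ N.e j * Real.pi * s = -(Real.pi / 2) := by
        have d10 : s = 1 / 2 ∨ s = -(1 / 2) := by
          rcases d7 with rfl | rfl
          · exact Or.inr (by linarith only [c4, a1, d2])
          · push_cast at a1
            exact Or.inl (by linarith only [d2, a1, c5])
        rcases hN.sign j with h | h <;> rcases d10 with h' | h' <;> rw [h, h']
        · exact Or.inl (by ring)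
        · exact Or.inr (by ring)
        · exact Or.inr (by ring)
        · exact Or.inl (by ring)
      rcases d9 with h | h <;> rw [h] <;> simp
    refine ⟨N.ind i β, ?_⟩
    rw [lin_near hN hβ d7 (by linarith only [h0, d3, d4]), b1, b2, mul_zero, mul_zero, sub_zero, mul_zero,
      ofReal_zero, zero_mul, exp_zero, mul_one, d1, add_sub_cancel_left, re_ofReal_mul,
      exp_ofReal_mul_I_re, d8, mul_zero, mul_zero, add_zero]
  · refine fun h => Or.inl ⟨i, h1, h2, a1, a2.1 h, fun β hβ => not_lt.1 fun h3 => ?_⟩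
    have h4 := (div_lt_one h0).2 h3
    rcases hβ with hβ | hβ
    · linarith only [b2, h4, hN, hβ, h3, (sheets_near hN hβ h3.le).1]
    · linarith only [b1, h4, hN, hβ, h3, (sheets_near hN hβ h3.le).1]

theorem knot_sub : N.knotUp ⊆ N.FUp := by
  have h0 := hN.ε_pos
  rintro x (⟨i, a1, a2, a3, -, a4⟩ | ⟨j, β, hβ, s, σ, c1, c2, c3⟩)
  · exact ⟨i, a1, a2, (sheets_plain (bump_far fun β h => a4 β (Or.inl h))
      (bump_far fun β h => a4 β (Or.inr h))).2 a3⟩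
  have d1 : x.1 = _ := congrArg Prod.fst c3
  have d2 : x.2 = _ := congrArg Prod.snd c3
  dsimp only at d1 d2
  have d3 : ‖x.1 - β‖ = N.ε / 2 + N.ε * |s| := by
    rw [d1]
    exact sheets_band c2 (by positivity) _ _
  have d4 := mul_le_mul_of_nonneg_left c1 h0.le
  have d5 : ‖x.1 - β‖ ≤ N.ε := by linarith only [d3, d4]
  rw [show s = x.2 - j - 1 / 2 by linarith only [d2]] at d3
  obtain ⟨r1, r2⟩ := band_range hN hβ
  rcases le_total x.2 (j + 1 / 2) with e | e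
  · exact ⟨j, r1, r2.le, (sheets_outer hN hβ d5).2 ⟨e, d3⟩⟩
  · exact ⟨j + 1, by omega, r2, (sheets_inner hN hβ d5).2 ⟨e, d3⟩⟩

theorem depth_of_mem {x : ℂ × ℝ} (hx : x ∈ N.FUp) : 1 ≤ x.2 ∧ x.2 ≤ N.l := by
  obtain ⟨i, a1, a2, a3⟩ := hx
  obtain ⟨b1, b2, b3⟩ := sheets_iff.1 a3
  have b4 := bump_nonneg hN i x.1
  have b5 := bump_nonneg hN (i - 1) x.1
  constructor
  · rcases a1.eq_or_lt with rfl | h
    · rw [bump_zero hN] at b3
      push_cast at b3
      linarith only [b4, b3]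
    · have h2 : (2 : ℝ) ≤ i := by exact_mod_cast h
      linarith only [b2, b3, b4, h2]
  · rcases a2.eq_or_lt with rfl | h
    · rw [bump_of_le hN le_rfl] at b3
      linarith only [b3, b5]
    · have h2 : (i : ℝ) + 1 ≤ N.l := by exact_mod_cast h
      linarith only [b1, b3, b5, h2]

theorem mem_sheet_sh {x : ℂ × ℝ} (hx : x ∈ N.FUp) :
    1 ≤ sh x.2 ∧ sh x.2 ≤ N.l ∧ x ∈ N.Sheet (sh x.2) := by
  obtain ⟨i, a1, a2, a3⟩ := hx
  obtain ⟨b1, b2, b3⟩ := sheets_iff.1 a3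
  have b4 := bump_nonneg hN i x.1
  have b5 := bump_nonneg hN (i - 1) x.1
  rcases lt_or_ge (x.2 + 1 / 2) (i + 1) with h | h
  · rw [sheets_sh (i := i) (by linarith only [b2, b3, b4]) h]
    exact ⟨a1, a2, a3⟩
  · have c1 : N.bump i x.1 = 1 / 2 := by linarith only [b3, b5, h, b1]
    have c2 : N.bump i x.1 ≠ 0 := by
      rw [c1]
      norm_num
    have c3 := (bump_eq_zero_or hN (Nat.succ_ne_self i) x.1).resolve_right c2
    rw [sheets_sh (i := i + 1) (by push_cast; linarith only [h]) (by push_cast; linarith only [b1, b3, b5])]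
    refine ⟨by omega, not_le.1 fun h2 => c2 (bump_of_le hN h2 _), sheets_iff.2 ?_⟩
    rw [Nat.add_sub_cancel, c3]
    push_cast
    exact ⟨by norm_num, b1, by linarith only [b3, b5, h, b1]⟩

theorem mem_gap {x : ℂ × ℝ} (hx : x ∈ N.YUp) :
    x ∈ N.Gap (sh x.2) ⌊N.lin (sh x.2) x.1⌋ := by
  obtain ⟨a1, a2, a3⟩ := mem_sheet_sh hN hx.1
  exact ⟨a3, lt_of_le_of_ne (Int.floor_le _) fun h => hx.2 ((mem_knot_iff hN a1 a2 a3).2 ⟨_, h.symm⟩),
    Int.lt_floor_add_one _⟩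

theorem gap_sub {i : ℕ} (h1 : 1 ≤ i) (h2 : i ≤ N.l) (a : ℤ) : N.Gap i a ⊆ N.YUp := by
  rintro x ⟨a1, a2, a3⟩
  refine ⟨⟨i, h1, h2, a1⟩, fun h => ?_⟩
  obtain ⟨k, hk⟩ := (mem_knot_iff hN h1 h2 a1).1 h
  rw [hk] at a2 a3
  have b1 : a < k := by exact_mod_cast a2
  have b2 : k < a + 1 := by exact_mod_cast a3
  omega

theorem strip_outer {j : ℕ} {β : ℂ} (hβ : β ∈ N.B j) {σ : ℝ} (hσ : σ = 1 ∨ σ = -1)
    {x : ℂ × ℝ} (hx : x ∈ N.Strip j β σ) (h : x.2 ≤ j + 1 / 2) : x ∈ N.Gap j (N.go j β σ) := by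
  obtain ⟨a1, a2, a3⟩ := hx
  have a4 := mul_le_mul_of_nonneg_left a1.le hN.ε_pos.le
  have a5 : ‖x.1 - β‖ ≤ N.ε := by linarith only [a2, a4]
  have a6 := (sheets_outer hN hβ a5).2 ⟨h, a2⟩
  have a7 := abs_lt.1 (sheets_small hN (band_range hN hβ).2.le (hN.sign j) a5
    (-(N.e j * Real.pi * (x.2 - j - 1 / 2))))
  have a8 : (0 : ℝ) < N.n j := Nat.cast_pos.2 (hN.n_pos j)
  refine ⟨a6, ?_⟩
  rw [sheets_lin_outer hN hβ a5 a6, go]
  generalize ((x.1 - β) * exp (((-(N.e j * Real.pi * (x.2 - j - 1 / 2)) : ℝ) : ℂ) * I)).im = t at *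
  have a9 := mul_pos a8 a3
  rcases hσ with rfl | rfl <;> rcases hN.sign j with e | e <;> rw [e] at a7 ⊢ <;> norm_num <;>
    constructor <;> linarith only [a9, a7, a7.1, a7.2]

theorem strip_inner {j : ℕ} {β : ℂ} (hβ : β ∈ N.B j) {σ : ℝ} (hσ : σ = 1 ∨ σ = -1)
    {x : ℂ × ℝ} (hx : x ∈ N.Strip j β σ) (h : j + 1 / 2 ≤ x.2) :
    x ∈ N.Gap (j + 1) (N.gi j β σ) := by
  obtain ⟨a1, a2, a3⟩ := hx
  have a4 := mul_le_mul_of_nonneg_left a1.le hN.ε_pos.le
  have a5 : ‖x.1 - β‖ ≤ N.ε := by linarith only [a2, a4]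
  have a6 := (sheets_inner hN hβ a5).2 ⟨h, a2⟩
  have a7 := abs_lt.1 (sheets_small hN (i := j + 1) (band_range hN hβ).2 (hN.sign j) a5
    (-(N.e j * Real.pi * (x.2 - j - 1 / 2))))
  have a8 : (0 : ℝ) < N.n (j + 1) := Nat.cast_pos.2 (hN.n_pos _)
  refine ⟨a6, ?_⟩
  rw [sheets_lin_inner hN hβ a5 a6, gi]
  generalize ((x.1 - β) * exp (((-(N.e j * Real.pi * (x.2 - j - 1 / 2)) : ℝ) : ℂ) * I)).im = t at *
  have a9 := mul_pos a8 a3
  rcases hσ with rfl | rfl <;> rcases hN.sign j with e | e <;> rw [e] at a7 ⊢ <;> norm_num <;>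
    constructor <;> linarith only [a7, a9, a7.1, a7.2]

/-- The middle point of a neck arc. -/
theorem mid_mem_strip (j : ℕ) (β : ℂ) {σ : ℝ} (hσ : σ = 1 ∨ σ = -1) :
    (β + ((σ * (N.ε / 2) : ℝ) : ℂ) * I, (j : ℝ) + 1 / 2) ∈ N.Strip j β σ := by
  have h0 := hN.ε_pos
  have e : (j : ℝ) + 1 / 2 - j - 1 / 2 = 0 := by ring
  refine ⟨?_, ?_, ?_⟩ <;> dsimp only <;> rw [e]
  · norm_num
  · rw [add_sub_cancel_left, norm_mul, norm_I, norm_real, Real.norm_eq_abs, abs_mul,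
      abs_of_pos (half_pos h0)]
    rcases hσ with rfl | rfl <;> simp
  · rw [add_sub_cancel_left, mul_zero, neg_zero, ofReal_zero, zero_mul, exp_zero, mul_one, mul_I_im,
      ofReal_re]
    rcases hσ with rfl | rfl <;> linarith only [h0]

/-- In the open cylinder over the disc of radius `ε` around a band the surface is the tube. -/
theorem mem_FUp_tube {j : ℕ} {β : ℂ} (hβ : β ∈ N.B j) {x : ℂ × ℝ} (h1 : ‖x.1 - β‖ < N.ε)
    (h2 : |x.2 - j - 1 / 2| < 1 / 2) :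
    (x ∈ N.FUp ↔ ‖x.1 - β‖ = N.ε / 2 + N.ε * |x.2 - j - 1 / 2|) ∧
    (x ∈ N.knotUp ↔ ‖x.1 - β‖ = N.ε / 2 + N.ε * |x.2 - j - 1 / 2| ∧
      ((x.1 - β) * exp (((-(N.e j * Real.pi * (x.2 - j - 1 / 2)) : ℝ) : ℂ) * I)).im = 0) := by
  exact sheets_tube hN hβ h1 h2

/-- A point of the surface of half integral depth lies on a neck. -/
theorem exists_neck {x : ℂ × ℝ} (hx : x ∈ N.FUp) (h : x.2 + 1 / 2 = sh x.2) :
    ∃ j, ∃ β ∈ N.B j, x.2 = j + 1 / 2 ∧ ‖x.1 - β‖ = N.ε / 2 := by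
  obtain ⟨a1, -, a3⟩ := mem_sheet_sh hN hx
  obtain ⟨j, hj⟩ : ∃ j, sh x.2 = j + 1 := ⟨sh x.2 - 1, by omega⟩
  rw [hj] at h a3
  obtain ⟨-, b2, b3⟩ := sheets_iff.1 a3
  have b4 := bump_nonneg hN (j + 1) x.1
  rw [Nat.add_sub_cancel] at b2 b3
  have c1 : N.bump j x.1 = 1 / 2 := by linarith only [h, b3, b4, b2]
  obtain ⟨β, hβ, c2⟩ := exists_of_bump_ne (N := N) (j := j) (ζ := x.1) (by rw [c1]; norm_num)
  have c3 := (sheets_near hN hβ c2.le).1
  push_cast at h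
  refine ⟨j, β, hβ, by linarith only [h], ?_⟩
  have c4 : ‖x.1 - β‖ / N.ε = 1 / 2 := by linarith only [b2, c3, c1]
  rw [div_eq_iff hN.ε_pos.ne'] at c4
  linarith only [c4]

/-- A point of the surface that is not on a neck lies in the open part of its sheet. -/
theorem plain_of_ne {x : ℂ × ℝ} (hx : x ∈ N.FUp) (h : x.2 + 1 / 2 ≠ sh x.2) :
    N.bump (sh x.2) x.1 < 1 / 2 ∧ N.bump (sh x.2 - 1) x.1 < 1 / 2 ∧
      |x.2 - sh x.2| < 1 / 2 := by
  obtain ⟨a1, -, a3⟩ := mem_sheet_sh hN hx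
  obtain ⟨b1, b2, b3⟩ := sheets_iff.1 a3
  have b4 : (sh x.2 : ℝ) < x.2 + 1 / 2 :=
    lt_of_le_of_ne (Nat.floor_le (by linarith only [hN, hx, (depth_of_mem hN hx).1])) h.symm
  have b5 : x.2 + 1 / 2 < sh x.2 + 1 := Nat.lt_floor_add_one _
  have b6 := bump_eq_zero_or hN (j := sh x.2) (j' := sh x.2 - 1) (by omega) x.1
  refine ⟨?_, ?_, abs_lt.2 ⟨by linarith only [b4], by linarith only [b5]⟩⟩ <;> rcases b6 with e | e <;> linarith only [e, b3, b5, b4]

theorem loc_plain {x : ℂ × ℝ} (hx : x ∈ N.YUp) (h : x.2 + 1 / 2 ≠ sh x.2) :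
    ∀ᶠ z in 𝓝[N.YUp] x, sh z.2 = sh x.2 ∧ ⌊N.lin (sh x.2) z.1⌋ = ⌊N.lin (sh x.2) x.1⌋ := by
  obtain ⟨-, a2, a3⟩ := mem_gap hN hx
  obtain ⟨a4, a5⟩ := abs_lt.1 (plain_of_ne hN hx.1 h).2.2
  have c1 : Continuous fun z : ℂ × ℝ => N.lin (sh x.2) z.1 :=
    (continuous_lin hN _).comp continuous_fst
  have c2 : Continuous fun z : ℂ × ℝ => z.2 + 1 / 2 := by fun_prop
  refine Eventually.filter_mono nhdsWithin_le_nhds ?_
  filter_upwards [(c1.tendsto x).eventually (lt_mem_nhds a2), (c1.tendsto x).eventually (gt_mem_nhds a3),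
    (c2.tendsto x).eventually (lt_mem_nhds (a := (sh x.2 : ℝ)) (by linarith only [a4])),
    (c2.tendsto x).eventually (gt_mem_nhds (a := (sh x.2 : ℝ) + 1) (by linarith only [a5]))] with z b1 b2 b3 b4
  exact ⟨sheets_sh b3.le b4, Int.floor_eq_iff.2 ⟨b1.le, b2⟩⟩

theorem loc_neck {x : ℂ × ℝ} (hx : x ∈ N.YUp) (h : x.2 + 1 / 2 = sh x.2) :
    ∃ j, ∃ β ∈ N.B j, ∃ σ : ℝ, (σ = 1 ∨ σ = -1) ∧ x.2 = j + 1 / 2 ∧ x ∈ N.Strip j β σ ∧
      ∀ᶠ z in 𝓝[N.YUp] x, z ∈ N.Strip j β σ ∧ 0 < σ * (z.1.im - β.im) := by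
  have h0 := hN.ε_pos
  obtain ⟨j, β, hβ, a1, a2⟩ := exists_neck hN hx.1 h
  have e : x.2 - j - 1 / 2 = 0 := by linarith only [a1]
  have a3 : ‖x.1 - β‖ < N.ε := by linarith only [h0, a2]
  have a4 : |x.2 - j - 1 / 2| < 1 / 2 := by
    rw [e]
    norm_num
  have a5 := mem_FUp_tube hN hβ a3 a4
  have a6 := a5.1.1 hx.1
  have a7 := fun h => hx.2 (a5.2.2 ⟨a6, h⟩)
  obtain ⟨σ, c1, c2⟩ : ∃ σ : ℝ, (σ = 1 ∨ σ = -1) ∧ 0 < σ *
      ((x.1 - β) * exp (((-(N.e j * Real.pi * (x.2 - j - 1 / 2)) : ℝ) : ℂ) * I)).im := by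
    rcases lt_or_gt_of_ne a7 with h | h
    · exact ⟨-1, Or.inr rfl, by linarith only [h]⟩
    · exact ⟨1, Or.inl rfl, by linarith only [h]⟩
  have c3 : 0 < σ * (x.1.im - β.im) := by
    rwa [e, mul_zero, neg_zero, ofReal_zero, zero_mul, exp_zero, mul_one] at c2
  refine ⟨j, β, hβ, σ, c1, a1, ⟨a4, a6, c2⟩, ?_⟩
  have k1 : Continuous fun z : ℂ × ℝ => ‖z.1 - β‖ := by fun_prop
  have k2 : Continuous fun z : ℂ × ℝ => |z.2 - j - 1 / 2| := by fun_prop
  have k3 : Continuous fun z : ℂ × ℝ => σ *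
      ((z.1 - β) * exp (((-(N.e j * Real.pi * (z.2 - j - 1 / 2)) : ℝ) : ℂ) * I)).im := by fun_prop
  have k4 : Continuous fun z : ℂ × ℝ => σ * (z.1.im - β.im) := by fun_prop
  filter_upwards [self_mem_nhdsWithin,
    nhdsWithin_le_nhds ((k1.tendsto x).eventually (gt_mem_nhds a3)),
    nhdsWithin_le_nhds ((k2.tendsto x).eventually (gt_mem_nhds a4)),
    nhdsWithin_le_nhds ((k3.tendsto x).eventually (lt_mem_nhds c2)),
    nhdsWithin_le_nhds ((k4.tendsto x).eventually (lt_mem_nhds c3))] with z b0 b1 b2 b3 b4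
  exact ⟨⟨b2, (mem_FUp_tube hN hβ b1 b2).1.1 b0.1, b3⟩, b4⟩

theorem sheets_add (i : ℕ) (x : ℂ × ℝ) (k m : ℤ) : x + vec k m ∈ N.Sheet i ↔ x ∈ N.Sheet i := by
  rw [vec_add, sheets_iff, sheets_iff, bump_add hN, bump_add hN]

theorem sheets_knot (x : ℂ × ℝ) : x ∈ N.knotUp ↔
    ∃ i, 1 ≤ i ∧ i ≤ N.l ∧ x ∈ N.Sheet i ∧ ∃ k : ℤ, N.lin i x.1 = k := by
  refine ⟨fun h => ?_, fun ⟨i, a1, a2, a3, a4⟩ => (mem_knot_iff hN a1 a2 a3).2 a4⟩
  obtain ⟨i, a1, a2, a3⟩ := knot_sub hN h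
  exact ⟨i, a1, a2, a3, (mem_knot_iff hN a1 a2 a3).1 h⟩

theorem FUp_add (x : ℂ × ℝ) (k m : ℤ) : x + vec k m ∈ N.FUp ↔ x ∈ N.FUp := by
  exact exists_congr fun i => and_congr_right fun _ => and_congr_right fun _ =>
    sheets_add hN i x k m

theorem knotUp_add (x : ℂ × ℝ) (k m : ℤ) : x + vec k m ∈ N.knotUp ↔ x ∈ N.knotUp := by
  rw [sheets_knot hN, sheets_knot hN]
  refine exists_congr fun i => and_congr_right fun _ => and_congr_right fun _ =>
    and_congr (sheets_add hN i x k m) ?_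
  rw [vec_add, lin_add hN]
  refine ⟨fun ⟨c, hc⟩ => ⟨c - (N.n i * k - N.q i * m), ?_⟩,
    fun ⟨c, hc⟩ => ⟨c + (N.n i * k - N.q i * m), ?_⟩⟩
  · rw [Int.cast_sub, ← hc, add_sub_cancel_right]
  · rw [Int.cast_add, hc]

theorem YUp_add (x : ℂ × ℝ) (k m : ℤ) : x + vec k m ∈ N.YUp ↔ x ∈ N.YUp := by
  exact and_congr (FUp_add hN x k m) (not_congr (knotUp_add hN x k m))

theorem gap_add (i : ℕ) (a : ℤ) (x : ℂ × ℝ) (k m : ℤ) :
    x + vec k m ∈ N.Gap i (a + (N.n i * k - N.q i * m)) ↔ x ∈ N.Gap i a := by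
  refine and_congr (sheets_add hN i x k m) ?_
  rw [vec_add, lin_add hN, Int.cast_add, add_right_comm, add_lt_add_iff_right, add_lt_add_iff_right]

end Nest

end Neuwirth
end

-- merged part: Pool.Agent.Work.MP_d5331a_gt.Regions
section
/-!
The two sides of the surface.

Plan. At a point `ζ` at most one bump is non-zero; `hgt 1 ≤ hgt 2 ≤ ⋯ ≤ hgt l`,
`i - 1 / 2 ≤ hgt i ≤ i + 1 / 2`; if `bump j ζ ≥ 1 / 2` then `hgt j = hgt (j + 1) = j + 1 / 2`.
`side_cover`: take the largest `j ≤ l` with `j = 0` or `hgt j ≤ ρ`; then `bump j ≤ 1 / 2`.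
`side_inter`: two regions `j < j'` of different parity that contain the point.
-/

set_option autoImplicit false

open Complex Set Filter Topology

namespace Neuwirth

namespace Nest

variable {N : Nest} (hN : N.Good)
include hN

theorem regions_min (j : ℕ) (ζ : ℂ) : 0 ≤ min (N.bump j ζ) (1 / 2) :=
  le_min (bump_nonneg hN j ζ) (by norm_num)

theorem regions_le (i : ℕ) (ζ : ℂ) : N.hgt i ζ ≤ i + 1 / 2 := by
  have h1 := regions_min hN (i - 1) ζ
  have h2 := min_le_right (N.bump i ζ) (1 / 2)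
  unfold hgt
  linarith only [h1, h2]

theorem regions_ge (i : ℕ) (ζ : ℂ) : i - 1 / 2 ≤ N.hgt i ζ := by
  have h1 := regions_min hN i ζ
  have h2 := min_le_right (N.bump (i - 1) ζ) (1 / 2)
  unfold hgt
  linarith only [h1, h2]

theorem regions_succ (i : ℕ) (ζ : ℂ) : N.hgt i ζ ≤ N.hgt (i + 1) ζ := by
  have h1 := regions_le hN i ζ
  have h2 := regions_ge hN (i + 1) ζ
  push_cast at h2
  linarith only [h1, h2]

theorem regions_top {i : ℕ} {ζ : ℂ} (h : i + 1 / 2 ≤ N.hgt i ζ) : 1 / 2 ≤ N.bump i ζ := by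
  have h1 := regions_min hN (i - 1) ζ
  have h2 := min_le_left (N.bump i ζ) (1 / 2)
  unfold hgt at h
  linarith only [h, h1, h2]

theorem regions_bot {i : ℕ} {ζ : ℂ} (h : N.hgt (i + 1) ζ ≤ i + 1 / 2) : 1 / 2 ≤ N.bump i ζ := by
  have h1 := regions_min hN (i + 1) ζ
  have h2 := min_le_left (N.bump i ζ) (1 / 2)
  unfold hgt at h
  rw [Nat.add_sub_cancel] at h
  push_cast at h
  linarith only [h1, h2, h]

theorem regions_neck {i : ℕ} {ζ : ℂ} (h : 1 / 2 ≤ N.bump i ζ) :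
    i ≠ 0 ∧ i < N.l ∧ N.bump (i + 1) ζ = 0 ∧ N.hgt i ζ = i + 1 / 2 ∧ N.hgt (i + 1) ζ = i + 1 / 2 := by
  have h0 : i ≠ 0 := by
    rintro rfl
    rw [bump_zero hN] at h
    norm_num at h
  have h1 : ∀ j, j ≠ i → N.bump j ζ = 0 := fun j hj =>
    (bump_eq_zero_or hN hj ζ).resolve_right (by linarith only [h])
  refine ⟨h0, ?_, h1 _ (by omega), ?_, ?_⟩
  · by_contra h2
    rw [bump_of_le hN (not_lt.1 h2)] at h
    norm_num at h
  · rw [hgt, h1 (i - 1) (by omega), min_eq_right h]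
    norm_num
  · rw [hgt, h1 (i + 1) (by omega), Nat.add_sub_cancel, min_eq_right h]
    push_cast
    norm_num
    ring

theorem regions_sub {c : ℕ} (hc : c < 2) : N.FUp ⊆ N.SideUp c := by
  rintro x ⟨i, h1, h2, h3, h4, h5⟩
  have a1 : (1 : ℝ) ≤ i := by exact_mod_cast h1
  have a2 : (i : ℝ) ≤ N.l := by exact_mod_cast h2
  refine ⟨by linarith only [h5, a1, hN, regions_ge hN i x.1], by linarith only [h5, a2, hN, regions_le hN i x.1], ?_⟩
  by_cases hp : i % 2 = c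
  · exact ⟨i, h2, hp, h3, Or.inr h5.ge, Or.inr (h5.le.trans (regions_succ hN i x.1))⟩
  · obtain ⟨j, rfl⟩ : ∃ j, i = j + 1 := ⟨i - 1, by omega⟩
    exact ⟨j, by omega, by omega, h4, Or.inr ((regions_succ hN j x.1).trans h5.ge), Or.inr h5.le⟩

theorem regions_two {j j' : ℕ} {x : ℂ × ℝ} (hj : j < j') (hl : j' ≤ N.l) (hp : j % 2 ≠ j' % 2)
    (h : x ∈ N.Reg j) (h' : x ∈ N.Reg j') : x ∈ N.FUp := by
  have h1 := h.2.2.resolve_left (by omega)
  have h2 := h'.2.1.resolve_left (by omega)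
  have h3 := regions_le hN (j + 1) x.1
  have h4 := regions_ge hN j' x.1
  have h5 : j' ≤ j + 2 := by
    push_cast at h3
    have : (j' : ℝ) ≤ j + 2 := by linarith only [h1, h2, h4, h3]
    exact_mod_cast this
  obtain rfl : j' = j + 1 := by omega
  exact ⟨j + 1, by omega, hl, h'.1, h.1, le_antisymm h1 h2⟩

theorem isClosed_FUp : IsClosed N.FUp := by
  have h1 : N.FUp = ⋃ i ∈ Set.Icc 1 N.l, N.Sheet i := by
    ext x
    simp only [FUp, mem_ofPred_eq, mem_iUnion, mem_Icc, exists_prop, and_assoc]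
  rw [h1]
  exact (Set.finite_Icc 1 N.l).isClosed_biUnion fun i _ =>
    (isClosed_le ((continuous_bump hN i).comp continuous_fst) continuous_const).inter
      ((isClosed_le ((continuous_bump hN (i - 1)).comp continuous_fst) continuous_const).inter
        (isClosed_eq continuous_snd ((continuous_hgt hN i).comp continuous_fst)))

theorem isClosed_SideUp (c : ℕ) : IsClosed (N.SideUp c) := by
  have h1 : N.SideUp c = {x : ℂ × ℝ | 0 ≤ x.2} ∩ ({x : ℂ × ℝ | x.2 ≤ N.l + 1} ∩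
      ⋃ j ∈ {j | j ≤ N.l ∧ j % 2 = c}, N.Reg j) := by
    ext x
    simp only [SideUp, mem_ofPred_eq, mem_iUnion, mem_inter_iff, exists_prop, and_assoc]
  rw [h1]
  refine (isClosed_le continuous_const continuous_snd).inter
    ((isClosed_le continuous_snd continuous_const).inter ?_)
  exact ((Set.finite_Iic N.l).subset fun j hj => hj.1).isClosed_biUnion fun j _ =>
    (isClosed_le ((continuous_bump hN j).comp continuous_fst) continuous_const).inter
      ((isClosed_const.union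
        (isClosed_le ((continuous_hgt hN j).comp continuous_fst) continuous_snd)).inter
        (isClosed_const.union
          (isClosed_le continuous_snd ((continuous_hgt hN (j + 1)).comp continuous_fst))))

theorem SideUp_add (c : ℕ) (x : ℂ × ℝ) (k m : ℤ) :
    x + vec k m ∈ N.SideUp c ↔ x ∈ N.SideUp c := by
  simp only [vec_add, SideUp, Reg, mem_ofPred_eq, bump_add hN, hgt_add hN]

theorem side_cover {x : ℂ × ℝ} (h0 : 0 ≤ x.2) (h1 : x.2 ≤ N.l + 1) :
    x ∈ N.SideUp 0 ∨ x ∈ N.SideUp 1 := by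
  classical
  obtain ⟨j, a1, a2, a3⟩ : ∃ j, j ≤ N.l ∧ (j = 0 ∨ N.hgt j x.1 ≤ x.2) ∧
      (j = N.l ∨ x.2 < N.hgt (j + 1) x.1) := by
    refine ⟨Nat.findGreatest (fun j => j = 0 ∨ N.hgt j x.1 ≤ x.2) N.l, Nat.findGreatest_le _,
      Nat.findGreatest_spec (P := fun j => j = 0 ∨ N.hgt j x.1 ≤ x.2) (Nat.zero_le _) (Or.inl rfl), ?_⟩
    rcases (Nat.findGreatest_le (P := fun j => j = 0 ∨ N.hgt j x.1 ≤ x.2) N.l).eq_or_lt with h | h
    · exact Or.inl h
    · exact Or.inr (not_le.1 fun h2 => Nat.findGreatest_is_greatest (Nat.lt_succ_self _) h (Or.inr h2))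
  have a4 : x ∈ N.Reg j := by
    refine ⟨?_, a2, a3.imp id le_of_lt⟩
    by_contra h
    obtain ⟨b1, b2, -, b3, b4⟩ := regions_neck hN (not_le.1 h).le
    linarith only [b3, b4, a2, b1, a3, b2, a2.resolve_left b1, a3.resolve_left b2.ne]
  rcases Nat.mod_two_eq_zero_or_one j with h | h
  · exact Or.inl ⟨h0, h1, j, a1, h, a4⟩
  · exact Or.inr ⟨h0, h1, j, a1, h, a4⟩

theorem side_inter : N.SideUp 0 ∩ N.SideUp 1 = N.FUp := by
  refine Subset.antisymm ?_ (subset_inter (regions_sub hN (by norm_num)) (regions_sub hN (by norm_num)))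
  rintro x ⟨⟨-, -, j, a1, a2, a3⟩, -, -, j', b1, b2, b3⟩
  rcases lt_trichotomy j j' with h | h | h
  · exact regions_two hN h b1 (by omega) a3 b3
  · omega
  · exact regions_two hN h a1 (by omega) b3 a3

theorem FUp_sub_side {c : ℕ} (hc : c < 2) : N.FUp ⊆ N.SideUp c := by
  exact regions_sub hN hc

theorem reg_of_side {c : ℕ} (hc : c < 2) {x : ℂ × ℝ} (hx : x ∈ N.SideUp c) :
    J c (sh x.2) ≤ N.l ∧ J c (sh x.2) % 2 = c ∧ x ∈ N.Reg (J c (sh x.2)) := by
  obtain ⟨h0, h1, j, a1, a2, a3⟩ := hx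
  have b1 : (sh x.2 : ℝ) ≤ x.2 + 1 / 2 := Nat.floor_le (by linarith only [h0])
  have b2 : x.2 + 1 / 2 < sh x.2 + 1 := Nat.lt_floor_add_one _
  generalize sh x.2 = s at b1 b2 ⊢
  have b3 : (j : ℝ) ≤ x.2 + 1 / 2 := by
    rcases a3.2.1 with h | h
    · rw [h]
      push_cast
      linarith only [h0]
    · linarith only [h, hN, regions_ge hN j x.1]
  have b4 : j < s + 1 := by exact_mod_cast b3.trans_lt b2
  by_cases h : s ≤ j + 1
  · have : J c s = j := by
      unfold J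
      split_ifs <;> omega
    rw [this]
    exact ⟨a1, a2, a3⟩
  have b5 : ((j + 2 : ℕ) : ℝ) ≤ s := by exact_mod_cast (by omega : j + 2 ≤ s)
  push_cast at b5
  have b6 : x.2 ≤ N.hgt (j + 1) x.1 := a3.2.2.resolve_left fun h2 => by
    rw [← h2] at h1
    linarith only [h1, b1, b5]
  obtain ⟨-, c2, c3, c4, c5⟩ := regions_neck hN (regions_top hN (i := j + 1) (ζ := x.1) (by
    push_cast
    linarith only [b1, b5, b6]))
  push_cast at c4 c5
  have b7 : s ≤ j + 2 := by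
    have : (s : ℝ) ≤ j + 2 := by linarith only [b1, b6, c4]
    exact_mod_cast this
  have : J c s = j + 1 + 1 := by
    unfold J
    split_ifs <;> omega
  rw [this]
  refine ⟨by omega, by omega, by rw [c3]; norm_num, Or.inr (by linarith only [b1, b5, c5]), Or.inr ?_⟩
  exact b6.trans ((regions_succ hN _ _).trans (regions_succ hN _ _))

/-- A point of the side `c` at the depth of a neck of the other parity lies in a neck disc. -/
theorem exists_disc {c : ℕ} (hc : c < 2) {x : ℂ × ℝ} (hx : x ∈ N.SideUp c)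
    (h : x.2 + 1 / 2 = sh x.2) (hp : sh x.2 % 2 = c) :
    ∃ j, ∃ β ∈ N.B j, sh x.2 = j + 1 ∧ ‖x.1 - β‖ ≤ N.ε / 2 := by
  obtain ⟨-, -, a3⟩ := reg_of_side hN hc hx
  rw [J, if_pos hp] at a3
  have h0 := hx.1
  generalize sh x.2 = s at h a3 ⊢
  obtain ⟨j, rfl⟩ : ∃ j, s = j + 1 := by
    rcases s with _ | j
    · push_cast at h
      linarith only [h0, h]
    · exact ⟨j, rfl⟩
  have a4 := a3.2.1.resolve_left (by omega)
  push_cast at h
  have a5 := regions_bot hN (i := j) (ζ := x.1) (by linarith only [a4, h])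
  obtain ⟨β, b1, b2⟩ := exists_of_bump_ne (N := N) (j := j) (ζ := x.1) (by linarith only [a5])
  have he := hN.ε_pos
  refine ⟨j, β, b1, rfl, ?_⟩
  rw [bump_near hN b1 (by linarith only [b2, he]), le_max_iff] at a5
  have a6 : ‖x.1 - β‖ / N.ε ≤ 1 / 2 := by linarith only [a5, a5.resolve_left (by norm_num)]
  rw [div_le_iff₀ he] at a6
  linarith only [a6]

theorem side_bot {c : ℕ} {x : ℂ × ℝ} (hx : x ∈ N.SideUp c) (h : x.2 = 0) : c = 0 := by
  obtain ⟨-, -, j, -, a2, a3⟩ := hx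
  rcases a3.2.1 with h1 | h1
  · omega
  · have : (j : ℝ) < 1 := by linarith only [h, h1, hN, regions_ge hN j x.1]
    have : j < 1 := by exact_mod_cast this
    omega

theorem side_top {c : ℕ} {x : ℂ × ℝ} (hx : x ∈ N.SideUp c) (h : x.2 = N.l + 1) :
    c = N.l % 2 := by
  obtain ⟨-, -, j, a1, a2, a3⟩ := hx
  rcases a3.2.2 with h1 | h1
  · rw [← a2, h1]
  · have h2 := regions_le hN (j + 1) x.1
    push_cast at h2
    have : (N.l : ℝ) < j + 1 := by linarith only [h, h1, h2]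
    have : N.l < j + 1 := by exact_mod_cast this
    rw [← a2, show j = N.l by omega]

end Nest

end Neuwirth
end

-- merged part: Pool.Agent.Work.MP_d5331a_gt.Times
section
/-!
Times of bands.

Plan. The times of the bands of slab `j` form a set that is invariant under integer translation
and whose distinct points are at least `4 ε` apart (`Good.sep`). The supremum defining `lt` is
attained: take an element within `ε` of the supremum; any larger element is within `4 ε` of it,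
hence equal.
-/

set_option autoImplicit false

open Complex Set Filter Topology

namespace Neuwirth

namespace Nest

variable {N : Nest} (hN : N.Good)
include hN

theorem Times_sep {j j' : ℕ} {β β' : ℂ} (hβ : β ∈ N.B j) (hβ' : β' ∈ N.B j')
    (h1 : β.im - β'.im < 4 * N.ε) (h2 : β'.im - β.im < 4 * N.ε) : j = j' ∧ β'.im = β.im := by
  obtain ⟨hj, k, hk⟩ := hN.sep j j' β hβ β' hβ' (abs_sub_lt_iff.2 ⟨h1, h2⟩)
  exact ⟨hj, by rw [hk]; simp⟩

theorem Times_shift {j : ℕ} {β : ℂ} (hβ : β ∈ N.B j) (m : ℤ) :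
    β + m * I ∈ N.B j ∧ (β + m * I).im = β.im + m :=
  ⟨by simpa using hN.inv j β hβ 0 m, by simp⟩

theorem Times_ne {j : ℕ} (h : (N.B j).Nonempty) (t : ℝ) :
    {τ | τ ≤ t ∧ ∃ β ∈ N.B j, β.im = τ}.Nonempty := by
  obtain ⟨β, hβ⟩ := h
  obtain ⟨h1, h2⟩ := Times_shift hN hβ ⌊t - β.im⌋
  exact ⟨_, by linarith only [h2, Int.floor_le (t - β.im)], _, h1, rfl⟩

omit hN in
theorem lt_empty {j : ℕ} (h : ¬ (N.B j).Nonempty) (t : ℝ) : N.lt j t = 0 := by
  have e : {τ | τ ≤ t ∧ ∃ β ∈ N.B j, β.im = τ} = ∅ :=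
    eq_empty_of_forall_notMem fun τ ⟨_, β, hβ, _⟩ => h ⟨β, hβ⟩
  rw [lt, e, Real.sSup_empty]

theorem lt_mem {j : ℕ} (h : (N.B j).Nonempty) (t : ℝ) : ∃ β ∈ N.B j, β.im = N.lt j t := by
  have hε := hN.ε_pos
  have hb : BddAbove {τ | τ ≤ t ∧ ∃ β ∈ N.B j, β.im = τ} := ⟨t, fun _ hτ => hτ.1⟩
  obtain ⟨_, ⟨h1, β, hβ, rfl⟩, h2⟩ := exists_lt_of_lt_csSup (Times_ne hN h t)
    (sub_lt_self (N.lt j t) hε)
  refine ⟨β, hβ, le_antisymm (le_csSup hb ⟨h1, β, hβ, rfl⟩) (csSup_le (Times_ne hN h t) ?_)⟩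
  rintro _ ⟨h3, β', hβ', rfl⟩
  have h4 : β'.im ≤ N.lt j t := le_csSup hb ⟨h3, β', hβ', rfl⟩
  by_contra h5
  rw [not_le] at h5
  exact h5.ne' (Times_sep hN hβ hβ' (by linarith only [h2, h4, h5]) (by linarith)).2

theorem lt_le {j : ℕ} (h : (N.B j).Nonempty) (t : ℝ) : N.lt j t ≤ t := by
  exact csSup_le (Times_ne hN h t) fun _ hτ => hτ.1

omit hN in
theorem le_lt {j : ℕ} {β : ℂ} (hβ : β ∈ N.B j) {t : ℝ} (h : β.im ≤ t) : β.im ≤ N.lt j t := by
  exact le_csSup ⟨t, fun _ hτ => hτ.1⟩ ⟨h, β, hβ, rfl⟩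

theorem lt_add_int {j : ℕ} (h : (N.B j).Nonempty) (t : ℝ) (m : ℤ) :
    N.lt j (t + m) = N.lt j t + m := by
  obtain ⟨β, hβ, e⟩ := lt_mem hN h t
  obtain ⟨β', hβ', e'⟩ := lt_mem hN h (t + m)
  obtain ⟨h1, h2⟩ := Times_shift hN hβ m
  obtain ⟨h3, h4⟩ := Times_shift hN hβ' (-m)
  have h5 := lt_le hN h t
  have h6 := lt_le hN h (t + m)
  rw [Int.cast_neg (R := ℝ)] at h4
  have h7 := le_lt h1 (t := t + m) (by linarith)
  have h8 := le_lt h3 (t := t) (by linarith)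
  linarith only [e, h2, h7, e', h4, h8]

omit hN in
theorem lt_congr {j : ℕ} {t t' : ℝ} (h : ∀ β ∈ N.B j, β.im ≤ t ↔ β.im ≤ t') :
    N.lt j t = N.lt j t' := by
  unfold lt
  congr 1
  ext τ
  exact ⟨fun ⟨h1, β, hβ, e⟩ => ⟨e ▸ (h β hβ).1 (e ▸ h1), β, hβ, e⟩,
    fun ⟨h1, β, hβ, e⟩ => ⟨e ▸ (h β hβ).2 (e ▸ h1), β, hβ, e⟩⟩

/-- After the time of a band. -/
theorem lt_after {j : ℕ} {β : ℂ} (hβ : β ∈ N.B j) {t : ℝ} (h1 : β.im ≤ t)
    (h2 : t < β.im + 4 * N.ε) : N.lt j t = β.im := by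
  have hε := hN.ε_pos
  obtain ⟨β', hβ', e⟩ := lt_mem hN ⟨β, hβ⟩ t
  have h3 := lt_le hN ⟨β, hβ⟩ t
  have h4 := le_lt hβ h1
  rw [← e]
  exact (Times_sep hN hβ hβ' (by linarith only [hε, e, h4]) (by linarith)).2

/-- Before the time of a band. -/
theorem lt_before {j : ℕ} {β : ℂ} (hβ : β ∈ N.B j) {t : ℝ} (h1 : t < β.im)
    (h2 : β.im - 4 * N.ε < t) : N.lt j t = N.lt j (β.im - N.ε) := by
  have hε := hN.ε_pos
  refine lt_congr fun β' hβ' => ⟨fun h => ?_, fun h => ?_⟩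
  · by_contra h3
    rw [not_le] at h3
    linarith only [h1, h, hN, hβ, hβ', h3, (Times_sep hN hβ hβ' (by linarith) (by linarith)).2]
  · by_contra h3
    rw [not_le] at h3
    linarith only [hε, h, hN, hβ, hβ', h2, h3, (Times_sep hN hβ hβ' (by linarith) (by linarith)).2]

/-- Near the time of a band of another slab. -/
theorem lt_other {j j' : ℕ} {β : ℂ} (hβ : β ∈ N.B j') (hj : j ≠ j') {t : ℝ}
    (h : |t - β.im| < 4 * N.ε) : N.lt j t = N.lt j β.im := by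
  have hε := hN.ε_pos
  obtain ⟨h1, h2⟩ := abs_lt.1 h
  refine lt_congr fun β' hβ' => ⟨fun h => ?_, fun h => ?_⟩
  · by_contra h3
    rw [not_le] at h3
    exact hj (Times_sep hN hβ' hβ (by linarith) (by linarith)).1
  · by_contra h3
    rw [not_le] at h3
    exact hj (Times_sep hN hβ' hβ (by linarith) (by linarith)).1

/-- The previous time determines the time. -/
theorem im_eq_of_prev {j : ℕ} {β β' : ℂ} (hβ : β ∈ N.B j) (hβ' : β' ∈ N.B j)
    (h : N.lt j (β.im - N.ε) = N.lt j (β'.im - N.ε)) : β.im = β'.im := by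
  have hε := hN.ε_pos
  have h1 := lt_le hN ⟨β, hβ⟩ (β.im - N.ε)
  have h2 := lt_le hN ⟨β, hβ⟩ (β'.im - N.ε)
  have h3 : β'.im - N.ε < β.im := not_le.1 fun h3 => by linarith [le_lt hβ h3]
  have h4 : β.im - N.ε < β'.im := not_le.1 fun h4 => by linarith [le_lt hβ' h4]
  exact (Times_sep hN hβ' hβ (by linarith) (by linarith)).2

theorem prev_lt {j : ℕ} {β : ℂ} (hβ : β ∈ N.B j) : N.lt j (β.im - N.ε) < β.im := by
  linarith [lt_le hN ⟨β, hβ⟩ (β.im - N.ε), hN.ε_pos]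

/-- Away from the times of bands `lt` is locally constant. -/
theorem lt_loc {j : ℕ} {t : ℝ} (h : ∀ β ∈ N.B j, β.im ≠ t) :
    ∀ᶠ t' in 𝓝 t, N.lt j t' = N.lt j t := by
  have hε := hN.ε_pos
  by_cases hB : (N.B j).Nonempty
  swap
  · exact Eventually.of_forall fun t' => by rw [lt_empty hB, lt_empty hB]
  obtain ⟨β, hβ, e⟩ := lt_mem hN hB t
  have h1 : N.lt j t < t := (lt_le hN hB t).lt_of_ne (e ▸ h β hβ)
  obtain ⟨u, hu, hu'⟩ : ∃ u, t < u ∧ ∀ γ ∈ N.B j, γ.im < u → γ.im ≤ t := by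
    obtain ⟨β', hβ', e'⟩ := lt_mem hN hB (t + N.ε)
    have h2 := lt_le hN hB (t + N.ε)
    rcases le_or_gt β'.im t with h3 | h3
    · exact ⟨t + N.ε, by linarith, fun γ hγ h4 => by linarith [le_lt hγ h4.le]⟩
    · refine ⟨β'.im, h3, fun γ hγ h4 => not_lt.1 fun h5 => h4.ne ?_⟩
      exact (Times_sep hN hβ' hγ (by linarith) (by linarith)).2
  filter_upwards [Ioo_mem_nhds h1 hu] with t' ht'
  exact lt_congr fun γ hγ => ⟨fun h4 => hu' γ hγ (h4.trans_lt ht'.2),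
    fun h4 => (le_lt hγ h4).trans ht'.1.le⟩

omit hN in
theorem bd_mem {j : ℕ} {β : ℂ} (hβ : β ∈ N.B j) :
    N.bd j β.im ∈ N.B j ∧ (N.bd j β.im).im = β.im := by
  have h : ∃ γ, γ ∈ N.B j ∧ γ.im = β.im := ⟨β, hβ, rfl⟩
  rw [bd, dif_pos h]
  exact h.choose_spec

theorem exists_int_of_im_eq {j : ℕ} {β β' : ℂ} (hβ : β ∈ N.B j) (hβ' : β' ∈ N.B j)
    (h : β.im = β'.im) : ∃ k : ℤ, β' = β + k := by
  have hε := hN.ε_pos
  exact (hN.sep j j β hβ β' hβ' (by rw [h, sub_self, abs_zero]; linarith only [hε])).2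

theorem exists_vec_of_fract_eq {j : ℕ} {β β' : ℂ} (hβ : β ∈ N.B j) (hβ' : β' ∈ N.B j)
    (h : Int.fract β.im = Int.fract β'.im) : ∃ k m : ℤ, β' = β + (k + m * I) := by
  obtain ⟨z, hz⟩ := Int.fract_eq_fract.1 h.symm
  obtain ⟨h1, h2⟩ := Times_shift hN hβ z
  obtain ⟨k, hk⟩ := exists_int_of_im_eq hN h1 hβ' (by linarith only [hz, h2])
  exact ⟨k, z, by rw [hk]; ring⟩

theorem kD_add (j : ℕ) (ζ : ℂ) (k m : ℤ) : N.kD j (ζ + (k + m * I)) = N.kD j ζ + k := by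
  have e1 : (ζ + (k + m * I)).im = ζ.im + m := by simp
  have e2 : (ζ + (k + m * I)).re = ζ.re + k := by simp
  rw [kD, kD, e1, e2]
  by_cases h : ∃ β, β ∈ N.B j ∧ β.im = ζ.im
  · obtain ⟨β, hβ, e⟩ := h
    obtain ⟨h1, h2⟩ := Times_shift hN hβ m
    obtain ⟨h3, h4⟩ := bd_mem hβ
    obtain ⟨h5, h6⟩ := bd_mem h1
    rw [h2, e] at h5 h6
    rw [e] at h3 h4
    obtain ⟨h7, h8⟩ := Times_shift hN h3 m
    obtain ⟨r, hr⟩ := exists_int_of_im_eq hN h7 h5 (by rw [h8, h4, h6])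
    have e3 : (N.bd j (ζ.im + m)).re = (N.bd j ζ.im).re + r := by rw [hr]; simp
    have e4 : ζ.re + k - ((N.bd j ζ.im).re + r) = ζ.re - (N.bd j ζ.im).re + (k - r : ℤ) := by
      push_cast; ring
    rw [e3, e4, Int.floor_add_intCast, Int.floor_add_intCast]
    ring
  · have h' : ¬ ∃ β, β ∈ N.B j ∧ β.im = ζ.im + m := by
      rintro ⟨β, hβ, e⟩
      obtain ⟨h1, h2⟩ := Times_shift hN hβ (-m)
      exact h ⟨_, h1, by rw [h2, e]; push_cast; ring⟩
    rw [bd, bd, dif_neg h, dif_neg h']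
    simp [Int.floor_add_intCast]

omit hN in
theorem ph_add (j : ℕ) (ζ : ℂ) (k m : ℤ) :
    N.ph j (ζ + (k + m * I)) = N.ph j ζ + N.phZ j k m := by
  have e1 : (ζ + (k + m * I)).im = ζ.im + m := by simp
  have e2 : (ζ + (k + m * I)).re = ζ.re + k := by simp
  unfold ph phZ
  rw [e1, e2]
  split_ifs <;> push_cast <;> ring

/-- There is a time at distance at least `ε` from all bands. -/
theorem exists_free_time : ∃ t : ℝ, ∀ j, ∀ β ∈ N.B j, N.ε ≤ |t - β.im| := by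
  have hε := hN.ε_pos
  by_cases h : ∃ j β, β ∈ N.B j
  · obtain ⟨j0, β0, h0⟩ := h
    refine ⟨β0.im + 2 * N.ε, fun j β hβ => not_lt.1 fun h1 => ?_⟩
    obtain ⟨h2, h3⟩ := abs_lt.1 h1
    linarith only [hε, h3, hN, h0, hβ, h2, (Times_sep hN h0 hβ (by linarith) (by linarith)).2]
  · exact ⟨0, fun j β hβ => (h ⟨j, β, hβ⟩).elim⟩

end Nest

end Neuwirth
end

-- merged part: Pool.Agent.Work.MP_d5331a_gt.Side
section
/-!
The cocycle of a side.

Plan for `side_local`. Let `j = J c (sh ρ)`. If `ρ + 1 / 2 = sh ρ` and `sh ρ % 2 = c` use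
`exists_disc` (third case; nearby points have the same centre by `ctr_near`, times are handled by
`lt_other`; `J c (j' + 1) = j' + 1`, `J c j' = j' - 1`). Otherwise `J c (sh ρ)` is locally
constant; if no band of slab `j` has the time of `x` use `lt_loc` (first case); otherwise second
case with `lt_after`, `lt_before`; a nearby point at the same time is not on a neck disc of the
other parity (`exists_disc` and `Good.sep`), and `kD` is locally constant along the time level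
because `re ζ - re (bd j t)` is not an integer (`reg_of_side` gives `bump j ζ ≤ 1 / 2`, while the
bump is `1` at the translates of the band).
`Lt_cocy`: in the three cases the potentials telescope; `prev_lt` separates the two chambers.
`Lt_add`: equality of chambers is invariant (`lt_add_int`, `lt_empty`); `pot` is multiplied on the
left by `T (phZ ..)` (`ph_add`, `T_add`); the label `wl` changes by such factors on both sides
(`ctr_add`, `kD_add`). If the region has no bands (in particular for the regions `0` and `l`) two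
points of the same region have the same chamber, so the second branch with `labD` only occurs for
`1 ≤ j < l`, where `phZ j k m = k`; if `sh ρ = 0` the second branch does not occur either.
`side_cocy`: `down_cocy` with `τ = T`, `side_bot`, `side_top`.
-/

set_option autoImplicit false

open Complex Set Filter Topology

namespace Neuwirth

theorem Side_sh_eq {ρ : ℝ} {i : ℕ} (h1 : (i : ℝ) ≤ ρ + 1 / 2) (h2 : ρ + 1 / 2 < i + 1) :
    sh ρ = i := Nat.floor_eq_on_Ico i _ ⟨h1, h2⟩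

theorem Side_sh_le {ρ : ℝ} (h : 0 ≤ ρ) : (sh ρ : ℝ) ≤ ρ + 1 / 2 := Nat.floor_le (by linarith only [h])

theorem Side_lt_sh (ρ : ℝ) : ρ + 1 / 2 < sh ρ + 1 := Nat.lt_floor_add_one _

theorem Side_J_pos {c i : ℕ} (h : i % 2 = c) : J c i = i := if_pos h

theorem Side_J_neg {c i : ℕ} (h : i % 2 ≠ c) : J c i = i - 1 := if_neg h

theorem Side_near (f : ℂ × ℝ → ℝ) (hf : Continuous f) (x : ℂ × ℝ) {a b : ℝ} (ha : a < f x)
    (hb : f x < b) : ∀ᶠ z in 𝓝 x, a < f z ∧ f z < b :=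
  hf.continuousAt.eventually (Ioo_mem_nhds ha hb)

theorem Side_J_loc {c : ℕ} (hc : c < 2) {x : ℂ × ℝ} (h0 : 0 ≤ x.2)
    (h : ¬ (x.2 + 1 / 2 = sh x.2 ∧ sh x.2 % 2 = c)) :
    ∀ᶠ z in 𝓝 x, J c (sh z.2) = J c (sh x.2) := by
  have h1 := Side_sh_le h0
  have h2 := Side_lt_sh x.2
  rcases h1.eq_or_lt with h3 | h3
  · have h4 : sh x.2 % 2 ≠ c := fun h4 => h ⟨h3.symm, h4⟩
    obtain ⟨i, hi⟩ : ∃ i, sh x.2 = i + 1 := Nat.exists_eq_add_one_of_ne_zero fun h5 => by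
      rw [h5, Nat.cast_zero] at h3
      linarith only [h0, h3]
    rw [hi] at h3 h4 ⊢
    push_cast at h3
    filter_upwards [Side_near (·.2) continuous_snd x (a := i) (b := i + 1) (by linarith only [h3])
      (by linarith only [h3])] with z hz
    rcases le_or_gt x.2 z.2 with h5 | h5
    · rw [Side_sh_eq (i := i + 1) (by push_cast; linarith only [h3, h5]) (by push_cast; linarith only [hz, hz.2])]
    · rw [Side_sh_eq (i := i) (by linarith only [h3, hz, h5, hz.1]) (by linarith only [h3, h5]), Side_J_neg h4,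
        Side_J_pos (by omega), Nat.add_sub_cancel]
  · filter_upwards [Side_near (·.2) continuous_snd x (a := sh x.2 - 1 / 2) (b := sh x.2 + 1 / 2)
      (by linarith only [h3]) (by linarith only [h2])] with z hz
    rw [Side_sh_eq (i := sh x.2) (by linarith only [hz, hz.1]) (by linarith only [hz, hz.2])]

theorem Side_T_conj (a b p q : ℤ) (g : Grp) :
    T (a + p) * g * T (-(b + q)) = T p * (T a * g * T (-b)) * (T q)⁻¹ := by
  rw [add_comm a, T_add, neg_add, T_add, T_neg q]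
  simp only [mul_assoc]

theorem Side_im_add (ζ : ℂ) (k m : ℤ) : (ζ + (k + m * I)).im = ζ.im + m := by simp

namespace Nest

variable {N : Nest} (hN : N.Good)
include hN

omit hN in
theorem Side_Lt_same {c : ℕ} {x z : ℂ × ℝ} (h : N.ch c z = N.ch c x) :
    N.Lt c x z = (N.pot c x)⁻¹ * N.pot c z := if_pos h

omit hN in
theorem Side_Lt_diff {c : ℕ} {x z : ℂ × ℝ} (h : N.ch c z ≠ N.ch c x)
    (h' : J c (sh z.2) = Jm c x) : N.Lt c x z = (N.pot c x)⁻¹ * (N.wl c x)⁻¹ * N.pot c z :=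
  (if_neg h).trans (if_pos h')

omit hN in
/-- The cocycle identity near a wall. -/
theorem Side_wall {c : ℕ} {St : Set (ℂ × ℝ)} {x : ℂ × ℝ} (hx : x ∈ St) (f : ℂ × ℝ → ℝ)
    (hf : Continuous f) {A B : ℕ × ℝ} (hAB : B ≠ A) (hJ : Jm c x = B.1)
    (h : ∀ᶠ z in 𝓝[St] x, (f x ≤ f z → N.ch c z = A) ∧ (f z < f x → N.ch c z = B) ∧
      (f z = f x → N.wl c z = N.wl c x ∧ Jm c z = Jm c x)) :
    ∀ᶠ z in 𝓝[St] x, ∀ᶠ w in 𝓝[St] z, N.Lt c x w = N.Lt c x z * N.Lt c z w := by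
  have hA : N.ch c x = A := (h.self_of_nhdsWithin hx).1 le_rfl
  have hB : ∀ {w : ℂ × ℝ}, N.ch c w = B → J c (sh w.2) = Jm c x := fun hw => by
    rw [hJ, ← hw]
    rfl
  filter_upwards [h, eventually_eventually_nhdsWithin.2 h] with z hz hw
  rcases lt_trichotomy (f z) (f x) with h1 | h1 | h1
  · filter_upwards [hw, nhdsWithin_le_nhds (hf.continuousAt.eventually (gt_mem_nhds h1))]
      with w hw h2
    have e1 := hz.2.1 h1
    have e2 := hw.2.1 h2
    rw [Side_Lt_diff (by rw [e2, hA]; exact hAB) (hB e2),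
      Side_Lt_diff (by rw [e1, hA]; exact hAB) (hB e1), Side_Lt_same (e2.trans e1.symm)]
    group
  · have e1 := hz.1 h1.ge
    filter_upwards [hw] with w hw
    rcases le_or_gt (f x) (f w) with h2 | h2
    · have e2 := hw.1 h2
      rw [Side_Lt_same (e2.trans hA.symm), Side_Lt_same (e1.trans hA.symm),
        Side_Lt_same (e2.trans e1.symm)]
      group
    · have e2 := hw.2.1 h2
      rw [Side_Lt_diff (by rw [e2, hA]; exact hAB) (hB e2), Side_Lt_same (e1.trans hA.symm),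
        Side_Lt_diff (by rw [e2, e1]; exact hAB) ((hB e2).trans (hz.2.2 h1).2.symm),
        (hz.2.2 h1).1]
      group
  · filter_upwards [hw, nhdsWithin_le_nhds (hf.continuousAt.eventually (lt_mem_nhds h1))]
      with w hw h2
    have e1 := hz.1 h1.le
    have e2 := hw.1 h2.le
    rw [Side_Lt_same (e2.trans hA.symm), Side_Lt_same (e1.trans hA.symm),
      Side_Lt_same (e2.trans e1.symm)]
    group

theorem Side_kD_loc {j : ℕ} {β : ℂ} (hβ : β ∈ N.B j) {x : ℂ × ℝ} (ht : β.im = x.1.im)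
    (hb : N.bump j x.1 ≤ 1 / 2) :
    ∀ᶠ z in 𝓝 x, z.1.im = x.1.im → N.kD j z.1 = N.kD j x.1 := by
  obtain ⟨b1, b2⟩ := bd_mem hβ
  rw [ht] at b1 b2
  have h1 : (⌊x.1.re - (N.bd j x.1.im).re⌋ : ℝ) < x.1.re - (N.bd j x.1.im).re := by
    refine (Int.floor_le _).lt_of_ne fun h => ?_
    have h2 := hN.inv j _ b1 ⌊x.1.re - (N.bd j x.1.im).re⌋ 0
    have h3 : N.bd j x.1.im + (⌊x.1.re - (N.bd j x.1.im).re⌋ : ℤ) + (0 : ℤ) * I = x.1 := by
      apply Complex.ext
      · simp only [add_re, intCast_re, h]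
        simp
      · simp [b2]
    rw [h3] at h2
    rw [bump_near hN h2 (by simpa using hN.ε_pos)] at hb
    norm_num at hb
  filter_upwards [Side_near (fun z => z.1.re - (N.bd j x.1.im).re) (by fun_prop) x h1
    (Int.lt_floor_add_one _)] with z hz he
  rw [kD, kD, he, Int.floor_eq_iff.2 ⟨hz.1.le, hz.2⟩]

theorem Side_empty {j : ℕ} (h : j = 0 ∨ j = N.l) : ¬ (N.B j).Nonempty := fun h' => by
  have := (hN.bands j).1 h'
  omega

theorem Side_depth {x : ℂ × ℝ} (hx : x ∈ N.FUp) : 0 < x.2 ∧ x.2 < N.l + 1 :=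
  ⟨by linarith [(depth_of_mem hN hx).1], by linarith [(depth_of_mem hN hx).2]⟩

theorem side_local {c : ℕ} (hc : c < 2) {x : ℂ × ℝ} (hx : x ∈ N.SideUp c) :
    (∀ᶠ z in 𝓝[N.SideUp c] x, N.ch c z = N.ch c x) ∨
    ((∃ β ∈ N.B (J c (sh x.2)), β.im = x.1.im) ∧
      N.wl c x = labD (J c (sh x.2)) x.1.im (N.kD (J c (sh x.2)) x.1) ∧
      Jm c x = J c (sh x.2) ∧
      ∀ᶠ z in 𝓝[N.SideUp c] x, (x.1.im ≤ z.1.im → N.ch c z = (J c (sh x.2), x.1.im)) ∧
        (z.1.im < x.1.im → N.ch c z = (J c (sh x.2), N.lt (J c (sh x.2)) (x.1.im - N.ε))) ∧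
        (z.1.im = x.1.im → N.wl c z = N.wl c x ∧ Jm c z = Jm c x)) ∨
    (∃ j, ∃ β ∈ N.B j, j % 2 ≠ c ∧ x.2 = j + 1 / 2 ∧ ‖x.1 - β‖ ≤ N.ε / 2 ∧
      N.wl c x = N.labE j β ∧ Jm c x = j - 1 ∧
      ∀ᶠ z in 𝓝[N.SideUp c] x, (x.2 ≤ z.2 → N.ch c z = (j + 1, N.lt (j + 1) β.im)) ∧
        (z.2 < x.2 → N.ch c z = (j - 1, N.lt (j - 1) β.im)) ∧
        (z.2 = x.2 → N.wl c z = N.wl c x ∧ Jm c z = Jm c x)) := by
  have hε := hN.ε_pos
  by_cases hA : x.2 + 1 / 2 = sh x.2 ∧ sh x.2 % 2 = c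
  · obtain ⟨j, β, hβ, hj, hd⟩ := exists_disc hN hc hx hA.1 hA.2
    have h1 := hA.1
    have h2 := hA.2
    rw [hj] at h1 h2
    push_cast at h1
    have hj1 := (band_range hN hβ).1
    have hw : ∀ z : ℂ × ℝ, z.2 = x.2 → ‖z.1 - β‖ < N.ε → N.wl c z = N.labE j β := fun z e hz => by
      rw [wl, e, if_pos hA, hj, ctr_near hN hβ hz, Nat.add_sub_cancel]
    refine Or.inr (Or.inr ⟨j, β, hβ, by omega, by linarith only [h1], hd, hw x rfl (by linarith only [hε, hd]), ?_, ?_⟩)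
    · rw [Jm, if_pos hA, hj]
      rfl
    · refine nhdsWithin_le_nhds ?_
      filter_upwards [Side_near (·.2) continuous_snd x (a := j) (b := j + 1) (by linarith only [h1])
        (by linarith only [h1]), Side_near (fun z => ‖z.1 - β‖) (by fun_prop) x (a := -1) (b := N.ε)
        (by linarith only [norm_nonneg (x.1 - β)]) (by linarith only [hε, hd])] with z hz hb
      have h3 : |z.1.im - β.im| < 4 * N.ε := by
        have := abs_im_le_norm (z.1 - β)
        rw [sub_im] at this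
        linarith only [hε, hb, this, hb.2]
      refine ⟨fun h => ?_, fun h => ?_, fun h => ⟨?_, ?_⟩⟩
      · rw [ch, Side_sh_eq (i := j + 1) (by push_cast; linarith only [h1, h]) (by push_cast; linarith only [hz, hz.2]),
          Side_J_pos h2, lt_other hN hβ (by omega) h3]
      · rw [ch, Side_sh_eq (i := j) (by linarith only [h1, hz, h, hz.1]) (by linarith only [h1, h]), Side_J_neg (by omega),
          lt_other hN hβ (by omega) h3]
      · rw [hw z h hb.2, hw x rfl (by linarith only [hε, hd])]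
      · rw [Jm, Jm, h]
  have hJ := Side_J_loc hc hx.1 hA
  by_cases hB : ∃ β ∈ N.B (J c (sh x.2)), β.im = x.1.im
  · refine Or.inr (Or.inl ⟨hB, if_neg hA, if_neg hA, ?_⟩)
    obtain ⟨β, hβ, ht⟩ := hB
    filter_upwards [self_mem_nhdsWithin, nhdsWithin_le_nhds hJ,
      nhdsWithin_le_nhds (Side_kD_loc hN hβ ht (reg_of_side hN hc hx).2.2.1),
      nhdsWithin_le_nhds (Side_near (fun z => z.1.im) (by fun_prop) x (a := x.1.im - N.ε)
        (b := x.1.im + N.ε) (by linarith only [hε]) (by linarith))] with z hz e1 e2 e3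
    refine ⟨fun h => ?_, fun h => ?_, fun h => ?_⟩
    · rw [ch, e1, lt_after hN hβ (by linarith) (by linarith only [hε, ht, e3, e3.2]), ht]
    · rw [ch, e1, lt_before hN hβ (by linarith) (by linarith [e3.1]), ht]
    · have hz' : ¬ (z.2 + 1 / 2 = sh z.2 ∧ sh z.2 % 2 = c) := fun hh => by
        obtain ⟨j, β', hβ', hj, hd⟩ := exists_disc hN hc hz hh.1 hh.2
        have h3 := abs_im_le_norm (z.1 - β')
        rw [sub_im, h, ← ht] at h3
        have h4 := (hN.sep _ _ β hβ β' hβ' (by linarith only [hε, hd, h3])).1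
        rw [← e1, Side_J_pos hh.2] at h4
        omega
      rw [wl, wl, Jm, Jm, if_neg hz', if_neg hz', if_neg hA, if_neg hA, e1, e2 h, h]
      exact ⟨rfl, rfl⟩
  · refine Or.inl (nhdsWithin_le_nhds ?_)
    have h1 : ContinuousAt (fun z : ℂ × ℝ => z.1.im) x := by fun_prop
    filter_upwards [hJ, h1.eventually (lt_loc hN fun β hβ h => hB ⟨β, hβ, h⟩)] with z e1 e2
    rw [ch, ch, e1, e2]

theorem Lt_cocy {c : ℕ} (hc : c < 2) : CocyOn (N.SideUp c) (N.Lt c) := by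
  refine ⟨fun x => by rw [Side_Lt_same rfl, inv_mul_cancel], fun x hx => ?_⟩
  rcases side_local hN hc hx with h | ⟨⟨β, hβ, ht⟩, -, hJ, h⟩ | ⟨j, β, -, -, -, -, -, hJ, h⟩
  · filter_upwards [h, eventually_eventually_nhdsWithin.2 h] with z e1 hw
    filter_upwards [hw] with w e2
    rw [Side_Lt_same e2, Side_Lt_same e1, Side_Lt_same (e2.trans e1.symm)]
    group
  · refine Side_wall hx (fun z => z.1.im) (by fun_prop) (fun e => ?_) hJ h
    have h1 := prev_lt hN hβ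
    rw [ht] at h1
    exact h1.ne (congrArg Prod.snd e)
  · refine Side_wall hx (fun z => z.2) continuous_snd (fun e => ?_) hJ h
    have h1 : j - 1 = j + 1 := congrArg Prod.fst e
    omega

theorem pot_add (c : ℕ) (x : ℂ × ℝ) (k m : ℤ) :
    N.pot c (x + vec k m) = T (N.phZ (J c (sh x.2)) k m) * N.pot c x := by
  rw [vec_add, pot, pot, ← T_add]
  simp only [ph_add, Int.floor_add_intCast, add_comm]

theorem Lt_add (c : ℕ) (x z : ℂ × ℝ) (k m : ℤ) :
    N.Lt c (x + vec k m) (z + vec k m) = N.Lt c x z := by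
  have hch : N.ch c (z + vec k m) = N.ch c (x + vec k m) ↔ N.ch c z = N.ch c x := by
    simp only [vec_add, ch, Side_im_add, Prod.mk.injEq]
    refine and_congr_right fun e => ?_
    rw [e]
    by_cases h : (N.B (J c (sh x.2))).Nonempty
    · rw [lt_add_int hN h, lt_add_int hN h, add_left_inj]
    · simp only [lt_empty h]
  by_cases h : N.ch c z = N.ch c x
  · have e : J c (sh z.2) = J c (sh x.2) := congrArg Prod.fst h
    rw [Side_Lt_same (hch.2 h), Side_Lt_same h, pot_add hN, pot_add hN, e]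
    group
  have e1 : (z + vec k m).2 = z.2 := by rw [vec_add]
  have e2 : Jm c (x + vec k m) = Jm c x := by rw [vec_add]; rfl
  by_cases h' : J c (sh z.2) = Jm c x
  swap
  · rw [Lt, Lt, if_neg h, if_neg h', if_neg (mt hch.1 h), e1, e2, if_neg h']
  have hne : J c (sh z.2) = J c (sh x.2) → (N.B (J c (sh x.2))).Nonempty := fun e => by
    by_contra h1
    exact h (by rw [ch, ch, e, lt_empty h1, lt_empty h1])
  have key : N.wl c (x + vec k m) =
      T (N.phZ (J c (sh z.2)) k m) * N.wl c x * (T (N.phZ (J c (sh x.2)) k m))⁻¹ := by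
    rw [vec_add]
    by_cases hA : x.2 + 1 / 2 = sh x.2 ∧ sh x.2 % 2 = c
    · rw [Jm, if_pos hA] at h'
      rw [Side_J_pos hA.2] at hne
      have h1 : sh x.2 ≠ 0 := fun h1 => Side_empty hN (Or.inl h1) (hne (by omega))
      rw [wl, wl, if_pos hA, if_pos hA, h', Side_J_pos hA.2]
      simp only [labE, ctr_add hN, ph_add, Int.floor_add_intCast, Side_im_add,
        Int.fract_add_intCast]
      rw [Side_T_conj, show sh x.2 - 1 - 1 = sh x.2 - 2 by omega,
        show sh x.2 - 1 + 1 = sh x.2 by omega]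
    · rw [Jm, if_neg hA] at h'
      have h1 := (hN.bands _).1 (hne h')
      have h2 : N.phZ (J c (sh x.2)) k m = k := by
        rw [phZ, if_neg (by omega), if_neg (by omega)]
      rw [wl, wl, if_neg hA, if_neg hA, h', h2]
      simp only [labD, kD_add hN, Side_im_add, Int.fract_add_intCast]
      rw [Side_T_conj]
  rw [Side_Lt_diff (mt hch.1 h) (by rw [e1, e2, h']), Side_Lt_diff h h', pot_add hN, pot_add hN,
    key]
  group

theorem side_cocy {c : ℕ} (hc : c < 2) : CocyOn (N.side c) (N.down (N.Lt c)) := by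
  refine down_cocy hN _ _ (fun x k m hx => (SideUp_add hN c x k m).2 hx)
    (fun x hx => ⟨hx.1, hx.2.1⟩) (Lt_add hN c) (Lt_cocy hN hc) T T_add ?_ ?_
  · rintro ⟨x, hx, h0⟩ y z y0 y1 z0 z1
    obtain rfl := side_bot hN hx h0
    have e : ∀ {ρ : ℝ}, 0 ≤ ρ → ρ < 1 / 2 → J 0 (sh ρ) = 0 := fun a b => by
      rw [Side_sh_eq (i := 0) (by push_cast; linarith only [a]) (by push_cast; linarith only [b])]
      rfl
    have h := Side_empty hN (Or.inl rfl)
    rw [Side_Lt_same (by rw [ch, ch, e y0 y1, e z0 z1, lt_empty h, lt_empty h]), pot, pot,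
      e y0 y1, e z0 z1, ph, ph, if_pos rfl, if_pos rfl]
  · rintro ⟨x, hx, h0⟩ y z y0 y1 z0 z1
    obtain rfl := side_top hN hx h0
    have e : ∀ {ρ : ℝ}, N.l + 1 / 2 < ρ → ρ ≤ N.l + 1 → J (N.l % 2) (sh ρ) = N.l := fun a b => by
      rw [Side_sh_eq (i := N.l + 1) (by push_cast; linarith only [a]) (by push_cast; linarith only [b]),
        Side_J_neg (by omega), Nat.add_sub_cancel]
    have h := Side_empty hN (Or.inr rfl)
    have hl : N.l ≠ 0 := by have := hN.two_le; omega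
    rw [Side_Lt_same (by rw [ch, ch, e y0 y1, e z0 z1, lt_empty h, lt_empty h]), pot, pot,
      e y0 y1, e z0 z1, ph, ph, if_neg hl, if_neg hl, if_pos rfl, if_pos rfl]

theorem isClosed_side (c : ℕ) : IsClosed (N.side c) := by
  exact (isCompact_image (fun x k m hx => (SideUp_add hN c x k m).2 hx)
    (fun x hx => ⟨hx.1, hx.2.1⟩) (isClosed_SideUp hN c)).isClosed

theorem side_union : N.side 0 ∪ N.side 1 = univ := by
  refine eq_univ_of_forall fun p => ?_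
  rcases side_cover hN (x := N.sec 0 p) (rho_mem p).1 (rho_mem p).2 with h | h
  · exact Or.inl ⟨_, h, E_sec hN 0 p⟩
  · exact Or.inr ⟨_, h, E_sec hN 0 p⟩

theorem side_inter_side : N.side 0 ∩ N.side 1 = N.surf := by
  refine Subset.antisymm ?_ (subset_inter (image_mono (FUp_sub_side hN zero_lt_two))
    (image_mono (FUp_sub_side hN one_lt_two)))
  rintro _ ⟨⟨x, hx, rfl⟩, y, hy, e⟩
  have e2 : y.2 = x.2 := by rw [← rho_E hy.1 hy.2.1, e, rho_E hx.1 hx.2.1]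
  have h0 : 0 < x.2 := hx.1.lt_of_ne fun h => one_ne_zero (side_bot hN hy (e2.trans h.symm))
  have h1 : x.2 < N.l + 1 := hx.2.1.lt_of_ne fun h =>
    zero_ne_one ((side_top hN hx h).trans (side_top hN hy (e2.trans h)).symm)
  have h2 := (E_mem_image hN (fun x k m hx => (SideUp_add hN 1 x k m).2 hx)
    (fun x hx => ⟨hx.1, hx.2.1⟩) h0 h1).1 ⟨y, hy, e⟩
  exact ⟨x, side_inter hN ▸ ⟨hx, h2⟩, rfl⟩

theorem isCompact_surf : IsCompact N.surf := by
  exact isCompact_image (fun x k m hx => (FUp_add hN x k m).2 hx)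
    (fun x hx => ⟨(Side_depth hN hx).1.le, (Side_depth hN hx).2.le⟩) (isClosed_FUp hN)

theorem image_YUp : N.E '' N.YUp = N.surf \ N.knot := by
  refine Subset.antisymm ?_ ?_
  · rintro _ ⟨x, hx, rfl⟩
    refine ⟨⟨x, hx.1, rfl⟩, fun h => hx.2 ?_⟩
    exact (E_mem_image hN (fun x k m hx => (knotUp_add hN x k m).2 hx)
      (fun x hx => ⟨(Side_depth hN (knot_sub hN hx)).1.le, (Side_depth hN (knot_sub hN hx)).2.le⟩)
      (Side_depth hN hx.1).1 (Side_depth hN hx.1).2).1 h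
  · rintro _ ⟨⟨x, hx, rfl⟩, h⟩
    exact ⟨x, ⟨hx, fun h' => h ⟨x, h', rfl⟩⟩, rfl⟩

/-- The projection of the surface minus the knot. -/
noncomputable def pr : C(↥N.YUp, ↥(N.surf \ N.knot)) :=
  ⟨fun x => ⟨N.E x, image_YUp hN ▸ mem_image_of_mem _ x.2⟩,
    (continuous_E.comp continuous_subtype_val).subtype_mk _⟩

theorem pr_surjective : Function.Surjective (pr hN) := by
  rintro ⟨p, hp⟩
  obtain ⟨x, hx, rfl⟩ : p ∈ N.E '' N.YUp := (image_YUp hN).symm ▸ hp
  exact ⟨⟨x, hx⟩, rfl⟩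

/-- Local sections of the projection through every point (`sec` and `sec_add`). -/
theorem pr_sections (y : ↥(N.surf \ N.knot)) : ∃ U ∈ 𝓝 y, ∀ z : ↥N.YUp, pr hN z ∈ U →
    ∃ s : ↥(N.surf \ N.knot) → ↥N.YUp, ContinuousOn s U ∧ s (pr hN z) = z ∧
      ∀ u ∈ U, pr hN (s u) = u := by
  obtain ⟨x, rfl⟩ := pr_surjective hN y
  have hd : ∀ z : ↥N.YUp, 0 < (N.sec x (N.E z)).2 ∧ (N.sec x (N.E z)).2 < N.l + 1 := fun z => by
    have h := Side_depth hN z.2.1
    have e : (N.sec x (N.E z)).2 = z.1.2 := rho_E h.1.le h.2.le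
    rwa [e]
  have hm : ∀ u : ↥(N.surf \ N.knot), N.sec x u ∈ N.YUp := fun u => by
    obtain ⟨z, rfl⟩ := pr_surjective hN u
    exact (E_mem_image hN (fun x k m hx => (YUp_add hN x k m).2 hx)
      (fun x hx => ⟨(Side_depth hN hx.1).1.le, (Side_depth hN hx.1).2.le⟩) (hd z).1 (hd z).2).1
      ⟨z, z.2, (E_sec hN _ _).symm⟩
  refine ⟨{u | ContinuousAt (N.sec x) u}, continuous_subtype_val.continuousAt.eventually
    (sec_continuousAt hN (Side_depth hN x.2.1).1 (Side_depth hN x.2.1).2), fun z _ => ?_⟩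
  obtain ⟨k, m, e⟩ := E_eq hN (hd z).1 (hd z).2 (Side_depth hN z.2.1).1.le
    (Side_depth hN z.2.1).2.le (E_sec hN _ _)
  refine ⟨fun u => ⟨N.sec x u + vec k m, (YUp_add hN _ k m).2 (hm u)⟩, fun u hu => ?_,
    Subtype.ext e.symm, fun u _ => Subtype.ext ((E_add _ k m).trans (E_sec hN _ _))⟩
  refine ContinuousAt.continuousWithinAt (Topology.IsInducing.subtypeVal.continuousAt_iff.2 ?_)
  exact (ContinuousAt.comp (f := fun u : ↥(N.surf \ N.knot) => (u : S3)) hu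
    continuous_subtype_val.continuousAt).add continuousAt_const

end Nest

end Neuwirth
end

-- merged part: Pool.Agent.Work.MP_d5331a_gt.Simply
section
/-!
Gaps and strips are simply connected.

Plan for gaps. The map `ζ ↦ (tw i (-1) ζ, hgt i ζ)` is an embedding of the plane (`twH`,
`hgt_tw`, `bump_tw`) that sends
`A = {ζ | bump i ζ ≤ 1 / 2, bump (i - 1) ζ ≤ 1 / 2, a < n (re ζ - α (im ζ)) < a + 1}` onto the gap
(`Topology.IsEmbedding.isSimplyConnected_image`). `A` contracts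
(`isSimplyConnected_of_contraction`): first move horizontally to the middle curve
`re ζ = α (im ζ) + (a + 1 / 2) / n`, then along it. Moving horizontally towards the middle does not
enter a disc of radius `ε / 2` around a band `β` of slab `i` or `i - 1`: such a band lies on a
strand `n (re β - α (im β)) = k` with `k ≤ a` or `k ≥ a + 1`, and `α` is constant for times within
`2 ε` of `im β` (`Good.align`), so `|re ζ - re β|` does not decrease or stays at least `1 / (2 n)`.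
Plan for strips. With `s = ρ - j - 1 / 2`, `w = (ζ - β) exp (-i e π s)`, the strip is the image of
the convex set `{w | 0 < σ im w} × (-1 / 2, 1 / 2)` under
`(w, s) ↦ (β + (ε / 2 + ε |s|) (w / ‖w‖) exp (i e π s), j + 1 / 2 + s)`, and `x ↦ (w, s)` is a
continuous section; use straight segments in the convex set.
-/

set_option autoImplicit false

open Complex Set Filter Topology

namespace Neuwirth

lemma simply_abs {D e l : ℝ} (hD : 1 / 2 ≤ |D|) (he : |e| < 1 / 2) (h0 : 0 ≤ l) (h1 : l ≤ 1) :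
    1 / 2 ≤ |D + l * e| ∨ |D + e| ≤ |D + l * e| := by
  rw [abs_lt] at he
  rcases le_abs.1 hD with h | h <;> rcases le_total 0 e with h' | h'
  · left; exact le_abs.2 (Or.inl (by linarith only [h, h0, h', mul_nonneg_of_nonpos_of_nonpos (Mathlib.Tactic.Linarith.sub_nonpos_of_le h0) (Mathlib.Tactic.Linarith.sub_nonpos_of_le h')]))
  · right; rw [abs_of_pos (by linarith only [he, h])]; exact le_abs.2 (Or.inl (by linarith only [h1, h', mul_nonneg_of_nonpos_of_nonpos (Mathlib.Tactic.Linarith.sub_nonpos_of_le h1) (Mathlib.Tactic.Linarith.sub_nonpos_of_le h')]))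
  · right; rw [abs_of_neg (by linarith only [he, h])]; exact le_abs.2 (Or.inr (by linarith only [h1, h', mul_nonneg_of_nonpos_of_nonpos (Mathlib.Tactic.Linarith.sub_nonpos_of_le h1) (Mathlib.Tactic.Linarith.sub_nonpos_of_le h')]))
  · left; exact le_abs.2 (Or.inr (by linarith only [h, h0, h', mul_nonneg_of_nonpos_of_nonpos (Mathlib.Tactic.Linarith.sub_nonpos_of_le h0) (Mathlib.Tactic.Linarith.sub_nonpos_of_le h')]))

lemma simply_half (k : ℤ) : (1 : ℝ) / 2 ≤ |(k : ℝ) + 1 / 2| := by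
  rcases le_or_gt 0 k with h | h
  · have : (0 : ℝ) ≤ k := by exact_mod_cast h
    exact le_abs.2 (Or.inl (by linarith only [this]))
  · have : (k : ℝ) ≤ -1 := by exact_mod_cast (by omega : k ≤ -1)
    exact le_abs.2 (Or.inr (by linarith only [this]))

namespace Nest

/-- The point at time `τ` and offset `e` from the middle of the gap. -/
noncomputable def simplyPt (N : Nest) (i : ℕ) (a : ℤ) (τ e : ℝ) : ℂ :=
  ((N.α i τ + (a + 1 / 2 + e) / N.n i : ℝ) : ℂ) + (τ : ℂ) * I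

lemma simplyPt_re (N : Nest) (i : ℕ) (a : ℤ) (τ e : ℝ) :
    (N.simplyPt i a τ e).re = N.α i τ + (a + 1 / 2 + e) / N.n i := by
  simp only [simplyPt, add_re, ofReal_re, mul_re, I_re, ofReal_im, I_im]; ring

lemma simplyPt_im (N : Nest) (i : ℕ) (a : ℤ) (τ e : ℝ) : (N.simplyPt i a τ e).im = τ := by
  simp only [simplyPt, add_im, ofReal_re, mul_im, I_re, ofReal_im, I_im]; ring

/-- The untwisted vector of a point of a tube. -/
noncomputable def simplyW (N : Nest) (j : ℕ) (β : ℂ) (x : ℂ × ℝ) : ℂ :=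
  (x.1 - β) * exp (((-(N.e j * Real.pi * (x.2 - j - 1 / 2)) : ℝ) : ℂ) * I)

/-- The point of a tube with direction `w` and depth `ρ`. -/
noncomputable def simplyF (N : Nest) (j : ℕ) (β : ℂ) (w : ℂ) (ρ : ℝ) : ℂ × ℝ :=
  (β + (((N.ε / 2 + N.ε * |ρ - j - 1 / 2|) / ‖w‖ : ℝ) : ℂ) * w *
    exp (((N.e j * Real.pi * (ρ - j - 1 / 2) : ℝ) : ℂ) * I), ρ)

/-- The segment between two points of a strip. -/
noncomputable def simplySeg (N : Nest) (j : ℕ) (β : ℂ) (y : ℂ × ℝ) (u : ℝ × (ℂ × ℝ)) : ℂ × ℝ :=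
  N.simplyF j β (((1 - u.1 : ℝ) : ℂ) * N.simplyW j β u.2 + (u.1 : ℂ) * N.simplyW j β y)
    ((1 - u.1) * u.2.2 + u.1 * y.2)

lemma simply_exp (r : ℝ) : exp (((-r : ℝ) : ℂ) * I) * exp ((r : ℂ) * I) = 1 := by
  rw [← exp_add]; simp

variable {N : Nest} (hN : N.Good)
include hN

lemma simply_bump {j : ℕ} {ζ : ℂ} : N.bump j ζ ≤ 1 / 2 ↔ ∀ β ∈ N.B j, N.ε / 2 ≤ ‖ζ - β‖ := by
  have he := hN.ε_pos
  constructor
  · intro h β hβ
    by_contra hc
    rw [not_le] at hc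
    rw [bump_near hN hβ (by linarith only [he, hc])] at h
    have h1 : ‖ζ - β‖ / N.ε < 1 / 2 := by rw [div_lt_iff₀ he]; linarith only [hc]
    linarith only [h, h1, le_max_right 0 (1 - ‖ζ - β‖ / N.ε)]
  · intro h
    by_cases h0 : N.bump j ζ = 0
    · rw [h0]; norm_num
    obtain ⟨β, hβ, h1⟩ := exists_of_bump_ne h0
    rw [bump_near hN hβ (by linarith)]
    have h2 : 1 / 2 ≤ ‖ζ - β‖ / N.ε := by rw [le_div_iff₀ he]; linarith only [h, hβ, h β hβ]
    exact max_le (by norm_num) (by linarith only [h2])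

lemma simply_move {i j : ℕ} (h2 : i ≤ N.l) (hi : i = j ∨ i = j + 1) (a : ℤ) {τ e l : ℝ}
    (he : |e| < 1 / 2) (h0 : 0 ≤ l) (h1 : l ≤ 1)
    (h : l = 0 ∨ N.bump j (N.simplyPt i a τ e) ≤ 1 / 2) :
    N.bump j (N.simplyPt i a τ (l * e)) ≤ 1 / 2 := by
  have hε := hN.ε_pos
  have hn : (0 : ℝ) < N.n i := by exact_mod_cast hN.n_pos i
  rw [simply_bump hN]
  intro β hβ
  by_contra hc
  rw [not_le] at hc
  have him := (abs_im_le_norm _).trans_lt hc
  have hre := (abs_re_le_norm _).trans_lt hc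
  rw [sub_im, simplyPt_im] at him
  have hα : N.α i τ = N.α i β.im := by
    have := (hN.align j β hβ).2.2 τ (by linarith only [hε, him])
    rcases hi with rfl | rfl
    · exact this.1
    · exact this.2
  have hk := ind_eq hN hβ hi
  have key : ∀ e', (N.simplyPt i a τ e' - β).re =
      (((a - N.ind i β : ℤ) : ℝ) + 1 / 2 + e') / N.n i := fun e' => by
    rw [sub_re, simplyPt_re, hα]
    push_cast
    rw [hk]
    field_simp
    ring
  have hbig : ¬ (1 / 2 ≤ |((a - N.ind i β : ℤ) : ℝ) + 1 / 2 + l * e|) := fun hb => by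
    rw [key, abs_div, abs_of_pos hn, div_lt_iff₀ hn] at hre
    have := hN.ε_le i h2
    linarith only [hre, hb, this]
  rcases h with h | h
  · exact hbig (by rw [h, zero_mul, add_zero]; exact simply_half _)
  rcases simply_abs (simply_half (a - N.ind i β)) he h0 h1 with h3 | h3
  · exact hbig h3
  have h4 : ‖N.simplyPt i a τ e - β‖ ≤ ‖N.simplyPt i a τ (l * e) - β‖ := by
    have h5 : |(N.simplyPt i a τ e - β).re| ≤ |(N.simplyPt i a τ (l * e) - β).re| := by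
      rw [key, key, abs_div, abs_div]
      exact div_le_div_of_nonneg_right h3 (abs_nonneg _)
    have h6 : (N.simplyPt i a τ e - β).im = (N.simplyPt i a τ (l * e) - β).im := by
      simp only [sub_im, simplyPt_im]
    rw [norm_eq_sqrt_sq_add_sq, norm_eq_sqrt_sq_add_sq, h6]
    exact Real.sqrt_le_sqrt (by linarith only [h5, sq_le_sq.2 h5])
  linarith only [hc, h4, hN, h, hβ, (simply_bump hN).1 h β hβ]

lemma simply_tw (i : ℕ) (ζ : ℂ) : N.tw i 1 (N.tw i (-1) ζ) = ζ := by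
  simpa using tw_tw hN i (-1) ζ

lemma simply_mem {i : ℕ} {a : ℤ} {τ e : ℝ} (he : |e| < 1 / 2)
    (h : N.bump i (N.simplyPt i a τ e) ≤ 1 / 2)
    (h' : N.bump (i - 1) (N.simplyPt i a τ e) ≤ 1 / 2) :
    (N.tw i (-1) (N.simplyPt i a τ e), N.hgt i (N.simplyPt i a τ e)) ∈ N.Gap i a := by
  have hn : (0 : ℝ) < N.n i := by exact_mod_cast hN.n_pos i
  have h1 : N.lin i (N.tw i (-1) (N.simplyPt i a τ e)) = a + 1 / 2 + e := by
    rw [lin, simply_tw hN, simplyPt_re, simplyPt_im]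
    field_simp
    ring
  rw [abs_lt] at he
  refine ⟨⟨?_, ?_, ?_⟩, ?_, ?_⟩
  · rwa [bump_tw hN]
  · rwa [bump_tw hN]
  · exact (hgt_tw hN _ _ _ _).symm
  · rw [h1]; linarith only [he]
  · rw [h1]; linarith only [he]

lemma simply_pt (i : ℕ) (a : ℤ) (ζ : ℂ) :
    N.simplyPt i a (N.tw i 1 ζ).im (N.lin i ζ - a - 1 / 2) = N.tw i 1 ζ := by
  have hn : (0 : ℝ) < N.n i := by exact_mod_cast hN.n_pos i
  apply Complex.ext
  · rw [simplyPt_re, lin]
    field_simp
    ring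
  · rw [simplyPt_im]

lemma simplyF_W {j : ℕ} {β : ℂ} {σ : ℝ} {x : ℂ × ℝ} (hx : x ∈ N.Strip j β σ) :
    N.simplyF j β (N.simplyW j β x) x.2 = x := by
  have hε := hN.ε_pos
  have h1 : ‖N.simplyW j β x‖ = N.ε / 2 + N.ε * |x.2 - j - 1 / 2| := by
    rw [simplyW, norm_mul, norm_exp_ofReal_mul_I, mul_one, hx.2.1]
  refine Prod.ext ?_ rfl
  have h2 : 0 < N.ε / 2 + N.ε * |x.2 - j - 1 / 2| := by positivity
  simp only [simplyF]
  rw [h1, div_self h2.ne', ofReal_one, one_mul, simplyW, mul_assoc, simply_exp]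
  ring

lemma simplyF_mem {j : ℕ} {β : ℂ} {σ : ℝ} {w : ℂ} {ρ : ℝ} (hw : 0 < σ * w.im)
    (hρ : |ρ - j - 1 / 2| < 1 / 2) : N.simplyF j β w ρ ∈ N.Strip j β σ := by
  have hε := hN.ε_pos
  have hw0 : 0 < ‖w‖ := norm_pos_iff.2 fun h => by simp [h] at hw
  have h2 : 0 < N.ε / 2 + N.ε * |ρ - j - 1 / 2| := by positivity
  refine ⟨hρ, ?_, ?_⟩
  · simp only [simplyF]
    rw [add_sub_cancel_left, norm_mul, norm_mul, norm_exp_ofReal_mul_I, norm_real,
      Real.norm_of_nonneg (by positivity)]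
    field_simp
  · simp only [simplyF]
    rw [add_sub_cancel_left, mul_assoc, mul_comm (exp _), simply_exp, mul_one, im_ofReal_mul,
      mul_left_comm]
    positivity

omit hN in
lemma simply_im {j : ℕ} {β : ℂ} {σ : ℝ} {x y : ℂ × ℝ} (hx : x ∈ N.Strip j β σ)
    (hy : y ∈ N.Strip j β σ) {t : ℝ} (ht : t ∈ Icc (0 : ℝ) 1) :
    0 < σ * (((1 - t : ℝ) : ℂ) * N.simplyW j β x + (t : ℂ) * N.simplyW j β y).im := by
  have h1 : 0 < σ * (N.simplyW j β x).im := hx.2.2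
  have h2 : 0 < σ * (N.simplyW j β y).im := hy.2.2
  rw [add_im, im_ofReal_mul, im_ofReal_mul]
  rcases ht.1.eq_or_lt with h | h
  · rw [← h]; linarith
  · linarith only [ht, h1, h, h2, mul_nonneg (sub_nonneg.2 ht.2) h1.le, mul_pos h h2]

lemma simplySeg_mem {j : ℕ} {β : ℂ} {σ : ℝ} {x y : ℂ × ℝ} (hx : x ∈ N.Strip j β σ)
    (hy : y ∈ N.Strip j β σ) {t : ℝ} (ht : t ∈ Icc (0 : ℝ) 1) :
    N.simplySeg j β y (t, x) ∈ N.Strip j β σ := by
  refine simplyF_mem hN (simply_im hx hy ht) ?_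
  have h1 := abs_lt.1 hx.1
  have h2 := abs_lt.1 hy.1
  have h3 := sub_nonneg.2 ht.2
  rw [abs_lt]
  rcases ht.1.eq_or_lt with h | h
  · rw [← h]; constructor <;> simp only <;> linarith only [h1, h1.1, h1.2]
  · constructor <;> simp only
    · linarith only [h3, h1, h, h2, mul_nonneg h3 (sub_pos.2 h1.1).le, mul_pos h (sub_pos.2 h2.1)]
    · linarith only [h3, h1, h, h2, mul_nonneg h3 (sub_pos.2 h1.2).le, mul_pos h (sub_pos.2 h2.2)]

omit hN in
lemma simplySeg_cont {j : ℕ} {β : ℂ} {σ : ℝ} {y : ℂ × ℝ} (hy : y ∈ N.Strip j β σ) :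
    ContinuousOn (N.simplySeg j β y) (Icc 0 1 ×ˢ N.Strip j β σ) := by
  have h1 : Continuous fun u : ℝ × (ℂ × ℝ) =>
      ((1 - u.1 : ℝ) : ℂ) * N.simplyW j β u.2 + (u.1 : ℂ) * N.simplyW j β y := by
    unfold simplyW; fun_prop
  unfold simplySeg simplyF
  refine ContinuousOn.prodMk (continuousOn_const.add (ContinuousOn.mul (ContinuousOn.mul
    (continuous_ofReal.comp_continuousOn (ContinuousOn.div (by fun_prop) h1.norm.continuousOn ?_))
    h1.continuousOn) (by fun_prop))) (by fun_prop)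
  intro u hu h
  have := simply_im hu.2 hy hu.1
  rw [norm_eq_zero.1 h] at this
  simp at this

lemma simplySeg_zero {j : ℕ} {β : ℂ} {σ : ℝ} {x : ℂ × ℝ} (hx : x ∈ N.Strip j β σ) (y : ℂ × ℝ) :
    N.simplySeg j β y (0, x) = x := by
  simpa [simplySeg] using simplyF_W hN hx

lemma simplySeg_one {j : ℕ} {β : ℂ} {σ : ℝ} {y : ℂ × ℝ} (hy : y ∈ N.Strip j β σ) (x : ℂ × ℝ) :
    N.simplySeg j β y (1, x) = y := by
  simpa [simplySeg] using simplyF_W hN hy

lemma simply_join {j : ℕ} {β : ℂ} {σ : ℝ} {x y : ℂ × ℝ} (hx : x ∈ N.Strip j β σ)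
    (hy : y ∈ N.Strip j β σ) {T : Set (ℂ × ℝ)}
    (hT : ∀ t ∈ Icc (0 : ℝ) 1, ∀ z : ℂ × ℝ, z.2 = (1 - t) * x.2 + t * y.2 → z ∈ T) :
    JoinedIn (N.Strip j β σ ∩ T) x y := by
  refine JoinedIn.ofLine (f := fun t => N.simplySeg j β y (t, x))
    ((simplySeg_cont hy).comp (by fun_prop) fun t ht => ⟨ht, hx⟩) (simplySeg_zero hN hx y)
    (simplySeg_one hN hy x) ?_
  rintro _ ⟨t, ht, rfl⟩
  exact ⟨simplySeg_mem hN hx hy ht, hT t ht _ rfl⟩

theorem gap_simply {i : ℕ} (h1 : 1 ≤ i) (h2 : i ≤ N.l) (a : ℤ) :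
    IsSimplyConnected (N.Gap i a) := by
  have hi : i = i - 1 ∨ i = i - 1 + 1 := Or.inr (by omega)
  have hz : |(0 : ℝ)| < 1 / 2 := by norm_num
  have hmid : ∀ τ, (N.tw i (-1) (N.simplyPt i a τ 0), N.hgt i (N.simplyPt i a τ 0)) ∈ N.Gap i a :=
    fun τ => simply_mem hN hz
      (by simpa using simply_move hN h2 (Or.inl rfl) a hz le_rfl zero_le_one (Or.inl rfl))
      (by simpa using simply_move hN h2 hi a hz le_rfl zero_le_one (Or.inl rfl))
  let p : ℝ × (ℂ × ℝ) → ℂ := fun u => N.simplyPt i a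
    ((1 - max (2 * u.1 - 1) 0) * (N.tw i 1 u.2.1).im)
    ((1 - min (2 * u.1) 1) * (N.lin i u.2.1 - a - 1 / 2))
  have hp : Continuous p := by
    have c1 := continuous_tw hN i 1
    have c2 := continuous_lin hN i
    have c3 := hN.cont i
    simp only [p, simplyPt]
    generalize N.tw i 1 = f at c1 ⊢
    generalize N.lin i = g at c2 ⊢
    fun_prop
  refine isSimplyConnected_of_contraction _ _ (hmid 0)
    (fun u => (N.tw i (-1) (p u), N.hgt i (p u)))
    (((continuous_tw hN i (-1)).comp hp).prodMk ((continuous_hgt hN i).comp hp)).continuousOn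
    (fun t ht x hx => ?_) (fun x hx => ?_) (fun x _ => ?_)
  · simp only [p]
    rcases le_total (2 * t) 1 with h | h
    · have he : |N.lin i x.1 - a - 1 / 2| < 1 / 2 :=
        abs_lt.2 ⟨by linarith only [hx, hx.2.1], by linarith only [hx, hx.2.2]⟩
      have h0 : 0 ≤ 1 - 2 * t := by linarith only [h]
      have h3 : 1 - 2 * t ≤ 1 := by linarith only [ht, ht.1]
      rw [max_eq_right (by linarith only [h]), min_eq_left h, sub_zero, one_mul]
      refine simply_mem hN ?_ (simply_move hN h2 (Or.inl rfl) a he h0 h3 (Or.inr ?_))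
        (simply_move hN h2 hi a he h0 h3 (Or.inr ?_))
      · rw [abs_mul, abs_of_nonneg h0]
        exact (mul_le_of_le_one_left (abs_nonneg _) h3).trans_lt he
      · rw [simply_pt hN, bump_tw hN]; exact hx.1.1
      · rw [simply_pt hN, bump_tw hN]; exact hx.1.2.1
    · rw [min_eq_right h, sub_self, zero_mul]
      exact hmid _
  · simp only [p]
    rw [max_eq_right (by norm_num), min_eq_left (by norm_num), mul_zero, sub_zero, one_mul,
      one_mul, simply_pt hN, tw_tw hN, hgt_tw hN]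
    exact Prod.ext rfl hx.1.2.2.symm
  · simp only [p]
    rw [max_eq_left (by norm_num), min_eq_right (by norm_num)]
    norm_num

theorem strip_simply (j : ℕ) (β : ℂ) {σ : ℝ} (hσ : σ = 1 ∨ σ = -1) :
    IsSimplyConnected (N.Strip j β σ) := by
  have hy := mid_mem_strip hN j β hσ
  exact isSimplyConnected_of_contraction _ _ hy _ (simplySeg_cont hy)
    (fun t ht x hx => simplySeg_mem hN hx hy ht) (fun x hx => simplySeg_zero hN hx _)
    fun x _ => simplySeg_one hN hy x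

theorem strip_join_outer {j : ℕ} {β : ℂ} {σ : ℝ} {x y : ℂ × ℝ} (hx : x ∈ N.Strip j β σ)
    (hy : y ∈ N.Strip j β σ) (h1 : x.2 ≤ j + 1 / 2) (h2 : y.2 ≤ j + 1 / 2) :
    JoinedIn (N.Strip j β σ ∩ {z | z.2 ≤ j + 1 / 2}) x y := by
  refine simply_join hN hx hy fun t ht z hz => ?_
  rw [mem_ofPred_eq, hz]
  linarith only [ht, h1, h2, mul_nonneg (sub_nonneg.2 ht.2) (sub_nonneg.2 h1), mul_nonneg ht.1 (sub_nonneg.2 h2)]

theorem strip_join_inner {j : ℕ} {β : ℂ} {σ : ℝ} {x y : ℂ × ℝ} (hx : x ∈ N.Strip j β σ)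
    (hy : y ∈ N.Strip j β σ) (h1 : j + 1 / 2 ≤ x.2) (h2 : j + 1 / 2 ≤ y.2) :
    JoinedIn (N.Strip j β σ ∩ {z | j + 1 / 2 ≤ z.2}) x y := by
  refine simply_join hN hx hy fun t ht z hz => ?_
  rw [mem_ofPred_eq, hz]
  linarith only [ht, h1, h2, mul_nonneg (sub_nonneg.2 ht.2) (sub_nonneg.2 h1), mul_nonneg ht.1 (sub_nonneg.2 h2)]

end Nest

end Neuwirth
end

-- merged part: Pool.Agent.Work.MP_d5331a_gt.Comb
section
/-!
Reduced walks have non-trivial labels.
-/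

set_option autoImplicit false

open Complex Set

namespace Neuwirth

theorem Comb_div_step {A B n m κ : ℤ} (hn : 0 < n) (hm : 0 < m) (hA : A ≤ κ * n)
    (hB : κ * m ≤ B) : 1 ≤ B / m - (A - 1) / n := by
  have h1 : (A - 1) / n < κ := Int.ediv_lt_of_lt_mul hn (by omega)
  have h2 : κ ≤ B / m := Int.le_ediv_of_mul_le hm hB
  omega

theorem Comb_div_near {A B n : ℤ} (hn : 0 < n) (h : A ≤ B + 1) : A / n ≤ B / n + 1 := by
  have h1 : A / n ≤ (B + 1 * n) / n := Int.ediv_le_ediv hn (by omega)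
  rwa [Int.add_mul_ediv_right _ _ hn.ne'] at h1

theorem J_mod {c i : ℕ} (hc : c < 2) (hi : 1 ≤ i) : J c i % 2 = c := by
  unfold J; split_ifs <;> omega

theorem J_self {c j : ℕ} (h : j % 2 = c) : J c j = j := by
  unfold J; rw [if_pos h]

theorem J_succ {c j : ℕ} (h : j % 2 = c) : J c (j + 1) = j := by
  unfold J; split_ifs <;> omega

theorem J_self' {c j : ℕ} (h : j % 2 ≠ c) : J c j = j - 1 := by
  unfold J; rw [if_neg h]

theorem J_succ' {c j : ℕ} (hc : c < 2) (h : j % 2 ≠ c) : J c (j + 1) = j + 1 := by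
  unfold J; split_ifs <;> omega

namespace Nest

/-- The position of the gap `(i, a)` among the translates of the band `x`. -/
noncomputable def mu (N : Nest) (x : ℂ) (u : ℕ × ℤ × ℝ) : ℤ := (u.2.1 - N.ind u.1 x) / (N.n u.1 : ℤ)

/-- The sign by which the position changes along a dart through a neck. -/
noncomputable def wt (N : Nest) : Arc × Bool → ℝ
  | (.tm _ _ _, _) => 0
  | (.nk j _ σ, b) => if b then -(σ * N.e j) else σ * N.e j

/-- Darts through a neck of the parity of the side. -/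
def Inner (N : Nest) (c : ℕ) (d : Arc × Bool) : Prop :=
  ∃ j β σ, d.1 = .nk j β σ ∧ β ∈ N.B j ∧ (σ = 1 ∨ σ = -1) ∧ j % 2 = c

/-- Bands at the lower or upper end of a chamber. -/
def Adj (N : Nest) (j : ℕ) (τ : ℝ) (x : ℂ) : Prop :=
  x ∈ N.B j ∧ (x.im = τ ∨ N.lt j (x.im - N.ε) = τ)

/-- The letter of an arc. -/
noncomputable def ltr (c : ℕ) : Arc → ℕ × ℝ
  | .tm i _ τ => (J c i, Int.fract τ)
  | .nk j β _ => (j, Int.fract β.im)

/-- The exponents on the two sides of the letter of an arc. -/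
noncomputable def ex (N : Nest) (c : ℕ) : Arc → Bool → ℤ
  | .tm i a τ, _ => ⌊(N.bd (J c i) τ).re⌋ + (a - N.ind i (N.bd (J c i) τ)) / (N.n i : ℤ)
  | .nk j β _, b => if b then ⌊N.ph (j - 1) β⌋ else ⌊N.ph (j + 1) β⌋

theorem Comb_core {a b c d n q k m : ℤ} (hd : a * d - b * c = 1 ∨ a * d - b * c = -1)
    (hW : 2 ≤ |a * q + b * n|) (h0 : a * k + b * m = 0) (h1 : |n * k - q * m| ≤ 1) :
    k = 0 ∧ m = 0 := by
  have e1 : k * (a * d - b * c) = -b * (c * k + d * m) := by linear_combination d * h0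
  have e2 : m * (a * d - b * c) = a * (c * k + d * m) := by linear_combination (-c) * h0
  have e3 : (n * k - q * m) * (a * d - b * c) = -((c * k + d * m) * (a * q + b * n)) := by
    linear_combination n * e1 - q * e2
  have e4 : |c * k + d * m| * |a * q + b * n| ≤ 1 := by
    rw [← abs_mul, ← abs_neg, ← e3, abs_mul]
    rcases hd with h | h <;> rw [h] <;> simpa using h1
  have e5 : c * k + d * m = 0 := by
    by_contra h
    have : 1 ≤ |c * k + d * m| := Int.one_le_abs h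
    linarith only [hW, e4, this, mul_nonneg_of_nonpos_of_nonpos (Mathlib.Tactic.Linarith.sub_nonpos_of_le hW) (Mathlib.Tactic.Linarith.sub_nonpos_of_le this)]
  rw [e5] at e1 e2
  rcases hd with h | h <;> rw [h] at e1 e2 <;> omega

variable {N : Nest} (hN : N.Good)
include hN

theorem n_pos' (i : ℕ) : (0 : ℤ) < N.n i := by exact_mod_cast hN.n_pos i

theorem ind_sub {i j : ℕ} {x β : ℂ} (hx : x ∈ N.B j) (hβ : β ∈ N.B j) (hi : i = j ∨ i = j + 1) :
    ((N.ind i β - N.ind i x : ℤ) : ℝ) =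
      N.n i * (β.re - x.re - (N.α i β.im - N.α i x.im)) := by
  push_cast
  rw [ind_eq hN hβ hi, ind_eq hN hx hi]; ring

/-- The comparison of the strands through two bands of one slab. -/
theorem ind_cmp {j : ℕ} {x β : ℂ} {σ : ℝ} (hx : x ∈ N.B j) (hβ : β ∈ N.B j)
    (hσ : σ = 1 ∨ σ = -1) (h : σ * (β.im - x.im) ≤ 0) : ∃ κ : ℤ,
    0 ≤ σ * N.e j * ((N.ind j β - N.ind j x : ℤ) - κ * N.n j) ∧
    σ * N.e j * ((N.ind (j + 1) β - N.ind (j + 1) x : ℤ) - κ * N.n (j + 1)) ≤ 0 := by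
  rw [ind_sub hN hx hβ (Or.inl rfl), ind_sub hN hx hβ (Or.inr rfl)]
  have p1 : (0 : ℝ) ≤ N.n j := Nat.cast_nonneg _
  have p2 : (0 : ℝ) ≤ N.n (j + 1) := Nat.cast_nonneg _
  rcases lt_trichotomy β.im x.im with hl | hl | hl
  · have hσ1 : σ = 1 := by
      rcases hσ with rfl | rfl
      · rfl
      · linarith only [hl, h]
    subst hσ1
    obtain ⟨k, k1, k2⟩ := hN.mono j β hβ x hx hl
    refine ⟨k, ?_, ?_⟩
    · have := mul_nonneg p1 (sub_nonneg.2 k2)
      linarith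
    · have := mul_nonneg p2 (sub_nonneg.2 k1)
      linarith only [this]
  · obtain ⟨k, rfl⟩ := exists_int_of_im_eq hN hx hβ hl.symm
    refine ⟨k, ?_, ?_⟩ <;> simp <;> ring_nf <;> rfl
  · have hσ1 : σ = -1 := by
      rcases hσ with rfl | rfl
      · linarith
      · rfl
    subst hσ1
    obtain ⟨k, k1, k2⟩ := hN.mono j x hx β hβ hl
    refine ⟨-k, ?_, ?_⟩
    · have := mul_nonneg p1 (sub_nonneg.2 k2)
      push_cast
      linarith only [this]
    · have := mul_nonneg p2 (sub_nonneg.2 k1)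
      push_cast
      linarith only [this]

theorem se_cases (j : ℕ) {σ : ℝ} (hσ : σ = 1 ∨ σ = -1) : σ * N.e j = 1 ∨ σ * N.e j = -1 := by
  rcases hσ with rfl | rfl <;> rcases hN.sign j with h | h <;> simp [h]

theorem neck_mu {j : ℕ} {x β : ℂ} {σ : ℝ} (hx : x ∈ N.B j) (hβ : β ∈ N.B j)
    (hσ : σ = 1 ∨ σ = -1) (h : σ * (β.im - x.im) ≤ 0) (τ τ' : ℝ) :
    1 ≤ -(σ * N.e j) *
      ((N.mu x (j + 1, N.gi j β σ, τ') - N.mu x (j, N.go j β σ, τ) : ℤ) : ℝ) := by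
  obtain ⟨κ, k1, k2⟩ := ind_cmp hN hx hβ hσ h
  have p1 := n_pos' hN j
  have p2 := n_pos' hN (j + 1)
  rcases se_cases hN j hσ with e | e
  · rw [e, one_mul] at k1 k2
    have k1' : κ * N.n j ≤ N.ind j β - N.ind j x := by exact_mod_cast sub_nonneg.1 k1
    have k2' : N.ind (j + 1) β - N.ind (j + 1) x ≤ κ * N.n (j + 1) := by
      exact_mod_cast sub_nonpos.1 k2
    have := Comb_div_step p2 p1 k2' k1'
    have e1 : N.gi j β σ - N.ind (j + 1) x = N.ind (j + 1) β - N.ind (j + 1) x - 1 := by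
      simp only [gi, e, if_true]; ring
    have e2 : N.go j β σ - N.ind j x = N.ind j β - N.ind j x := by
      simp only [go, e, if_true]; ring
    simp only [mu, e1, e2, e]
    rw [neg_one_mul, ← Int.cast_neg]
    exact_mod_cast (by omega)
  · rw [e, neg_one_mul] at k1 k2
    have k1' : N.ind j β - N.ind j x ≤ κ * N.n j := by
      exact_mod_cast sub_nonpos.1 (neg_nonneg.1 k1)
    have k2' : κ * N.n (j + 1) ≤ N.ind (j + 1) β - N.ind (j + 1) x := by
      exact_mod_cast sub_nonneg.1 (neg_nonpos.1 k2)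
    have := Comb_div_step p1 p2 k1' k2'
    have ne : ¬ (-1 : ℝ) = 1 := by norm_num
    have e1 : N.gi j β σ - N.ind (j + 1) x = N.ind (j + 1) β - N.ind (j + 1) x := by
      simp only [gi, e, ne, if_false]; ring
    have e2 : N.go j β σ - N.ind j x = N.ind j β - N.ind j x - 1 := by
      simp only [go, e, ne, if_false]; ring
    simp only [mu, e1, e2, e]
    rw [neg_neg, one_mul]
    exact_mod_cast this

theorem lt_plus {j : ℕ} {β : ℂ} (hβ : β ∈ N.B j) : N.lt j (β.im + 1 * N.ε) = β.im :=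
  lt_after hN hβ (by linarith [hN.ε_pos]) (by linarith [hN.ε_pos])

theorem adj_le {j : ℕ} {x β : ℂ} {σ : ℝ} (hβ : β ∈ N.B j) (hσ : σ = 1 ∨ σ = -1)
    (hx : N.Adj j (N.lt j (β.im + σ * N.ε)) x) : σ * (β.im - x.im) ≤ 0 := by
  obtain ⟨hx, h⟩ := hx
  rcases hσ with rfl | rfl
  · rw [lt_plus hN hβ] at h
    have := prev_lt hN hx
    rcases h with h | h <;> linarith only [h, this]
  · rw [neg_one_mul, ← sub_eq_add_neg] at h
    have := prev_lt hN hβ
    rcases h with h | h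
    · linarith
    · linarith [im_eq_of_prev hN hx hβ h]

theorem inner_dart {c : ℕ} {d : Arc × Bool} (hd : N.Inner c d) :
    J c (dtgt (N.src c) (N.tgt c) d).1 = J c (dsrc (N.src c) (N.tgt c) d).1 ∧
    (dtgt (N.src c) (N.tgt c) d).2.2 = (dsrc (N.src c) (N.tgt c) d).2.2 ∧
    (dsrc (N.src c) (N.tgt c) d).1 ≠ (dtgt (N.src c) (N.tgt c) d).1 ∧
    (N.B (J c (dsrc (N.src c) (N.tgt c) d).1)).Nonempty ∧ (N.wt d = 1 ∨ N.wt d = -1) ∧
    ∀ x, N.Adj (J c (dsrc (N.src c) (N.tgt c) d).1) (dsrc (N.src c) (N.tgt c) d).2.2 x →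
      1 ≤ N.wt d * ((N.mu x (dtgt (N.src c) (N.tgt c) d) -
        N.mu x (dsrc (N.src c) (N.tgt c) d) : ℤ) : ℝ) := by
  obtain ⟨A, b⟩ := d
  obtain ⟨j, β, σ, rfl, hβ, hσ, hj⟩ := hd
  have hs := se_cases hN j hσ
  cases b
  · simp only [dsrc, dtgt, src, tgt, wt, J_self hj, J_succ hj, Bool.false_eq_true, if_false]
    refine ⟨trivial, trivial, by omega, ⟨β, hβ⟩, hs, fun x hx => ?_⟩
    have := neck_mu hN hx.1 hβ hσ (adj_le hN hβ hσ hx) (N.lt j (β.im + σ * N.ε))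
      (N.lt j (β.im + σ * N.ε))
    push_cast at this ⊢
    linarith only [this]
  · simp only [dsrc, dtgt, src, tgt, wt, J_self hj, J_succ hj, if_true]
    refine ⟨trivial, trivial, by omega, ⟨β, hβ⟩, ?_, fun x hx => ?_⟩
    · rcases hs with h | h <;> simp [h]
    · exact neck_mu hN hx.1 hβ hσ (adj_le hN hβ hσ hx) _ _

theorem band_eq_of {j i : ℕ} {β β' : ℂ} {σ : ℝ} (hβ : β ∈ N.B j) (hβ' : β' ∈ N.B j)
    (hσ : σ = 1 ∨ σ = -1) (h : N.lt j (β.im + σ * N.ε) = N.lt j (β'.im + σ * N.ε))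
    (hi : N.ind i β = N.ind i β') : β = β' := by
  have h1 : β.im = β'.im := by
    rcases hσ with rfl | rfl
    · rwa [lt_plus hN hβ, lt_plus hN hβ'] at h
    · rw [neg_one_mul, ← sub_eq_add_neg, ← sub_eq_add_neg] at h
      exact im_eq_of_prev hN hβ hβ' h
  obtain ⟨k, rfl⟩ := exists_int_of_im_eq hN hβ hβ' h1
  have h2 := ind_add hN i β k 0
  simp only [Int.cast_zero, zero_mul, add_zero, mul_zero, sub_zero] at h2
  have h3 : (N.n i : ℤ) * k = 0 := by omega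
  rcases mul_eq_zero.1 h3 with h4 | h4
  · exact absurd h4 (n_pos' hN i).ne'
  · simp [h4]

theorem inner_pair {c : ℕ} {d d' : Arc × Bool} (hd : N.Inner c d) (hd' : N.Inner c d')
    (h : dtgt (N.src c) (N.tgt c) d = dsrc (N.src c) (N.tgt c) d') (hr : d' ≠ (d.1, !d.2)) :
    N.wt d' = N.wt d := by
  obtain ⟨A, b⟩ := d
  obtain ⟨A', b'⟩ := d'
  obtain ⟨j, β, σ, rfl, hβ, hσ, hj⟩ := hd
  obtain ⟨j', β', σ', rfl, hβ', hσ', hj'⟩ := hd'
  have hσσ : σ' = σ ∨ σ' = -σ := by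
    rcases hσ with rfl | rfl <;> rcases hσ' with rfl | rfl <;> simp
  cases b <;> cases b' <;>
    simp only [dsrc, dtgt, src, tgt, wt, J_self hj, J_succ hj, J_self hj', J_succ hj',
      Bool.false_eq_true, if_false, if_true, Prod.mk.injEq] at h ⊢
  · omega
  · obtain ⟨rfl, h2, h3⟩ := h
    rcases hσσ with rfl | rfl
    · have := band_eq_of hN (i := j) hβ hβ' hσ h3 (by simpa [go] using h2)
      subst this
      exact absurd rfl hr
    · ring
  · obtain ⟨h1, h2, h3⟩ := h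
    obtain rfl : j = j' := by omega
    rcases hσσ with rfl | rfl
    · have := band_eq_of hN (i := j + 1) hβ hβ' hσ h3 (by simpa [gi] using h2)
      subst this
      exact absurd rfl hr
    · ring
  · omega

theorem inner_walk {c : ℕ} {u v : ℕ × ℤ × ℝ} {L : List (Arc × Bool)}
    (hw : Walk (N.src c) (N.tgt c) u L v) (hr : Reduced L) (hi : ∀ d ∈ L, N.Inner c d) :
    J c v.1 = J c u.1 ∧ v.2.2 = u.2.2 ∧ ((L = [] ∧ u = v) ∨
      ((N.B (J c u.1)).Nonempty ∧ ∃ d L', L = d :: L' ∧ (N.wt d = 1 ∨ N.wt d = -1) ∧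
        (u.1 = v.1 → 2 ≤ L.length) ∧ ∀ x, N.Adj (J c u.1) u.2.2 x →
          (L.length : ℝ) ≤ N.wt d * ((N.mu x v - N.mu x u : ℤ) : ℝ))) := by
  induction hw with
  | nil u => exact ⟨rfl, rfl, Or.inl ⟨rfl, rfl⟩⟩
  | @cons d L v hw ih =>
    have hd := hi d List.mem_cons_self
    obtain ⟨a1, a2, a3, a4, a5, a6⟩ := inner_dart hN hd
    obtain ⟨b1, b2, b3⟩ := ih (List.IsChain.tail hr) fun e he => hi e (List.mem_cons_of_mem _ he)
    refine ⟨b1.trans a1, b2.trans a2, Or.inr ⟨a4, d, L, rfl, a5, ?_⟩⟩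
    rcases b3 with ⟨rfl, rfl⟩ | ⟨-, d', L', rfl, -, -, b4⟩
    · exact ⟨fun h => absurd h a3, fun x hx => by simpa using a6 x hx⟩
    · refine ⟨fun _ => by simp, fun x hx => ?_⟩
      have e := inner_pair hN hd (hi d' (by simp)) (walk_inv _ _ hw).1
        (List.isChain_cons_cons.1 hr).1
      have c1 := a6 x hx
      have c2 := b4 x (by rwa [a1, a2])
      rw [e] at c2
      rw [List.length_cons]
      push_cast at c1 c2 ⊢
      linarith only [c1, c2]

theorem end_zero {c i : ℕ} (h1 : 1 ≤ i) (h2 : i ≤ N.l) (he : ¬ (N.B (J c i)).Nonempty)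
    {k m : ℤ} (h0 : N.phZ (J c i) k m = 0) (h : |N.n i * k - N.q i * m| ≤ 1) :
    k = 0 ∧ m = 0 := by
  rw [hN.bands] at he
  have h3 := hN.two_le
  have h4 : (i = 1 ∧ J c i = 0) ∨ (i = N.l ∧ J c i = N.l) := by
    unfold J at he ⊢; split_ifs at he ⊢ <;> omega
  rcases h4 with ⟨rfl, e⟩ | ⟨e', e⟩
  · rw [e] at h0
    exact Comb_core hN.det hN.outer (by simpa [phZ] using h0) h
  · rw [e] at h0
    rw [e'] at h
    have h5 : N.l ≠ 0 := by omega
    refine Comb_core (c := N.a) (d := N.b) ?_ hN.inner (by simpa [phZ, h5] using h0) h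
    rcases hN.det with h6 | h6
    · right; linarith only [h6]
    · left; linarith only [h6]

theorem phZ_mid {j : ℕ} (he : (N.B j).Nonempty) (k m : ℤ) : N.phZ j k m = k := by
  rw [hN.bands] at he
  simp [phZ, show j ≠ 0 by omega, show j ≠ N.l by omega]

/-- Two neck darts with the same letter. -/
theorem neck_pinch {c i j : ℕ} {β β' : ℂ} {σ σ' : ℝ} {δ δ' : ℤ} (h1 : 1 ≤ i) (h2 : i ≤ N.l)
    (hj : J c i ≠ j) (hβ : β ∈ N.B j) (hβ' : β' ∈ N.B j) (hσ : σ = 1 ∨ σ = -1)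
    (hσ' : σ' = 1 ∨ σ' = -1) (hδ : δ = 0 ∨ δ = 1) (hδ' : δ' = 0 ∨ δ' = 1)
    (hf : Int.fract β.im = Int.fract β'.im) (hp : ⌊N.ph (J c i) β⌋ = ⌊N.ph (J c i) β'⌋)
    {L : List (Arc × Bool)}
    (hw : Walk (N.src c) (N.tgt c) (i, N.ind i β - δ, N.lt (J c i) (β.im + σ * N.ε)) L
      (i, N.ind i β' - δ', N.lt (J c i) (β'.im + σ' * N.ε)))
    (hr : Reduced L) (hi : ∀ d ∈ L, N.Inner c d) : L = [] ∧ β = β' ∧ δ = δ' := by
  obtain ⟨k, m, rfl⟩ := exists_vec_of_fract_eq hN hβ hβ' hf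
  rw [ph_add, Int.floor_add_intCast] at hp
  have h0 : N.phZ (J c i) k m = 0 := by omega
  obtain ⟨-, b2, b3⟩ := inner_walk hN hw hr hi
  have hε := hN.ε_pos
  have key : ∀ {x : ℂ} {s : ℝ}, x ∈ N.B j → (s = 1 ∨ s = -1) →
      N.lt (J c i) (x.im + s * N.ε) = N.lt (J c i) x.im := fun hx hs =>
    lt_other hN hx hj (by rcases hs with rfl | rfl <;> rw [abs_lt] <;> constructor <;> linarith only [hε])
  have hkm : k = 0 ∧ m = 0 := by
    by_cases he : (N.B (J c i)).Nonempty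
    · rw [phZ_mid hN he] at h0
      refine ⟨h0, ?_⟩
      simp only [key hβ hσ, key hβ' hσ'] at b2
      have e : (β + (k + m * I)).im = β.im + m := by simp
      rw [e, lt_add_int hN he] at b2
      exact_mod_cast (by linarith only [b2] : (m : ℝ) = 0)
    · rcases b3 with ⟨-, e⟩ | ⟨h, -⟩
      · refine end_zero hN h1 h2 he h0 ?_
        have e1 := congrArg (fun u => u.2.1) e
        simp only [ind_add hN] at e1
        rw [abs_le]
        omega
      · exact absurd h he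
  obtain ⟨rfl, rfl⟩ := hkm
  simp only [Int.cast_zero, zero_mul, add_zero] at b2 b3 ⊢
  rcases b3 with ⟨e, e'⟩ | ⟨he, d, L', -, hs, h3, h4⟩
  · refine ⟨e, trivial, ?_⟩
    have e1 := congrArg (fun u => u.2.1) e'
    simp only at e1
    omega
  · exfalso
    obtain ⟨x, hx, ex⟩ := lt_mem hN he (β.im + σ * N.ε)
    have h5 := h4 x ⟨hx, Or.inl ex⟩
    have h6 : (2 : ℝ) ≤ L.length := by exact_mod_cast h3 trivial
    have n1 := Comb_div_near (A := N.ind i β - δ - N.ind i x) (B := N.ind i β - δ' - N.ind i x)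
      (n_pos' hN i) (by omega)
    have n2 := Comb_div_near (B := N.ind i β - δ - N.ind i x) (A := N.ind i β - δ' - N.ind i x)
      (n_pos' hN i) (by omega)
    simp only [mu] at h5
    have n1' : (((N.ind i β - δ - N.ind i x) / N.n i : ℤ) : ℝ) ≤
      ((N.ind i β - δ' - N.ind i x) / N.n i : ℤ) + 1 := by exact_mod_cast n1
    have n2' : (((N.ind i β - δ' - N.ind i x) / N.n i : ℤ) : ℝ) ≤
      ((N.ind i β - δ - N.ind i x) / N.n i : ℤ) + 1 := by exact_mod_cast n2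
    rw [Int.cast_sub] at h5
    rcases hs with e | e <;> rw [e] at h5 <;> linarith only [h5, h6, n2', n1']

theorem sigma_eq {j : ℕ} {σ σ' : ℝ} (hσ : σ = 1 ∨ σ = -1) (hσ' : σ' = 1 ∨ σ' = -1) {p q : ℤ}
    (hpq : p ≠ q) (h : (if σ * N.e j = 1 then p else q) = if σ' * N.e j = 1 then p else q) :
    σ = σ' := by
  have ne : ¬ (-1 : ℝ) = 1 := by norm_num
  rcases hσ with rfl | rfl <;> rcases hσ' with rfl | rfl <;> rcases hN.sign j with e | e <;>
    simp [e, ne, hpq, hpq.symm] at h ⊢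

theorem no_pinch {c : ℕ} (hc : c < 2) {A A' : Arc} {b : Bool} (hv : N.valid c A)
    (hv' : N.valid c A') (ho : ¬ N.Inner c (A, b)) (ho' : ¬ N.Inner c (A', !b))
    {L : List (Arc × Bool)}
    (hw : Walk (N.src c) (N.tgt c) (dtgt (N.src c) (N.tgt c) (A, b)) L
      (dsrc (N.src c) (N.tgt c) (A', !b)))
    (hr : Reduced L) (hi : ∀ d ∈ L, N.Inner c d) (hl : ltr c A = ltr c A')
    (he : N.ex c A (!b) = N.ex c A' (!b)) : L = [] ∧ A' = A := by
  cases A with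
  | tm i a τ =>
    cases A' with
    | tm i' a' τ' =>
      obtain ⟨h1, h2, β, hβ, rfl⟩ := hv
      obtain ⟨h1', h2', β', hβ', rfl⟩ := hv'
      have hJ : J c i = J c i' := congrArg Prod.fst hl
      rw [← hJ] at hβ'
      obtain ⟨-, b2, b3⟩ := inner_walk hN hw hr hi
      have ht : β.im = β'.im := by
        cases b
        · simp only [dsrc, dtgt, src, ← hJ, Bool.not_false, Bool.false_eq_true, if_true,
            if_false] at b2
          exact im_eq_of_prev hN hβ hβ' b2.symm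
        · simpa [dsrc, dtgt, tgt] using b2.symm
      rw [← ht] at hw b3 he ⊢
      simp only [ex, ← hJ, add_right_inj] at he
      rcases b3 with ⟨e, e'⟩ | ⟨-, d, L', e, hs, -, h4⟩
      · refine ⟨e, ?_⟩
        cases b <;> simp [dsrc, dtgt, src, tgt] at e' <;> simp [e']
      · exfalso
        obtain ⟨x1, x2⟩ := bd_mem hβ
        have h5 := h4 (N.bd (J c i) β.im) (by
          cases b
          · exact ⟨x1, Or.inr (by rw [x2]; rfl)⟩
          · exact ⟨x1, Or.inl x2⟩)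
        have h6 : N.mu (N.bd (J c i) β.im) (dsrc (N.src c) (N.tgt c) (Arc.tm i' a' β.im, !b)) =
            N.mu (N.bd (J c i) β.im) (dtgt (N.src c) (N.tgt c) (Arc.tm i a β.im, b)) := by
          cases b <;> exact he.symm
        rw [h6, e] at h5
        simp only [List.length_cons, sub_self, Int.cast_zero, mul_zero] at h5
        push_cast at h5
        linarith only [h5, (Nat.cast_nonneg L'.length : (0 : ℝ) ≤ L'.length)]
    | nk j' β' σ' =>
      have hJ : J c i = j' := congrArg Prod.fst hl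
      exact absurd ⟨j', β', σ', rfl, hv'.1, hv'.2, hJ ▸ J_mod hc hv.1⟩ ho'
  | nk j β σ =>
    have hj : j % 2 ≠ c := fun h => ho ⟨j, β, σ, rfl, hv.1, hv.2, h⟩
    cases A' with
    | tm i' a' τ' =>
      have hJ : j = J c i' := congrArg Prod.fst hl
      exact absurd (hJ ▸ J_mod hc hv'.1) hj
    | nk j' β' σ' =>
      obtain rfl : j = j' := congrArg Prod.fst hl
      have hf : Int.fract β.im = Int.fract β'.im := congrArg Prod.snd hl
      obtain ⟨r1, r2⟩ := band_range hN hv.1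
      cases b
      · obtain ⟨e1, e2, e3⟩ := neck_pinch hN (c := c) (i := j) r1 r2.le
          (by rw [J_self' hj]; omega) hv.1 hv'.1 hv.2 hv'.2
          (δ := if σ * N.e j = 1 then 0 else 1) (δ' := if σ' * N.e j = 1 then 0 else 1)
          (by split_ifs <;> simp) (by split_ifs <;> simp) hf
          (by rw [J_self' hj]; exact he) hw hr hi
        rw [e2, sigma_eq hN hv.2 hv'.2 zero_ne_one e3]
        exact ⟨e1, rfl⟩
      · obtain ⟨e1, e2, e3⟩ := neck_pinch hN (c := c) (i := j + 1) (by omega) r2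
          (by rw [J_succ' hc hj]; omega) hv.1 hv'.1 hv.2 hv'.2
          (δ := if σ * N.e j = 1 then 1 else 0) (δ' := if σ' * N.e j = 1 then 1 else 0)
          (by split_ifs <;> simp) (by split_ifs <;> simp) hf
          (by rw [J_succ' hc hj]; exact he) hw hr hi
        rw [e2, sigma_eq hN hv.2 hv'.2 one_ne_zero e3]
        exact ⟨e1, rfl⟩

omit hN in
theorem dval_inner {c : ℕ} {d : Arc × Bool} (hd : N.Inner c d) : dval (N.lab c) d = 1 := by
  obtain ⟨A, b⟩ := d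
  obtain ⟨j, β, σ, rfl, -, -, hj⟩ := hd
  cases b <;> simp [dval, lab, hj]

omit hN in
theorem lab_outer {c : ℕ} {A : Arc} {b : Bool} (hv : N.valid c A) (ho : ¬ N.Inner c (A, b)) :
    N.lab c A = T (N.ex c A true) * S (ltr c A) * T (-N.ex c A false) := by
  cases A with
  | tm i a τ => rfl
  | nk j β σ =>
    have hj : j % 2 ≠ c := fun h => ho ⟨j, β, σ, rfl, hv.1, hv.2, h⟩
    simp [lab, hj, labE, ex, ltr]

omit hN in
theorem dval_outer {c : ℕ} {A : Arc} {b : Bool} (hv : N.valid c A) (ho : ¬ N.Inner c (A, b))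
    (x : NF) (h : ¬ (x.1.1 = N.ex c A (!b) ∧ ∃ k L, x.1.2 = (ltr c A, !b, k) :: L)) :
    (dval (N.lab c) (A, b) x).1 =
      (N.ex c A b, (ltr c A, b, -N.ex c A (!b) + x.1.1) :: x.1.2) := by
  cases b
  · simp only [dval, lab_outer hv ho, Bool.false_eq_true, if_false, mul_inv_rev, ← T_neg, neg_neg,
      Equiv.Perm.mul_apply, T_apply]
    rw [S_inv_apply]
    · simp [T_apply]
    · rintro ⟨h1, h2⟩
      exact h ⟨by simp only [T_apply] at h1; simp only [Bool.not_false]; omega, h2⟩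
  · simp only [dval, lab_outer hv ho, if_true, Equiv.Perm.mul_apply, T_apply]
    rw [S_apply]
    · simp [T_apply]
    · rintro ⟨h1, h2⟩
      exact h ⟨by simp only [T_apply] at h1; simp only [Bool.not_true]; omega, h2⟩

theorem walk_state {c : ℕ} (hc : c < 2) {u v : ℕ × ℤ × ℝ} {L : List (Arc × Bool)}
    (hw : Walk (N.src c) (N.tgt c) u L v) (hr : Reduced L) (hv : ∀ d ∈ L, N.valid c d.1) :
    ((∀ d ∈ L, N.Inner c d) ∧ (L.map (dval (N.lab c))).prod = 1) ∨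
    ∃ L₁ d L₂ k R, L = L₁ ++ d :: L₂ ∧
      Walk (N.src c) (N.tgt c) u L₁ (dsrc (N.src c) (N.tgt c) d) ∧ (∀ e ∈ L₁, N.Inner c e) ∧
      ¬ N.Inner c d ∧ ((L.map (dval (N.lab c))).prod NF.one).1 =
        (N.ex c d.1 d.2, (ltr c d.1, d.2, k) :: R) := by
  induction hw with
  | nil u => exact Or.inl ⟨by simp, by simp⟩
  | @cons d L v hw ih =>
    have ih' := ih (List.IsChain.tail hr) fun e he => hv e (List.mem_cons_of_mem _ he)
    rw [List.map_cons, List.prod_cons]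
    by_cases hd : N.Inner c d
    · rw [dval_inner hd, one_mul]
      rcases ih' with ⟨h1, h2⟩ | ⟨L₁, e, L₂, k, R, rfl, h1, h2, h3, h4⟩
      · exact Or.inl ⟨List.forall_mem_cons.2 ⟨hd, h1⟩, h2⟩
      · exact Or.inr ⟨d :: L₁, e, L₂, k, R, rfl, Walk.cons d h1,
          List.forall_mem_cons.2 ⟨hd, h2⟩, h3, h4⟩
    · obtain ⟨A, b⟩ := d
      have hA : N.valid c A := hv _ List.mem_cons_self
      refine Or.inr ⟨[], (A, b), L, _, _, rfl, Walk.nil _, by simp, hd,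
        dval_outer hA hd _ ?_⟩
      rintro ⟨g1, k', R', g2⟩
      rcases ih' with ⟨-, h2⟩ | ⟨L₁, ⟨A', b'⟩, L₂, k, R, rfl, h1, h2, h3, h4⟩
      · rw [h2] at g2
        exact (List.cons_ne_nil _ _ g2.symm).elim
      · rw [h4] at g1 g2
        simp only [List.cons.injEq, Prod.mk.injEq] at g1 g2
        obtain ⟨⟨g2, rfl, -⟩, -⟩ := g2
        obtain ⟨rfl, rfl⟩ := no_pinch hN hc hA (hv (A', !b) (by simp)) hd h3 h1
          (List.IsChain.left_of_append (List.IsChain.tail hr)) h2 g2.symm g1.symm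
        exact (List.isChain_cons_cons.1 hr).1 rfl

theorem walk_end {c : ℕ} (hc : c < 2) {i : ℕ} (h1 : 1 ≤ i) (h2 : i ≤ N.l) (a : ℤ) (t : ℝ)
    (k m : ℤ) (L : List (Arc × Bool))
    (hw : Walk (N.src c) (N.tgt c) (i, a, N.lt (J c i) t) L
      (i, a + (N.n i * k - N.q i * m), N.lt (J c i) (t + m)))
    (hr : Reduced L) (hv : ∀ d ∈ L, N.valid c d.1)
    (hp : (L.map (dval (N.lab c))).prod = T (-N.phZ (J c i) k m)) :
    L = [] ∧ k = 0 ∧ m = 0 := by
  rcases walk_state hN hc hw hr hv with ⟨hi, g⟩ | ⟨L₁, d, L₂, k', R, -, -, -, -, g⟩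
  · have h0 : N.phZ (J c i) k m = 0 := by
      have := congrArg (fun g : Grp => (g NF.one).1.1) (g.symm.trans hp)
      have h' : (0 : ℤ) = -N.phZ (J c i) k m + 0 := this
      omega
    obtain ⟨-, b2, b3⟩ := inner_walk hN hw hr hi
    by_cases he : (N.B (J c i)).Nonempty
    · rw [phZ_mid hN he] at h0
      simp only [lt_add_int hN he] at b2
      obtain rfl : m = 0 := by exact_mod_cast (by linarith only [b2] : (m : ℝ) = 0)
      subst h0
      rcases b3 with ⟨e, -⟩ | ⟨-, d, L', e, -, -, h4⟩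
      · exact ⟨e, rfl, rfl⟩
      · exfalso
        obtain ⟨x, hx, ex⟩ := lt_mem hN he t
        have h5 := h4 x ⟨hx, Or.inl ex⟩
        rw [e] at h5
        simp only [mu, List.length_cons, mul_zero, sub_self, add_zero, Int.cast_zero] at h5
        push_cast at h5
        linarith only [h5, (Nat.cast_nonneg L'.length : (0 : ℝ) ≤ L'.length)]
    · rcases b3 with ⟨e, e'⟩ | ⟨h, -⟩
      · refine ⟨e, end_zero hN h1 h2 he h0 ?_⟩
        have e1 := congrArg (fun u => u.2.1) e'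
        simp only at e1
        rw [abs_le]
        omega
      · exact absurd h he
  · rw [hp, T_apply] at g
    exact absurd (congrArg Prod.snd g) (by simp [NF.one])

end Nest

end Neuwirth
end

-- merged part: Pool.Agent.Work.MP_d5331a_gt.Detect
section
/-!
The holonomy of a side detects the fundamental group of the surface minus the knot.
-/

set_option autoImplicit false

open Complex Set Filter Topology

namespace Neuwirth

theorem sh_eq {ρ : ℝ} {i : ℕ} (h1 : (i : ℝ) ≤ ρ + 1 / 2) (h2 : ρ + 1 / 2 < i + 1) : sh ρ = i :=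
  (Nat.floor_eq_iff (le_trans (Nat.cast_nonneg i) h1)).2 ⟨h1, h2⟩

namespace Nest

variable {N : Nest} (hN : N.Good)
include hN

omit hN in
theorem floor_of_gap {i : ℕ} {a : ℤ} {x : ℂ × ℝ} (h : x ∈ N.Gap i a) : ⌊N.lin i x.1⌋ = a :=
  Int.floor_eq_iff.2 ⟨h.2.1.le, h.2.2⟩

omit hN in
theorem sh_outer {j : ℕ} {β : ℂ} {σ : ℝ} {x : ℂ × ℝ} (h : x ∈ N.Strip j β σ)
    (h' : ¬ (j : ℝ) + 1 / 2 ≤ x.2) : sh x.2 = j :=
  sh_eq (by linarith only [h, (abs_lt.1 h.1).1]) (by linarith only [h', not_le.1 h'])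

omit hN in
theorem sh_inner {j : ℕ} {β : ℂ} {σ : ℝ} {x : ℂ × ℝ} (h : x ∈ N.Strip j β σ)
    (h' : (j : ℝ) + 1 / 2 ≤ x.2) : sh x.2 = j + 1 :=
  sh_eq (by push_cast; linarith only [h']) (by push_cast; linarith only [h, (abs_lt.1 h.1).2])

theorem strip_sub {j : ℕ} {β : ℂ} (hβ : β ∈ N.B j) {σ : ℝ} (hσ : σ = 1 ∨ σ = -1) :
    N.Strip j β σ ⊆ N.YUp := fun x hx => by
  obtain ⟨r1, r2⟩ := band_range hN hβ
  rcases le_total x.2 (j + 1 / 2) with h | h
  · exact gap_sub hN r1 r2.le _ (strip_outer hN hβ hσ hx h)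
  · exact gap_sub hN (by omega) r2 _ (strip_inner hN hβ hσ hx h)

theorem strip_norm {j : ℕ} {β : ℂ} {σ : ℝ} {x : ℂ × ℝ} (h : x ∈ N.Strip j β σ) :
    ‖x.1 - β‖ < N.ε := by
  have := mul_lt_mul_of_pos_left h.1 hN.ε_pos
  rw [h.2.1]; linarith only [this]

theorem lt_strip {j : ℕ} {β : ℂ} (hβ : β ∈ N.B j) {σ : ℝ} (hσ : σ = 1 ∨ σ = -1) {ζ : ℂ}
    (h : ‖ζ - β‖ < N.ε) (h' : 0 < σ * (ζ.im - β.im)) (r : ℕ) :
    N.lt r ζ.im = N.lt r (β.im + σ * N.ε) := by
  have hε := hN.ε_pos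
  have h1 := abs_lt.1 ((abs_im_le_norm (ζ - β)).trans_lt h)
  rw [sub_im] at h1
  by_cases e : r = j
  · subst e
    rcases hσ with rfl | rfl
    · rw [lt_plus hN hβ, lt_after hN hβ (by linarith) (by linarith)]
    · rw [lt_before hN hβ (by linarith) (by linarith), neg_one_mul, ← sub_eq_add_neg]
  · rw [lt_other hN hβ e (t := ζ.im) (by rw [abs_lt]; constructor <;> linarith only [hε, h1]),
      lt_other hN hβ e (t := β.im + σ * N.ε)
        (by rcases hσ with rfl | rfl <;> rw [abs_lt] <;> constructor <;> linarith only [h1, h'])]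

theorem exists_G {M : Type} [Group M] (Ψ : Hol ↥N.YUp M) :
    ∃ (G : ↥N.YUp → M) (c₁ c₂ : ℕ → ℂ → ℝ → M),
      (∀ (i : ℕ) (m : ℤ) (a b : ↥N.YUp) (p : Path a b),
        (∀ s, sh (p s).1.2 = i ∧ ⌊N.lin i (p s).1.1⌋ = m) → G a * Ψ.H p * (G b)⁻¹ = 1) ∧
      ∀ j, ∀ β ∈ N.B j, ∀ σ : ℝ, (σ = 1 ∨ σ = -1) → ∃ W : ↥N.YUp → M,
        (∀ a, a.1 ∈ N.Strip j β σ → ((j : ℝ) + 1 / 2 ≤ a.1.2 → W a = c₂ j β σ) ∧
          (¬ (j : ℝ) + 1 / 2 ≤ a.1.2 → W a = c₁ j β σ)) ∧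
        ∀ (a b : ↥N.YUp) (p : Path a b), (∀ s, (p s).1 ∈ N.Strip j β σ) →
          G a * Ψ.H p * (G b)⁻¹ = W a * (W b)⁻¹ := by
  have hg : ∀ (i : ℕ) (m : ℤ), ∃ g : ↥N.YUp → M, 1 ≤ i → i ≤ N.l →
      ∀ (a b : ↥N.YUp) (p : Path a b), (∀ s, (p s).1 ∈ N.Gap i m) → Ψ.H p = (g a)⁻¹ * g b := by
    intro i m
    by_cases h : 1 ≤ i ∧ i ≤ N.l
    · obtain ⟨g, hg⟩ := Ψ.exists_gauge (S := Subtype.val ⁻¹' N.Gap i m) fun _ =>
        isSimplyConnected_preimage_val (gap_sub hN h.1 h.2 m) (gap_simply hN h.1 h.2 m)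
      exact ⟨g, fun _ _ => hg⟩
    · exact ⟨fun _ => 1, fun h1 h2 => absurd ⟨h1, h2⟩ h⟩
  choose g hg using hg
  let G : ↥N.YUp → M := fun z => g (sh z.1.2) ⌊N.lin (sh z.1.2) z.1.1⌋ z
  have hc : ∀ (j : ℕ) (β : ℂ) (σ : ℝ), ∃ c₁ c₂ : M, β ∈ N.B j → (σ = 1 ∨ σ = -1) →
      ∃ W : ↥N.YUp → M,
        (∀ a, a.1 ∈ N.Strip j β σ → ((j : ℝ) + 1 / 2 ≤ a.1.2 → W a = c₂) ∧
          (¬ (j : ℝ) + 1 / 2 ≤ a.1.2 → W a = c₁)) ∧
        ∀ (a b : ↥N.YUp) (p : Path a b), (∀ s, (p s).1 ∈ N.Strip j β σ) →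
          G a * Ψ.H p * (G b)⁻¹ = W a * (W b)⁻¹ := by
    intro j β σ
    by_cases h : β ∈ N.B j ∧ (σ = 1 ∨ σ = -1)
    · obtain ⟨hβ, hσ⟩ := h
      obtain ⟨r1, r2⟩ := band_range hN hβ
      have hsub := strip_sub hN hβ hσ
      obtain ⟨h, hh⟩ := Ψ.exists_gauge (S := Subtype.val ⁻¹' N.Strip j β σ) fun _ =>
        isSimplyConnected_preimage_val hsub (strip_simply hN j β hσ)
      have hm := mid_mem_strip hN j β hσ
      let z : ↥N.YUp := ⟨_, hsub hm⟩
      refine ⟨g j (N.go j β σ) z * (h z)⁻¹, g (j + 1) (N.gi j β σ) z * (h z)⁻¹, fun _ _ =>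
        ⟨fun a => G a * (h a)⁻¹, fun a ha => ⟨fun e => ?_, fun e => ?_⟩, fun a b p hp => ?_⟩⟩
      · obtain ⟨q, hq⟩ := exists_path_val (inter_subset_left.trans hsub) (a := a) (b := z)
          (strip_join_inner hN ha hm e le_rfl)
        have e1 := hg (j + 1) (N.gi j β σ) (by omega) r2 a z q fun s =>
          strip_inner hN hβ hσ (hq s).1 (hq s).2
        have e2 := hh a z q fun s => (hq s).1
        simp only [G, sh_inner ha e, floor_of_gap (strip_inner hN hβ hσ ha e)]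
        rw [← mul_inv_cancel_left (g (j + 1) (N.gi j β σ) a) (g (j + 1) (N.gi j β σ) z), ← e1, e2]
        group
      · obtain ⟨q, hq⟩ := exists_path_val (inter_subset_left.trans hsub) (a := a) (b := z)
          (strip_join_outer hN ha hm (not_le.1 e).le le_rfl)
        have e1 := hg j (N.go j β σ) r1 r2.le a z q fun s =>
          strip_outer hN hβ hσ (hq s).1 (hq s).2
        have e2 := hh a z q fun s => (hq s).1
        simp only [G, sh_outer ha e, floor_of_gap (strip_outer hN hβ hσ ha (not_le.1 e).le)]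
        rw [← mul_inv_cancel_left (g j (N.go j β σ) a) (g j (N.go j β σ) z), ← e1, e2]
        group
      · rw [hh a b p hp]
        group
    · exact ⟨1, 1, fun h1 h2 => absurd ⟨h1, h2⟩ h⟩
  choose c₁ c₂ hc using hc
  refine ⟨G, c₁, c₂, fun i m a b p hp => ?_, fun j β hβ σ hσ => hc j β σ hβ hσ⟩
  have ha := hp 0
  have hb := hp 1
  rw [p.source] at ha
  rw [p.target] at hb
  obtain ⟨r1, r2, -⟩ := mem_sheet_sh hN a.2.1
  rw [ha.1] at r1 r2
  have e := hg i m r1 r2 a b p fun s => by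
    have := mem_gap hN (p s).2
    rwa [(hp s).1, (hp s).2] at this
  simp only [G, ha.1, ha.2, hb.1, hb.2, e]
  group

omit hN in
theorem V_same {c : ℕ} {x a : ℂ × ℝ} (h : N.ch c a = N.ch c x) :
    N.pot c a * (N.Lt c x a)⁻¹ = N.pot c x := by
  rw [Lt, if_pos h]; group

omit hN in
theorem V_other {c : ℕ} {x a : ℂ × ℝ} (h : N.ch c a ≠ N.ch c x) (h' : J c (sh a.2) = Jm c x) :
    N.pot c a * (N.Lt c x a)⁻¹ = N.wl c x * N.pot c x := by
  rw [Lt, if_neg h, if_pos h']; group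

theorem detect_loc {c : ℕ} (hc : c < 2) {M : Type} [Group M] (Ξ : Hol ↥N.YUp (M × Grp))
    (c₁ c₂ : ℕ → ℂ → ℝ → M) (val : Arc → M × Grp)
    (v1 : ∀ i a τ, val (.tm i a τ) = (1, N.lab c (.tm i a τ)))
    (v2 : ∀ j β σ, val (.nk j β σ) = (c₁ j β σ * (c₂ j β σ)⁻¹, N.lab c (.nk j β σ)))
    (h1 : ∀ (i : ℕ) (m : ℤ) (a b : ↥N.YUp) (p : Path a b),
      (∀ s, sh (p s).1.2 = i ∧ ⌊N.lin i (p s).1.1⌋ = m) → (Ξ.H p).1 = 1)
    (h2 : ∀ j, ∀ β ∈ N.B j, ∀ σ : ℝ, (σ = 1 ∨ σ = -1) → ∃ W : ↥N.YUp → M,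
      (∀ a, a.1 ∈ N.Strip j β σ → ((j : ℝ) + 1 / 2 ≤ a.1.2 → W a = c₂ j β σ) ∧
        (¬ (j : ℝ) + 1 / 2 ≤ a.1.2 → W a = c₁ j β σ)) ∧
      ∀ (a b : ↥N.YUp) (p : Path a b), (∀ s, (p s).1 ∈ N.Strip j β σ) →
        (Ξ.H p).1 = W a * (W b)⁻¹)
    (x : ↥N.YUp) (U₀ : Set ↥N.YUp) (hU₀ : U₀ ∈ 𝓝 x)
    (h3 : ∀ (a b : ↥N.YUp) (p : Path a b), (∀ s, p s ∈ U₀) →
      (Ξ.H p).2 = N.pot c a * (N.Lt c x a)⁻¹ * (N.pot c b * (N.Lt c x b)⁻¹)⁻¹) :
    ∃ U ∈ 𝓝 x, ((∀ a ∈ U, N.cell c a.1 = N.cell c x.1) ∧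
        ∀ (a b : ↥N.YUp) (p : Path a b), (∀ s, p s ∈ U) → Ξ.H p = 1) ∨
      ∃ r, N.valid c r ∧ ∃ pos : ↥N.YUp → Prop, (∀ a ∈ U, pos a → N.cell c a.1 = N.tgt c r) ∧
        (∀ a ∈ U, ¬ pos a → N.cell c a.1 = N.src c r) ∧
        ∀ (a b : ↥N.YUp) (p : Path a b), (∀ s, p s ∈ U) →
          ((pos a ↔ pos b) → Ξ.H p = 1) ∧ (¬ pos a → pos b → Ξ.H p = val r) ∧
          (pos a → ¬ pos b → Ξ.H p = (val r)⁻¹) := by
  have hε := hN.ε_pos
  have tr : ∀ {P : ℂ × ℝ → Prop}, (∀ᶠ z in 𝓝[N.YUp] x.1, P z) → ∀ᶠ z : ↥N.YUp in 𝓝 x, P z.1 :=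
    fun h => by rwa [← map_nhds_subtype_val, eventually_map] at h
  have ct : Continuous fun z : ↥N.YUp => z.1.1.im := by fun_prop
  have s0 : ∀ {U : Set ↥N.YUp} {a b : ↥N.YUp} (p : Path a b), (∀ s, p s ∈ U) → a ∈ U ∧ b ∈ U :=
    fun p hp => ⟨p.source ▸ hp 0, p.target ▸ hp 1⟩
  by_cases hn : x.1.2 + 1 / 2 = sh x.1.2
  · obtain ⟨j, β, hβ, σ, hσ, e, hx, ev⟩ := loc_neck hN x.2 hn
    obtain ⟨r1, r2⟩ := band_range hN hβ
    obtain ⟨W, w1, w2⟩ := h2 j β hβ σ hσ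
    have ev' := tr ev
    have hx' := ev'.self_of_nhds
    have sx : sh x.1.2 = j + 1 := sh_inner hx e.ge
    have cx : N.ch c x = (J c (j + 1), N.lt (J c (j + 1)) (β.im + σ * N.ε)) := by
      rw [ch, sx, lt_strip hN hβ hσ (strip_norm hN hx) hx'.2]
    refine ⟨_, inter_mem hU₀ ev', Or.inr ⟨.nk j β σ, ⟨hβ, hσ⟩,
      fun a => (j : ℝ) + 1 / 2 ≤ a.1.2, fun a ha pa => ?_, fun a ha pa => ?_, fun a b p hp => ?_⟩⟩
    · rw [cell, sh_inner ha.2.1 pa, floor_of_gap (strip_inner hN hβ hσ ha.2.1 pa),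
        lt_strip hN hβ hσ (strip_norm hN ha.2.1) ha.2.2]
      rfl
    · rw [cell, sh_outer ha.2.1 pa,
        floor_of_gap (strip_outer hN hβ hσ ha.2.1 (not_le.1 pa).le),
        lt_strip hN hβ hσ (strip_norm hN ha.2.1) ha.2.2]
      rfl
    · have k : ∀ a : ↥N.YUp, a.1 ∈ N.Strip j β σ → 0 < σ * (a.1.1.im - β.im) →
          ((j : ℝ) + 1 / 2 ≤ a.1.2 → (W a, N.pot c a * (N.Lt c x a)⁻¹) =
            (c₂ j β σ, N.pot c x)) ∧
          (¬ (j : ℝ) + 1 / 2 ≤ a.1.2 → (W a, N.pot c a * (N.Lt c x a)⁻¹) =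
            (c₁ j β σ, N.lab c (.nk j β σ) * N.pot c x)) := by
        intro a ha ha'
        refine ⟨fun pa => Prod.ext ((w1 a ha).1 pa) (V_same ?_),
          fun pa => Prod.ext ((w1 a ha).2 pa) ?_⟩
        · rw [cx, ch, sh_inner ha pa, lt_strip hN hβ hσ (strip_norm hN ha) ha']
        · have ca : N.ch c a = (J c j, N.lt (J c j) (β.im + σ * N.ε)) := by
            rw [ch, sh_outer ha pa, lt_strip hN hβ hσ (strip_norm hN ha) ha']
          by_cases hj : j % 2 = c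
          · simp only [lab, hj, if_true, one_mul]
            exact V_same (by rw [ca, cx, J_self hj, J_succ hj])
          · have cond : x.1.2 + 1 / 2 = sh x.1.2 ∧ sh x.1.2 % 2 = c := ⟨hn, by omega⟩
            simp only [lab, hj, if_false]
            rw [V_other]
            · rw [wl, if_pos cond, sx, ctr_near hN hβ (strip_norm hN hx)]
              rfl
            · rw [ca, cx, J_self' hj, J_succ' hc hj]
              intro h
              have := congrArg Prod.fst h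
              simp only at this
              omega
            · rw [Jm, if_pos cond, sx, sh_outer ha pa, J_self' hj]
              rfl
      obtain ⟨ha, hb⟩ := s0 p hp
      have e1 : val (.nk j β σ) = (c₁ j β σ, N.lab c (.nk j β σ) * N.pot c x) *
          (c₂ j β σ, N.pot c x)⁻¹ := by
        rw [v2]; simp
      rw [e1]
      exact two_sided (Prod.ext (w2 a b p fun s => (hp s).2.1) (h3 a b p fun s => (hp s).1))
        (k a ha.2.1 ha.2.2).1 (k a ha.2.1 ha.2.2).2 (k b hb.2.1 hb.2.2).1 (k b hb.2.1 hb.2.2).2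
  · have ev := tr (loc_plain hN x.2 hn)
    obtain ⟨r1, r2, -⟩ := mem_sheet_sh hN x.2.1
    by_cases hb : ∃ β ∈ N.B (J c (sh x.1.2)), β.im = x.1.1.im
    · obtain ⟨β, hβ, e⟩ := hb
      have ev2 : ∀ᶠ z : ↥N.YUp in 𝓝 x, |z.1.1.im - β.im| < N.ε := by
        have : Continuous fun z : ↥N.YUp => |z.1.1.im - β.im| := by fun_prop
        exact this.continuousAt.eventually_lt continuousAt_const (by simpa [e] using hε)
      have l1 : ∀ t, |t - β.im| < N.ε → β.im ≤ t → N.lt (J c (sh x.1.2)) t = β.im :=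
        fun t h h' => lt_after hN hβ h' (by linarith only [hε, h, (abs_lt.1 h).2])
      have l2 : ∀ t, |t - β.im| < N.ε → ¬ β.im ≤ t →
          N.lt (J c (sh x.1.2)) t = N.lt (J c (sh x.1.2)) (β.im - N.ε) :=
        fun t h h' => lt_before hN hβ (not_le.1 h') (by linarith only [hε, h, (abs_lt.1 h).1])
      have cx : N.ch c x = (J c (sh x.1.2), β.im) := by
        rw [ch, l1 _ ev2.self_of_nhds e.le]
      have cond : ¬ (x.1.2 + 1 / 2 = sh x.1.2 ∧ sh x.1.2 % 2 = c) := fun h => hn h.1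
      refine ⟨_, inter_mem hU₀ (ev.and ev2), Or.inr
        ⟨.tm (sh x.1.2) ⌊N.lin (sh x.1.2) x.1.1⌋ β.im, ⟨r1, r2, β, hβ, rfl⟩,
        fun a => β.im ≤ a.1.1.im, fun a ha pa => ?_, fun a ha pa => ?_, fun a b p hp => ?_⟩⟩
      · rw [cell, ha.2.1.1, ha.2.1.2, l1 _ ha.2.2 pa]
        rfl
      · rw [cell, ha.2.1.1, ha.2.1.2, l2 _ ha.2.2 pa]
        rfl
      · have k : ∀ a : ↥N.YUp, sh a.1.2 = sh x.1.2 → |a.1.1.im - β.im| < N.ε →
            (β.im ≤ a.1.1.im → ((1 : M), N.pot c a * (N.Lt c x a)⁻¹) = (1, N.pot c x)) ∧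
            (¬ β.im ≤ a.1.1.im → ((1 : M), N.pot c a * (N.Lt c x a)⁻¹) =
              (1, N.wl c x * N.pot c x)) := by
          intro a ha ha'
          refine ⟨fun pa => Prod.ext rfl (V_same ?_), fun pa => Prod.ext rfl (V_other ?_ ?_)⟩
          · rw [cx, ch, ha, l1 _ ha' pa]
          · rw [cx, ch, ha, l2 _ ha' pa]
            exact fun h => (prev_lt hN hβ).ne (congrArg Prod.snd h)
          · rw [Jm, if_neg cond, ha]
        obtain ⟨ha, hb⟩ := s0 p hp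
        obtain ⟨b1, b2⟩ := bd_mem hβ
        have e1 : val (.tm (sh x.1.2) ⌊N.lin (sh x.1.2) x.1.1⌋ β.im) =
            (1, N.wl c x * N.pot c x) * (1, N.pot c x)⁻¹ := by
          rw [v1, wl, if_neg cond, kD, ← e, floor_re_eq hN b1 (i := sh x.1.2)
            (by unfold J; split_ifs <;> omega) (mem_gap hN x.2) (by rw [b2, e])]
          simp [lab]
        rw [e1]
        exact two_sided (xa := (1, N.pot c a * (N.Lt c x a)⁻¹))
          (xb := (1, N.pot c b * (N.Lt c x b)⁻¹))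
          (Prod.ext ((h1 _ _ a b p fun s => (hp s).2.1).trans (by simp))
            (h3 a b p fun s => (hp s).1))
          (k a ha.2.1.1 ha.2.2).1 (k a ha.2.1.1 ha.2.2).2 (k b hb.2.1.1 hb.2.2).1
          (k b hb.2.1.1 hb.2.2).2
    · have ev2 := ct.continuousAt.eventually
        (lt_loc hN (j := J c (sh x.1.2)) (t := x.1.1.im) fun β h e => hb ⟨β, h, e⟩)
      refine ⟨_, inter_mem hU₀ (ev.and ev2), Or.inl ⟨fun a ha => ?_, fun a b p hp => ?_⟩⟩
      · rw [cell, ha.2.1.1, ha.2.1.2, ha.2.2]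
        rfl
      · obtain ⟨ha, hb⟩ := s0 p hp
        refine Prod.ext (h1 _ _ a b p fun s => (hp s).2.1) ?_
        rw [h3 a b p fun s => (hp s).1, V_same (by rw [ch, ha.2.1.1, ha.2.2]; rfl),
          V_same (by rw [ch, hb.2.1.1, hb.2.2]; rfl)]
        simp

theorem detect {c : ℕ} (hc : c < 2) [PathConnectedSpace ↥(N.surf \ N.knot)]
    (hs : N.surf \ N.knot ⊆ N.side c) (Φ : Hol ↥(N.side c) Grp)
    (hΦ : Φ.Loc fun p z => N.down (N.Lt c) p z) (y : ↥(N.surf \ N.knot)) (γ : Path y y)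
    (hγ : (Φ.comap (inc hs)).H γ = 1) : γ.Homotopic (Path.refl y) := by
  obtain ⟨M, _, Ψ, hΨ⟩ := exists_univ ↥(N.surf \ N.knot) y
  have hd : ∀ x ∈ N.YUp, 0 < x.2 ∧ x.2 < N.l + 1 := fun x hx =>
    ⟨by linarith only [hN, hx, (depth_of_mem hN hx.1).1], by linarith [(depth_of_mem hN hx.1).2]⟩
  have hΦ' := hol_up hN (N.Lt c) (Lt_add hN c) Φ hΦ hd ((inc hs).comp (pr hN)) fun _ => rfl
  obtain ⟨G, c₁, c₂, g1, g2⟩ := exists_G hN (Ψ.comap (pr hN))
  let Ξ := (Ψ.comap (pr hN)).pair (Φ.comap ((inc hs).comp (pr hN))) G fun z => N.pot c z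
  let val : Arc → M × Grp := fun r => (match r with
    | .tm _ _ _ => 1
    | .nk j β σ => c₁ j β σ * (c₂ j β σ)⁻¹, N.lab c r)
  obtain ⟨z, rfl⟩ := pr_surjective hN y
  obtain ⟨z', hz', p, hp⟩ := exists_lift (pr hN) (pr_sections hN) γ z rfl
  obtain ⟨L, w1, w2, w3, w4⟩ := exists_walk (N.src c) (N.tgt c) Ξ (fun x => N.cell c x.1)
    (N.valid c) val (fun x => by
      obtain ⟨U, hU, h3⟩ := hΦ' x
      refine detect_loc hN hc Ξ c₁ c₂ val (fun _ _ _ => rfl) (fun _ _ _ => rfl) g1 g2 x U hU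
        fun a b q hq => ?_
      change N.pot c a * (Φ.comap ((inc hs).comp (pr hN))).H q * (N.pot c b)⁻¹ = _
      rw [h3 a b q hq]
      group) p
  obtain ⟨k, m, e⟩ := E_eq hN (hd _ z.2).1 (hd _ z.2).2 (hd _ z'.2).1.le (hd _ z'.2).2.le
    (congrArg Subtype.val hz')
  have f1 : (Φ.comap ((inc hs).comp (pr hN))).H p = 1 := by
    rw [← hγ, ← (Φ.comap (inc hs)).homot _ _ hp, Hol.cast]
    rfl
  have f2 : (L.map (dval (N.lab c))).prod = T (-N.phZ (J c (sh z.1.2)) k m) := by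
    have := congrArg (MonoidHom.snd M Grp) w4
    rw [map_list_prod, List.map_map] at this
    have e2 : (MonoidHom.snd M Grp) ∘ dval val = dval (N.lab c) := by
      funext d
      simp only [Function.comp, dval]
      split_ifs <;> rfl
    rw [e2] at this
    rw [this]
    change N.pot c z * (Φ.comap ((inc hs).comp (pr hN))).H p * (N.pot c z')⁻¹ = _
    rw [f1, e, pot_add hN, T_neg]
    group
  obtain ⟨r1, r2, -⟩ := mem_sheet_sh hN z.2.1
  have f3 : N.cell c z' = (sh z.1.2, ⌊N.lin (sh z.1.2) z.1.1⌋ +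
      (N.n (sh z.1.2) * k - N.q (sh z.1.2) * m), N.lt (J c (sh z.1.2)) (z.1.1.im + m)) := by
    rw [e, vec_add, cell, lin_add hN, Int.floor_add_intCast]
    simp
  rw [f3] at w1
  obtain ⟨rfl, rfl, rfl⟩ := walk_end hN hc r1 r2 _ _ k m L w1 w2 w3 f2
  obtain rfl : z' = z := Subtype.ext (by rw [e, vec_add]; simp)
  have f4 : G z' * (Ψ.comap (pr hN)).H p * (G z')⁻¹ = 1 := (congrArg Prod.fst w4).symm
  have f5 : Ψ.H (p.map (pr hN).continuous) = 1 := by
    rw [mul_inv_eq_one, mul_eq_left] at f4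
    exact f4
  exact hp.symm.trans (hΨ _ _ f5)

end Nest

end Neuwirth
end

-- merged part: Pool.Agent.Work.MP_d5331a_gt.Chart
section
/-!
Local flatness.

Plan for `flat_up`. If `ρ + 1 / 2 ≠ sh ρ` put `i = sh ρ`, `m = ⌊lin i ζ⌋` and use the global
homeomorphism `(ζ, ρ) ↦ (im (tw i 1 ζ), lin i ζ - m, ρ - hgt i ζ)` (composition of `twH`, shears
and `Complex.equivRealProdCLM`), restricted (`OpenPartialHomeomorph.restrOpen`) to the open set
where both bumps are `< 1 / 2`, `|ρ - i| < 1 / 2`, `|lin i ζ - m| < 1` (`plain_of_ne`,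
`mem_knot_iff`, `mem_sheet_sh`, `knot_sub`). On a neck (`exists_neck`) put `s = ρ - j - 1 / 2`,
`w = σ (ζ - β) exp (-i e π s)` with `σ = ±1` such that `w` is in the slit plane at the point; use
`Complex.polarCoord` and the chart `(s, arg w, ‖w‖ - ε / 2 - ε |s|)` on `‖ζ - β‖ < ε`,
`|s| < 1 / 2` (`mem_FUp_tube`); in the slit plane `im w = 0 ↔ arg w = 0`.
`flat`: compose with the inverse of `exists_Eloc`, use `E_mem_image`.
`locPath_of_flat`: preimages of small balls of the plane that miss the line.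
-/

set_option autoImplicit false

open Complex Set Filter Topology

namespace Neuwirth

theorem locPath_of_flat {F K : Set S3} (h : ∀ x ∈ F, Flat F K x) :
    LocallyPathConnectedSpace ↥(F \ K) := by
  refine ⟨fun x => ?_⟩
  rw [hasBasis_self]
  intro U hU
  obtain ⟨φ, hx, hφ⟩ := h x.1 x.2.1
  rw [nhds_subtype, mem_comap] at hU
  obtain ⟨U', hU', hUU⟩ := hU
  have h2 : (φ x.1).2.2 = 0 := (hφ _ hx).1.1 x.2.1
  have h1 : (φ x.1).2.1 ≠ 0 := fun e => x.2.2 ((hφ _ hx).2.2 (Prod.ext e h2))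
  have hW : φ.target ∩ (φ.symm ⁻¹' U' ∩ {q | q.2.1 ≠ 0}) ∈ 𝓝 (φ x.1) := by
    refine inter_mem (φ.open_target.mem_nhds (φ.map_source hx)) (inter_mem ?_ ?_)
    · refine (φ.continuousAt_symm (φ.map_source hx)).preimage_mem_nhds ?_
      rwa [φ.left_inv hx]
    · exact (isOpen_ne_fun (by fun_prop) continuous_const).mem_nhds h1
  obtain ⟨δ, hδ, hb⟩ := Metric.mem_nhds_iff.1 hW
  have hc : Convex ℝ {q : ℝ × ℝ × ℝ | q.2.2 = 0} := by
    intro a ha b hb s t _ _ _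
    simp only [mem_ofPred_eq] at ha hb ⊢
    simp [ha, hb]
  have hD : IsPathConnected (Metric.ball (φ x.1) δ ∩ {q | q.2.2 = 0}) :=
    ((convex_ball _ _).inter hc).isPathConnected ⟨φ x.1, Metric.mem_ball_self hδ, h2⟩
  have hV := hD.image' (φ.continuousOn_symm.mono fun q hq => (hb hq.1).1)
  refine ⟨_, ?_, hV.preimage_coe (U := F \ K) ?_, ?_⟩
  · have h3 : φ.source ∩ φ ⁻¹' Metric.ball (φ x.1) δ ∈ 𝓝 x.1 :=
      inter_mem (φ.open_source.mem_nhds hx)
        ((φ.continuousAt hx).preimage_mem_nhds (Metric.ball_mem_nhds _ hδ))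
    filter_upwards [continuous_subtype_val.continuousAt.preimage_mem_nhds h3] with y hy
    exact ⟨φ y.1, ⟨hy.2, (hφ _ hy.1).1.1 y.2.1⟩, φ.left_inv hy.1⟩
  · rintro _ ⟨q, hq, rfl⟩
    obtain ⟨q1, -, q3⟩ := hb hq.1
    have h3 := hφ _ (φ.map_target q1)
    rw [φ.right_inv q1] at h3
    exact ⟨h3.1.2 hq.2, fun h4 => q3 (congrArg Prod.fst (h3.2.1 h4))⟩
  · rintro y ⟨q, hq, e⟩
    exact hUU (show y.1 ∈ U' from e ▸ (hb hq.1).2.1)

/-- Coordinates that untwist a band. -/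
noncomputable def chartNeck (β : ℂ) (a c : ℝ) {σ : ℝ} (hσ : σ = 1 ∨ σ = -1) : ℂ × ℝ ≃ₜ ℝ × ℂ where
  toFun y := (y.2 - c - 1 / 2, σ * ((y.1 - β) * exp (((-(a * (y.2 - c - 1 / 2)) : ℝ) : ℂ) * I)))
  invFun z := (β + σ * z.2 * exp (((a * z.1 : ℝ) : ℂ) * I), z.1 + c + 1 / 2)
  left_inv y := by
    have h1 : (σ : ℂ) * σ = 1 := by rcases hσ with rfl | rfl <;> simp
    have h2 : exp (((-(a * (y.2 - c - 1 / 2)) : ℝ) : ℂ) * I) *
        exp (((a * (y.2 - c - 1 / 2) : ℝ) : ℂ) * I) = 1 := by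
      rw [← exp_add, ofReal_neg, neg_mul, neg_add_cancel, exp_zero]
    refine Prod.ext ?_ (by ring)
    dsimp only
    linear_combination (y.1 - β) * (σ * σ) * h2 + (y.1 - β) * h1
  right_inv z := by
    have h1 : (σ : ℂ) * σ = 1 := by rcases hσ with rfl | rfl <;> simp
    have h2 : exp (((-(a * z.1) : ℝ) : ℂ) * I) * exp (((a * z.1 : ℝ) : ℂ) * I) = 1 := by
      rw [← exp_add, ofReal_neg, neg_mul, neg_add_cancel, exp_zero]
    have h3 : z.1 + c + 1 / 2 - c - 1 / 2 = z.1 := by ring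
    refine Prod.ext h3 ?_
    dsimp only
    rw [h3]
    linear_combination z.2 * (σ * σ) * h2 + z.2 * h1
  continuous_toFun := by fun_prop
  continuous_invFun := by fun_prop

/-- The shear that flattens the tube. -/
noncomputable def chartShear (ε : ℝ) : ℝ × ℝ × ℝ ≃ₜ ℝ × ℝ × ℝ where
  toFun z := (z.1, z.2.2, z.2.1 - (ε / 2 + ε * |z.1|))
  invFun z := (z.1, z.2.2 + (ε / 2 + ε * |z.1|), z.2.1)
  left_inv z := by simp
  right_inv z := by simp
  continuous_toFun := by fun_prop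
  continuous_invFun := by fun_prop

namespace Nest

variable {N : Nest} (hN : N.Good)
include hN

/-- Coordinates that flatten sheet `i`. -/
noncomputable def chartPlain (i : ℕ) (m : ℤ) : ℂ × ℝ ≃ₜ ℝ × ℝ × ℝ where
  toFun y := ((N.tw i 1 y.1).im, N.lin i y.1 - m, y.2 - N.hgt i y.1)
  invFun z := (N.tw i (-1) ((((z.2.1 + m) / N.n i + N.α i z.1 : ℝ) : ℂ) + z.1 * I),
    z.2.2 + N.hgt i (N.tw i (-1) ((((z.2.1 + m) / N.n i + N.α i z.1 : ℝ) : ℂ) + z.1 * I)))
  left_inv y := by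
    have hn : (N.n i : ℝ) ≠ 0 := Nat.cast_ne_zero.2 (hN.n_pos i).ne'
    have h1 : (N.lin i y.1 - m + m) / N.n i + N.α i (N.tw i 1 y.1).im = (N.tw i 1 y.1).re := by
      rw [lin]
      field_simp
      ring
    dsimp only
    rw [h1, re_add_im, tw_tw hN i 1, sub_add_cancel]
  right_inv z := by
    have hn : (N.n i : ℝ) ≠ 0 := Nat.cast_ne_zero.2 (hN.n_pos i).ne'
    have h1 : ∀ w, N.tw i 1 (N.tw i (-1) w) = w := fun w => by simpa using tw_tw hN i (-1) w
    dsimp only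
    rw [lin, h1]
    refine Prod.ext (by simp) (Prod.ext ?_ (by simp))
    simp only [add_re, add_im, ofReal_re, ofReal_im, mul_re, mul_im, I_re, I_im, mul_zero, mul_one,
      sub_zero, add_zero, zero_add]
    field_simp
    ring
  continuous_toFun := by
    have c1 := continuous_tw hN i 1
    have c2 := continuous_lin hN i
    have c3 := continuous_hgt hN i
    exact (continuous_im.comp (c1.comp continuous_fst)).prodMk
      (((c2.comp continuous_fst).sub continuous_const).prodMk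
        (continuous_snd.sub (c3.comp continuous_fst)))
  continuous_invFun := by
    have c1 := continuous_tw hN i (-1)
    have c2 := hN.cont i
    have c3 := continuous_hgt hN i
    fun_prop

theorem flat_up {x : ℂ × ℝ} (hx : x ∈ N.FUp) :
    ∃ φ : OpenPartialHomeomorph (ℂ × ℝ) (ℝ × ℝ × ℝ), x ∈ φ.source ∧
      ∀ y ∈ φ.source, (y ∈ N.FUp ↔ (φ y).2.2 = 0) ∧ (y ∈ N.knotUp ↔ (φ y).2 = 0) := by
  by_cases h : x.2 + 1 / 2 = sh x.2
  · obtain ⟨j, β, hβ, h1, h2⟩ := exists_neck hN hx h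
    have hε := hN.ε_pos
    have h0 : (x.1 - β) * exp (((-(N.e j * Real.pi * (x.2 - j - 1 / 2)) : ℝ) : ℂ) * I) ≠ 0 := by
      refine mul_ne_zero (fun e => ?_) (exp_ne_zero _)
      rw [e, norm_zero] at h2
      linarith only [h2, hε]
    obtain ⟨σ, hσ, hs⟩ : ∃ σ : ℝ, (σ = 1 ∨ σ = -1) ∧ (σ : ℂ) *
        ((x.1 - β) * exp (((-(N.e j * Real.pi * (x.2 - j - 1 / 2)) : ℝ) : ℂ) * I)) ∈ slitPlane := by
      rcases mem_slitPlane_or_neg_mem_slitPlane h0 with h3 | h3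
      · exact ⟨1, Or.inl rfl, by simpa using h3⟩
      · exact ⟨-1, Or.inr rfl, by simpa using h3⟩
    have hO : IsOpen {y : ℂ × ℝ | ‖y.1 - β‖ < N.ε ∧ |y.2 - j - 1 / 2| < 1 / 2} :=
      IsOpen.and (isOpen_lt (by fun_prop) continuous_const)
        (isOpen_lt (by fun_prop) continuous_const)
    refine ⟨(((chartNeck β (N.e j * Real.pi) j hσ).transOpenPartialHomeomorph
      ((OpenPartialHomeomorph.refl ℝ).prod Complex.polarCoord)).transHomeomorph
        (chartShear N.ε)).restrOpen _ hO, ⟨⟨mem_univ _, hs⟩, ?_, ?_⟩, ?_⟩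
    · rw [h2]; linarith only [hε]
    · rw [h1]; norm_num
    · rintro y ⟨⟨-, hy⟩, y1, y2⟩
      obtain ⟨t1, t2⟩ := mem_FUp_tube hN hβ y1 y2
      set w := (y.1 - β) * exp (((-(N.e j * Real.pi * (y.2 - j - 1 / 2)) : ℝ) : ℂ) * I) with hw
      have hy' : (σ : ℂ) * w ∈ slitPlane := hy
      have hn : ‖(σ : ℂ) * w‖ = ‖y.1 - β‖ := by
        rw [norm_mul, hw, norm_mul, norm_exp_ofReal_mul_I]
        rcases hσ with rfl | rfl <;> simp
      have ha : arg ((σ : ℂ) * w) = 0 ↔ w.im = 0 := by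
        have h3 : ((σ : ℂ) * w).im = 0 ↔ w.im = 0 := by
          rcases hσ with rfl | rfl <;> simp
        rw [arg_eq_zero_iff, ← h3]
        exact ⟨fun h4 => h4.2, fun h4 =>
          ⟨((mem_slitPlane_iff.1 hy').resolve_right (not_not.2 h4)).le, h4⟩⟩
      change (y ∈ N.FUp ↔ (Complex.polarCoord ((σ : ℂ) * w)).1
          - (N.ε / 2 + N.ε * |y.2 - j - 1 / 2|) = 0) ∧
        (y ∈ N.knotUp ↔ ((Complex.polarCoord ((σ : ℂ) * w)).2, (Complex.polarCoord ((σ : ℂ) * w)).1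
          - (N.ε / 2 + N.ε * |y.2 - j - 1 / 2|)) = 0)
      rw [Complex.polarCoord_apply, Prod.mk_eq_zero, hn, ha, sub_eq_zero, and_comm (a := w.im = 0)]
      exact ⟨t1, t2⟩
  · obtain ⟨i1, i2, -⟩ := mem_sheet_sh hN hx
    obtain ⟨p1, p2, p3⟩ := plain_of_ne hN hx h
    generalize sh x.2 = i at i1 i2 p1 p2 p3
    have c1 := continuous_bump hN i
    have c2 := continuous_bump hN (i - 1)
    have c3 := continuous_lin hN i
    obtain ⟨m, hm⟩ : ∃ m : ℤ, |N.lin i x.1 - m| < 1 := ⟨⌊N.lin i x.1⌋, by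
      rw [abs_lt]
      constructor <;> linarith only [Int.floor_le (N.lin i x.1), Int.lt_floor_add_one (N.lin i x.1)]⟩
    have hO : IsOpen {y : ℂ × ℝ | N.bump i y.1 < 1 / 2 ∧ N.bump (i - 1) y.1 < 1 / 2 ∧
        |y.2 - i| < 1 / 2 ∧ |N.lin i y.1 - m| < 1} :=
      IsOpen.and (isOpen_lt (c1.comp continuous_fst) continuous_const)
        (IsOpen.and (isOpen_lt (c2.comp continuous_fst) continuous_const)
          (IsOpen.and (isOpen_lt (by fun_prop) continuous_const)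
            (isOpen_lt ((c3.comp continuous_fst).sub continuous_const).abs continuous_const)))
    refine ⟨(chartPlain hN i m).toOpenPartialHomeomorph.restrOpen _ hO,
      ⟨mem_univ _, p1, p2, p3, hm⟩, ?_⟩
    · rintro y ⟨-, y1, y2, y3, y4⟩
      have hsh : sh y.2 = i := by
        rw [abs_lt] at y3
        have : (0 : ℝ) ≤ i := Nat.cast_nonneg i
        rw [sh, Nat.floor_eq_iff (by linarith only [y3])]
        constructor <;> linarith only [y3]
      have hS : y ∈ N.FUp → y ∈ N.Sheet i := fun hy => hsh ▸ (mem_sheet_sh hN hy).2.2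
      have hS' : y ∈ N.Sheet i ↔ y.2 - N.hgt i y.1 = 0 := by
        rw [sub_eq_zero]
        exact ⟨fun hy => hy.2.2, fun hy => ⟨y1.le, y2.le, hy⟩⟩
      change (y ∈ N.FUp ↔ y.2 - N.hgt i y.1 = 0) ∧
        (y ∈ N.knotUp ↔ (N.lin i y.1 - m, y.2 - N.hgt i y.1) = 0)
      rw [Prod.mk_eq_zero, ← hS']
      refine ⟨⟨hS, fun hy => ⟨i, i1, i2, hy⟩⟩, fun hy => ?_, fun hy => ?_⟩
      · have h1 := hS (knot_sub hN hy)
        obtain ⟨k, hk⟩ := (mem_knot_iff hN i1 i2 h1).1 hy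
        refine ⟨?_, h1⟩
        rw [hk] at y4 ⊢
        have h2 : |k - m| < 1 := by exact_mod_cast y4
        have h3 : k - m = 0 := Int.abs_lt_one_iff.1 h2
        exact_mod_cast h3
      · exact (mem_knot_iff hN i1 i2 hy.2).2 ⟨m, sub_eq_zero.1 hy.1⟩

theorem flat {p : S3} (hp : p ∈ N.surf) : Flat N.surf N.knot p := by
  obtain ⟨x, hx, rfl⟩ := hp
  have hr : ∀ y ∈ N.FUp, 0 ≤ y.2 ∧ y.2 ≤ N.l + 1 := fun y hy => by
    have := depth_of_mem hN hy
    constructor <;> linarith only [this, this.1, this.2]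
  obtain ⟨d1, d2⟩ := depth_of_mem hN hx
  obtain ⟨ψ, hψ, hE, hd⟩ := exists_Eloc hN (x := x) (by linarith) (by linarith)
  obtain ⟨φ, hφ, H⟩ := flat_up hN hx
  refine ⟨ψ.symm.trans φ, ?_, ?_⟩
  · rw [← hE]
    refine ⟨ψ.map_source hψ, ?_⟩
    change ψ.symm (ψ x) ∈ φ.source
    rwa [ψ.left_inv hψ]
  · rintro y ⟨y1, y2⟩
    have h1 : ψ.symm y ∈ ψ.source := ψ.map_target y1
    have h2 : N.E (ψ.symm y) = y := (hE _).symm.trans (ψ.right_inv y1)
    have h3 := E_mem_image hN (fun z k m hz => (FUp_add hN z k m).2 hz) hr (hd _ h1).1 (hd _ h1).2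
    have h4 := E_mem_image hN (fun z k m hz => (knotUp_add hN z k m).2 hz)
      (fun z hz => hr z (knot_sub hN hz)) (hd _ h1).1 (hd _ h1).2
    rw [h2] at h3 h4
    exact ⟨h3.trans (H _ y2).1, h4.trans (H _ y2).2⟩

end Nest

end Neuwirth
end

-- merged part: Pool.Agent.Work.MP_d5331a_gt.NonComm
section
/-!
The fundamental group of the surface minus the knot is not commutative.

Plan. Take a group `G` with elements `A`, `B` such that `A ^ n` and `B ^ m` do not commute for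
`n, m > 0` (for instance the two elementary matrices in `SL(2, ℤ)` or in `GL (Fin 2) ℤ`). On
`YUp` let `pos x` be `3 / 2 ≤ ρ`, `g x = B ^ ⌊t⌋` if `pos x` and `A ^ ⌊t⌋` otherwise,
`ℓ x = A ^ ⌊im (ctr ζ)⌋ * B ^ (-⌊im (ctr ζ)⌋)`, and
`L x z = (g x)⁻¹ * g z` if `pos z ↔ pos x`, `(g x)⁻¹ * (ℓ x)⁻¹ * g z` if `pos x` and `¬ pos z`,
`1` otherwise. `L` is invariant under the lattice (`ctr_add`) and a germ cocycle on `YUp` (a point
of depth `3 / 2` is on a neck, `exists_neck`, and `ctr` is constant near it). `down_cocy` (with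
trivial `τ`; `depth_of_mem` kills the two core hypotheses), `image_YUp`, `CocyOn.exists_hol` and
`hol_up` give a holonomy `Φ` on `surf \ knot` whose pull back by `pr` is locally given by `L`.
Let `β ∈ B 1`, `y` the middle point of a neck arc; it lies in a gap of sheet `1` and in a gap of
sheet `2`, and so do `y + vec (q 1) (n 1)`, `y + vec (q 2) (n 2)` (`gap_add`). Join them inside the
gaps (`gap_simply`). On a gap of sheet `2` the holonomy is given by the gauge `g`; on a gap of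
sheet `1` by the gauge `x ↦ if pos x then ℓ x * g x else g x`, which equals `A ^ ⌊t⌋` up to the
factor `A ^ (⌊im ctr⌋ - ⌊t⌋) ...` at neck points (`Hol.eq_of_loc` applied to the pull back to the
gap). The two projected loops have holonomies `B ^ n 2` and a conjugate of `A ^ n 1` by a power of
`B`; if they commuted in the fundamental group these would commute.
-/

set_option autoImplicit false

open Complex Set Filter Topology

namespace Neuwirth

theorem NonComm_grp : ∃ A B : Equiv.Perm (ℤ × ℤ), ∀ n m : ℕ, 0 < n → 0 < m →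
    A ^ n * B ^ m ≠ B ^ m * A ^ n := by
  let A : Equiv.Perm (ℤ × ℤ) := ⟨fun p => (p.1 + p.2, p.2), fun p => (p.1 - p.2, p.2),
    fun p => by simp, fun p => by simp⟩
  let B : Equiv.Perm (ℤ × ℤ) := ⟨fun p => (p.1, p.2 + p.1), fun p => (p.1, p.2 - p.1),
    fun p => by simp, fun p => by simp⟩
  have hA : ∀ (n : ℕ) (p : ℤ × ℤ), (A ^ n) p = (p.1 + n * p.2, p.2) := fun n => by
    induction n with
    | zero => simp
    | succ n ih =>
      intro p
      rw [pow_succ, Equiv.Perm.mul_apply, ih]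
      refine Prod.ext ?_ rfl
      show p.1 + p.2 + n * p.2 = p.1 + (n + 1 : ℕ) * p.2
      push_cast
      ring
  have hB : ∀ (n : ℕ) (p : ℤ × ℤ), (B ^ n) p = (p.1, p.2 + n * p.1) := fun n => by
    induction n with
    | zero => simp
    | succ n ih =>
      intro p
      rw [pow_succ, Equiv.Perm.mul_apply, ih]
      refine Prod.ext rfl ?_
      show p.2 + p.1 + n * p.1 = p.2 + (n + 1 : ℕ) * p.1
      push_cast
      ring
  refine ⟨A, B, fun n m hn hm h => ?_⟩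
  have h1 := congrArg (fun f : Equiv.Perm (ℤ × ℤ) => (f (1, 0)).1) h
  simp only [Equiv.Perm.mul_apply, hA, hB] at h1
  have h2 : (0 : ℤ) < n * m := by positivity
  linarith only [h1, h2]

theorem NonComm_comm {X : Type*} [TopologicalSpace X] {G : Type*} [Group G] (Φ : Hol X G) {x : X}
    (p q : Path x x) (h : Φ.H p * Φ.H q ≠ Φ.H q * Φ.H p) :
    ∃ g h : FundamentalGroup X x, g * h ≠ h * g := by
  refine ⟨FundamentalGroup.fromPath (Path.Homotopic.Quotient.mk p),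
    FundamentalGroup.fromPath (Path.Homotopic.Quotient.mk q), fun e => h ?_⟩
  rw [← Φ.trans, ← Φ.trans]
  refine Φ.homot _ _ (Path.Homotopic.Quotient.eq.1 ?_)
  rw [Path.Homotopic.Quotient.mk_trans, Path.Homotopic.Quotient.mk_trans]
  exact e.symm

namespace Nest

/-- The local gauge at `x`. -/
noncomputable def NonComm_u (N : Nest) {G : Type*} [Group G] (A B : G) (x z : ℂ × ℝ) : G :=
  if 3 / 2 ≤ z.2 then A ^ ⌊(N.ctr x.1).im⌋ * B ^ (⌊z.1.im⌋ - ⌊(N.ctr x.1).im⌋) else A ^ ⌊z.1.im⌋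

/-- The cocycle. -/
noncomputable def NonComm_L (N : Nest) {G : Type*} [Group G] (A B : G) (x z : ℂ × ℝ) : G :=
  (N.NonComm_u A B x x)⁻¹ * N.NonComm_u A B x z

variable {N : Nest} (hN : N.Good)
include hN

theorem NonComm_ctr {x : ℂ × ℝ} (hx : x ∈ N.FUp) (h : x.2 = 3 / 2) :
    ∀ᶠ z in 𝓝 x, N.ctr z.1 = N.ctr x.1 := by
  obtain ⟨j, β, hβ, -, h2⟩ := exists_neck hN hx (by
    rw [sh, h, show (3 / 2 + 1 / 2 : ℝ) = (2 : ℕ) by norm_num, Nat.floor_natCast])
  have h3 : ‖x.1 - β‖ < N.ε := by linarith only [h2, hN, hN.ε_pos]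
  have h4 : ContinuousAt (fun z : ℂ × ℝ => ‖z.1 - β‖) x := by fun_prop
  filter_upwards [h4.eventually (gt_mem_nhds h3)] with z hz
  rw [ctr_near hN hβ hz, ctr_near hN hβ h3]

section

variable {G : Type*} [Group G] (A B : G)

theorem NonComm_u_add (x z : ℂ × ℝ) (k m : ℤ) :
    N.NonComm_u A B (x + vec k m) (z + vec k m) = A ^ m * N.NonComm_u A B x z := by
  have h : ∀ ζ : ℂ, ⌊(ζ + (k + m * I)).im⌋ = ⌊ζ.im⌋ + m := fun ζ => by simp
  simp only [NonComm_u, vec_add, ctr_add hN, h]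
  split_ifs <;> group

theorem NonComm_L_add (x z : ℂ × ℝ) (k m : ℤ) :
    N.NonComm_L A B (x + vec k m) (z + vec k m) = N.NonComm_L A B x z := by
  simp only [NonComm_L, NonComm_u_add hN]
  group

theorem NonComm_cocy : CocyOn N.YUp (N.NonComm_L A B) := by
  refine ⟨fun x => inv_mul_cancel _, fun x hx => nhdsWithin_le_nhds ?_⟩
  by_cases h : x.2 = 3 / 2
  · filter_upwards [NonComm_ctr hN hx.1 h] with z hz
    refine Eventually.of_forall fun w => ?_
    simp only [NonComm_L, NonComm_u, hz]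
    group
  · filter_upwards [continuous_snd.continuousAt.eventually (isOpen_ne.mem_nhds h)] with z hz
    refine nhdsWithin_le_nhds ?_
    rcases lt_or_gt_of_ne (show z.2 ≠ 3 / 2 from hz) with h1 | h1
    · filter_upwards [continuous_snd.continuousAt.eventually (gt_mem_nhds h1)] with w hw
      simp only [NonComm_L, NonComm_u, if_neg h1.not_ge, if_neg hw.not_ge]
      group
    · filter_upwards [continuous_snd.continuousAt.eventually (lt_mem_nhds h1)] with w hw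
      simp only [NonComm_L, NonComm_u, if_pos h1.le, if_pos hw.le]
      group

theorem NonComm_hol : ∃ Φ : Hol ↥(N.surf \ N.knot) G,
    Φ.Loc fun p z => N.down (N.NonComm_L A B) p z := by
  have hd : ∀ x ∈ N.YUp, 1 ≤ x.2 ∧ x.2 ≤ N.l := fun x hx => depth_of_mem hN hx.1
  have h := down_cocy hN N.YUp (N.NonComm_L A B) (fun x k m hx => (YUp_add hN x k m).2 hx)
    (fun x hx => ⟨by linarith [hd x hx], by linarith [hd x hx]⟩) (NonComm_L_add hN A B)
    (NonComm_cocy hN A B) (fun _ => 1) (fun _ _ => (mul_one _).symm)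
    (fun ⟨x, hx, e⟩ => absurd (hd x hx).1 (by rw [e]; norm_num))
    (fun ⟨x, hx, e⟩ => absurd (hd x hx).2 (by rw [e]; linarith))
  rw [image_YUp hN] at h
  exact h.exists_hol

theorem NonComm_loop {A B : G} {Φ : Hol ↥(N.surf \ N.knot) G}
    (hΦ : Φ.Loc fun p z => N.down (N.NonComm_L A B) p z) {i : ℕ} (h1 : 1 ≤ i) (h2 : i ≤ N.l)
    {a : ℤ} {y : ↥N.YUp} (hy : y.1 ∈ N.Gap i a) (v : ℂ × ℝ → G)
    (hv : ∀ x ∈ N.Gap i a, ∃ c, ∀ᶠ z in 𝓝[N.Gap i a] x, N.NonComm_u A B x z = c * v z) :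
    ∃ γ : Path (pr hN y) (pr hN y), Φ.H γ = (v y)⁻¹ * v (y + vec (N.q i) (N.n i)) := by
  have hy' : y.1 + vec (N.q i) (N.n i) ∈ N.Gap i a := by
    have := (gap_add hN i a y (N.q i) (N.n i)).2 hy
    rwa [mul_comm, sub_self, add_zero] at this
  have hs := gap_sub hN h1 h2 a
  let f : C(↥(N.Gap i a), ↥(N.surf \ N.knot)) :=
    (pr hN).comp ⟨Set.inclusion hs, continuous_inclusion hs⟩
  have hf := hol_up hN _ (NonComm_L_add hN A B) Φ hΦ (Z := N.Gap i a) (fun x hx => by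
    have := depth_of_mem hN (hs hx).1
    exact ⟨by linarith only [this], by linarith⟩) f fun _ => rfl
  have := isPathConnected_iff_pathConnectedSpace.1 (gap_simply hN h1 h2 a).isPathConnected
  let p : Path (⟨y, hy⟩ : N.Gap i a) ⟨_, hy'⟩ := PathConnectedSpace.somePath _ _
  refine ⟨(p.map f.continuous).cast rfl (Subtype.ext (E_add y _ _).symm), ?_⟩
  rw [Hol.cast]
  refine (Φ.comap f).eq_of_loc (fun x => v x) (fun x => ?_) p
  obtain ⟨U, hU, h3⟩ := hf x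
  obtain ⟨c, hc⟩ := hv x x.2
  rw [← map_nhds_subtype_val, eventually_map] at hc
  refine ⟨_, inter_mem hU hc, fun z w r hr => ?_⟩
  have e1 : N.NonComm_u A B x z = c * v z := r.source ▸ (hr 0).2
  have e2 : N.NonComm_u A B x w = c * v w := r.target ▸ (hr 1).2
  rw [h3 z w r fun s => (hr s).1]
  simp only [NonComm_L, e1, e2]
  group

end

theorem exists_not_comm : ∃ (x : ↥(N.surf \ N.knot))
    (g h : FundamentalGroup ↥(N.surf \ N.knot) x), g * h ≠ h * g := by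
  obtain ⟨A, B, hAB⟩ := NonComm_grp
  obtain ⟨Φ, hΦ⟩ := NonComm_hol hN A B
  have hl := hN.two_le
  obtain ⟨β, hβ⟩ := (hN.bands 1).2 ⟨le_rfl, hl⟩
  have hm := mid_mem_strip hN 1 β (σ := 1) (Or.inl rfl)
  have g1 := strip_outer hN hβ (Or.inl rfl) hm le_rfl
  have g2 := strip_inner hN hβ (Or.inl rfl) hm le_rfl
  generalize hy : (β + ((1 * (N.ε / 2) : ℝ) : ℂ) * I, ((1 : ℕ) : ℝ) + 1 / 2) = y at g1 g2
  have hy2 : 3 / 2 ≤ y.2 := by rw [← hy]; norm_num
  have hY := gap_sub hN le_rfl (by omega) _ g1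
  obtain ⟨γ, hγ⟩ := NonComm_loop hN hΦ le_rfl (by omega) (y := ⟨y, hY⟩) g1
    (fun z => N.NonComm_u A B z z) fun x hx => ⟨1, nhdsWithin_le_nhds (by
      have h1 : x.2 ≤ 3 / 2 := by
        rw [hx.1.2.2, hgt, Nat.sub_self, bump_zero hN, min_eq_left (by norm_num : (0 : ℝ) ≤ 1 / 2)]
        have := min_le_right (N.bump 1 x.1) (1 / 2)
        push_cast
        linarith only [this]
      rcases h1.eq_or_lt with h | h
      · filter_upwards [NonComm_ctr hN (gap_sub hN le_rfl (by omega) _ hx).1 h] with z hz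
        simp only [NonComm_u, hz, one_mul]
      · filter_upwards [continuous_snd.continuousAt.eventually (gt_mem_nhds h)] with z hz
        simp only [NonComm_u, if_neg hz.not_ge, one_mul])⟩
  obtain ⟨δ, hδ⟩ := NonComm_loop hN hΦ (by omega) hl (y := ⟨y, hY⟩) g2
    (fun z => B ^ ⌊z.1.im⌋) fun x hx => ⟨A ^ ⌊(N.ctr x.1).im⌋ * B ^ (-⌊(N.ctr x.1).im⌋), by
      filter_upwards [self_mem_nhdsWithin] with z hz
      have h1 : 3 / 2 ≤ z.2 := by
        rw [hz.1.2.2, hgt]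
        have h2 := min_le_right (N.bump (1 + 1 - 1) z.1) (1 / 2)
        have h3 : 0 ≤ min (N.bump (1 + 1) z.1) (1 / 2) := le_min (bump_nonneg hN _ _) (by norm_num)
        push_cast at h2 h3 ⊢
        linarith only [h2, h3]
      simp only [NonComm_u, if_pos h1]
      group⟩
  refine ⟨_, NonComm_comm Φ γ δ fun e => hAB _ _ (hN.n_pos 1) (hN.n_pos 2) ?_⟩
  have h : ∀ (k m : ℤ) (ζ : ℂ), ⌊(ζ + (k + m * I)).im⌋ = ⌊ζ.im⌋ + m := fun k m ζ => by simp
  rw [hγ, hδ] at e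
  simp only [NonComm_u_add hN] at e
  simp only [vec_add, h, NonComm_u, if_pos hy2] at e
  rw [← zpow_natCast, ← zpow_natCast]
  generalize (N.n 1 : ℤ) = n1, (N.n 2 : ℤ) = n2, ⌊(N.ctr y.1).im⌋ = s, ⌊y.1.im⌋ = t at e
  calc A ^ n1 * B ^ n2 = B ^ (t - s) * ((A ^ s * B ^ (t - s))⁻¹ * (A ^ n1 * (A ^ s * B ^ (t - s))) *
        ((B ^ t)⁻¹ * B ^ (t + n2))) * B ^ (s - t) := by group
    _ = _ := by rw [e]; group

end Nest

end Neuwirth
end
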