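import Pool.Agent.Work.MP_d5331a_gt.NonComm

-- merged part: Pool.Agent.Work.MP_d5331a_gt.Conn
section
/-!
The knot does not separate the surface.

Plan. Fix a point `y₀` of `surf \ knot` and let `P i a` say that every point of `E '' Gap i a` is
joined to `y₀` in `surf \ knot`. Gaps are path connected (`gap_simply`), so `P i a` holds as soon
as one point is joined; `P i (a + (n k - q m)) ↔ P i a` (`gap_add`, `E_add`); the middle point of a
neck arc lies in two gaps (`mid_mem_strip`, `strip_outer`, `strip_inner`), so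
`P j (go j β σ) ↔ P (j + 1) (gi j β σ)`. For `x ∈ knotUp` with `i = sh ρ` and `lin i ζ = m` let
`Q x = P i (if i is odd then m else m - 1)`. It is invariant under the lattice and locally
constant on `knotUp`: off the necks `sh` is locally constant and `lin i` is continuous and integer
valued; near a neck point nearby points of the knot are on sheet `j` or `j + 1` with
`lin = ind j β` or `ind (j + 1) β` (`lin_near`, the integer is within `1 / 4` of `ind`), and the two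
gaps are joined by the arc with `σ * e j = 1` if `j` is odd and `σ * e j = -1` if `j` is even. With
the sections `sec` (`sec_continuousAt`, `E_sec`, `E_mem_image`, `E_eq`) `Q` gives a locally
constant function on the connected set `knot` (`IsLocallyConstant`, `IsPreconnected`). Every pair
`(i, m)` occurs: at a time from `exists_free_time` all bumps vanish. So all `P i a` are
equivalent, and `y₀` lies in the image of some gap (`mem_gap`, `image_YUp`).
-/

set_option autoImplicit false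

open Complex Set Filter Topology

namespace Neuwirth

theorem Conn_sh {i : ℕ} {ρ : ℝ} (h1 : (i : ℝ) - 1 / 2 ≤ ρ) (h2 : ρ < i + 1 / 2) : sh ρ = i := by
  unfold sh
  rw [Nat.floor_eq_iff (by linarith [Nat.cast_nonneg (α := ℝ) i])]
  constructor <;> linarith

namespace Nest

/-- Every point of the gap is joined to `y₀`. -/
def ConnP (N : Nest) (y₀ : S3) (i : ℕ) (a : ℤ) : Prop :=
  ∀ x ∈ N.Gap i a, JoinedIn (N.surf \ N.knot) y₀ (N.E x)

/-- The gap on the chosen side of a point of the knot is joined to `y₀`. -/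
def ConnQ (N : Nest) (y₀ : S3) (x : ℂ × ℝ) : Prop :=
  N.ConnP y₀ (sh x.2) (⌊N.lin (sh x.2) x.1⌋ - if sh x.2 % 2 = 1 then 0 else 1)

variable {N : Nest} (hN : N.Good)
include hN

theorem ConnP_of {y₀ : S3} {i : ℕ} (h1 : 1 ≤ i) (h2 : i ≤ N.l) {a : ℤ} {x : ℂ × ℝ}
    (hx : x ∈ N.Gap i a) (h : JoinedIn (N.surf \ N.knot) y₀ (N.E x)) : N.ConnP y₀ i a := by
  intro z hz
  have h3 := ((gap_simply hN h1 h2 a).isPathConnected.joinedIn x hx z hz).map
    (continuous_E (N := N))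
  refine h.trans (h3.mono ?_)
  rw [← image_YUp hN]
  exact image_mono (gap_sub hN h1 h2 a)

theorem ConnP_add (y₀ : S3) (i : ℕ) (a k m : ℤ) :
    N.ConnP y₀ i (a + (N.n i * k - N.q i * m)) ↔ N.ConnP y₀ i a := by
  have key : ∀ a k m : ℤ, N.ConnP y₀ i (a + (N.n i * k - N.q i * m)) → N.ConnP y₀ i a := by
    intro a k m h x hx
    have := h _ ((gap_add hN i a x k m).2 hx)
    rwa [E_add] at this
  refine ⟨key a k m, fun h => key _ (-k) (-m) ?_⟩
  convert h using 1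
  ring

theorem ConnP_neck (y₀ : S3) {j : ℕ} {β : ℂ} (hβ : β ∈ N.B j) {σ : ℝ} (hσ : σ = 1 ∨ σ = -1) :
    N.ConnP y₀ j (N.go j β σ) ↔ N.ConnP y₀ (j + 1) (N.gi j β σ) := by
  have hr := band_range hN hβ
  have hm := mid_mem_strip hN j β hσ
  have h1 := strip_outer hN hβ hσ hm le_rfl
  have h2 := strip_inner hN hβ hσ hm le_rfl
  exact ⟨fun h => ConnP_of hN (by omega) (by omega) h2 (h _ h1),
    fun h => ConnP_of hN hr.1 hr.2.le h1 (h _ h2)⟩

theorem ConnQ_add (y₀ : S3) (x : ℂ × ℝ) (k m : ℤ) :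
    N.ConnQ y₀ (x + vec k m) ↔ N.ConnQ y₀ x := by
  unfold ConnQ
  rw [vec_add]
  simp only
  rw [lin_add hN, Int.floor_add_intCast, add_sub_right_comm]
  exact ConnP_add hN y₀ _ _ k m

theorem Conn_int {x : ℂ × ℝ} (hx : x ∈ N.knotUp) : ∃ k : ℤ, N.lin (sh x.2) x.1 = k := by
  obtain ⟨h1, h2, h3⟩ := mem_sheet_sh hN (knot_sub hN hx)
  exact (mem_knot_iff hN h1 h2 h3).1 hx

theorem Conn_floor {i j : ℕ} {β ζ : ℂ} (hβ : β ∈ N.B j) (hi : i = j ∨ i = j + 1)
    (h : ‖ζ - β‖ < N.ε) {k : ℤ} (hk : N.lin i ζ = k) : ⌊N.lin i ζ⌋ = N.ind i β := by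
  have hε := hN.ε_pos
  have hr := band_range hN hβ
  have h1 := lin_near hN hβ hi (show ‖ζ - β‖ < 2 * N.ε by linarith)
  have h2 := hN.ε_le i (by omega)
  have h3 := abs_re_le_norm ((ζ - β) * exp (((Real.pi *
      (N.e (i - 1) * N.bump (i - 1) ζ - N.e i * N.bump i ζ) : ℝ) : ℂ) * I))
  rw [norm_mul, norm_exp_ofReal_mul_I, mul_one] at h3
  generalize ((ζ - β) * exp (((Real.pi *
      (N.e (i - 1) * N.bump (i - 1) ζ - N.e i * N.bump i ζ) : ℝ) : ℂ) * I)).re = r at h1 h3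
  have h4 : |(N.n i : ℝ) * r| ≤ 1 / 4 := by
    rw [abs_mul, Nat.abs_cast]
    calc (N.n i : ℝ) * |r| ≤ N.n i * N.ε := by gcongr; linarith
      _ ≤ 1 / 4 := by linarith
  have h5 : |((k - N.ind i β : ℤ) : ℝ)| < 1 := by
    push_cast
    rw [← hk, h1, add_sub_cancel_left]
    linarith
  rw [← Int.cast_abs] at h5
  have h6 : |k - N.ind i β| < 1 := by exact_mod_cast h5
  rw [hk, Int.floor_intCast]
  have := abs_lt.1 h6
  omega

theorem ConnQ_loc (y₀ : S3) {x : ℂ × ℝ} (hx : x ∈ N.knotUp) :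
    ∀ᶠ z in 𝓝 x, z ∈ N.knotUp → (N.ConnQ y₀ z ↔ N.ConnQ y₀ x) := by
  have hε := hN.ε_pos
  by_cases h : x.2 + 1 / 2 = sh x.2
  · obtain ⟨j, β, hβ, h1, h2⟩ := exists_neck hN (knot_sub hN hx) h
    obtain ⟨σ, hσ, hσe⟩ : ∃ σ : ℝ, (σ = 1 ∨ σ = -1) ∧ (σ * N.e j = 1 ↔ j % 2 = 1) := by
      by_cases hj : j % 2 = 1
      · refine ⟨N.e j, hN.sign j, ?_⟩
        rcases hN.sign j with h | h <;> simp [h, hj]
      · refine ⟨-N.e j, ?_, ?_⟩
        · rcases hN.sign j with h | h <;> simp [h]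
        · rcases hN.sign j with h | h <;> simp [h, hj] <;> norm_num
    have key : ∀ z ∈ N.knotUp, |z.2 - (j + 1 / 2)| < 1 / 2 → ‖z.1 - β‖ < N.ε →
        (N.ConnQ y₀ z ↔ N.ConnP y₀ j (N.go j β σ)) := by
      intro z hz h3 h4
      obtain ⟨k, hk⟩ := Conn_int hN hz
      have h5 := abs_lt.1 h3
      unfold ConnQ
      rcases lt_or_ge z.2 (j + 1 / 2) with h6 | h6
      · have h7 : sh z.2 = j := Conn_sh (by linarith [h5.1]) h6
        rw [h7] at hk ⊢
        rw [Conn_floor hN hβ (Or.inl rfl) h4 hk]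
        unfold go
        simp only [hσe]
      · have h7 : sh z.2 = j + 1 :=
          Conn_sh (by push_cast; linarith) (by push_cast; linarith [h5.2])
        rw [h7] at hk ⊢
        rw [Conn_floor hN hβ (Or.inr rfl) h4 hk, ConnP_neck hN y₀ hβ hσ]
        unfold gi
        simp only [hσe]
        by_cases hj : j % 2 = 1
        · rw [if_pos hj, if_neg (by omega)]
        · rw [if_neg hj, if_pos (by omega)]
    have e1 : ∀ᶠ z : ℂ × ℝ in 𝓝 x, |z.2 - (j + 1 / 2)| < 1 / 2 :=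
      (by fun_prop : Continuous fun z : ℂ × ℝ => |z.2 - (j + 1 / 2)|).continuousAt.eventually_lt
        continuousAt_const (by rw [h1]; simp)
    have e2 : ∀ᶠ z : ℂ × ℝ in 𝓝 x, ‖z.1 - β‖ < N.ε :=
      (by fun_prop : Continuous fun z : ℂ × ℝ => ‖z.1 - β‖).continuousAt.eventually_lt
        continuousAt_const (by rw [h2]; linarith)
    filter_upwards [e1, e2] with z h3 h4 hz
    rw [key z hz h3 h4, key x hx e1.self_of_nhds e2.self_of_nhds]
  · obtain ⟨-, -, h1⟩ := plain_of_ne hN (knot_sub hN hx) h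
    obtain ⟨k, hk⟩ := Conn_int hN hx
    have hc := continuous_lin hN (sh x.2)
    have e1 : ∀ᶠ z : ℂ × ℝ in 𝓝 x, |z.2 - sh x.2| < 1 / 2 :=
      (by fun_prop : Continuous fun z : ℂ × ℝ => |z.2 - sh x.2|).continuousAt.eventually_lt
        continuousAt_const h1
    have e2 : ∀ᶠ z : ℂ × ℝ in 𝓝 x, |N.lin (sh x.2) z.1 - k| < 1 :=
      (by fun_prop : Continuous fun z : ℂ × ℝ => |N.lin (sh x.2) z.1 - k|).continuousAt.eventually_lt
        continuousAt_const (by rw [hk]; simp)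
    filter_upwards [e1, e2] with z h3 h4 hz
    have h5 := abs_lt.1 h3
    have h7 : sh z.2 = sh x.2 := Conn_sh (by linarith [h5.1]) (by linarith [h5.2])
    obtain ⟨k', hk'⟩ := Conn_int hN hz
    rw [h7] at hk'
    rw [hk', ← Int.cast_sub, ← Int.cast_abs] at h4
    have h6 : |k' - k| < 1 := by exact_mod_cast h4
    have h8 : k' = k := by have := abs_lt.1 h6; omega
    unfold ConnQ
    rw [h7, hk', hk, h8]

theorem Conn_lift {x : ℂ × ℝ} (hx : x ∈ N.knotUp) (y : ℂ × ℝ) :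
    ∃ k m : ℤ, N.sec y (N.E x) = x + vec k m := by
  have h1 := depth_of_mem hN (knot_sub hN hx)
  exact E_eq hN (by linarith [h1.1]) (by linarith [h1.2]) (rho_mem _).1 (rho_mem _).2
    (E_sec hN y _).symm

theorem ConnQ_const (hK : IsConnected N.knot) (y₀ : S3) {x z : ℂ × ℝ} (hx : x ∈ N.knotUp)
    (hz : z ∈ N.knotUp) : N.ConnQ y₀ x ↔ N.ConnQ y₀ z := by
  have hs : ∀ x ∈ N.knotUp, ∀ y, (N.ConnQ y₀ (N.sec y (N.E x)) ↔ N.ConnQ y₀ x) ∧
      N.sec y (N.E x) ∈ N.knotUp := by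
    intro x hx y
    obtain ⟨k, m, h⟩ := Conn_lift hN hx y
    rw [h]
    exact ⟨ConnQ_add hN y₀ x k m, (knotUp_add hN x k m).2 hx⟩
  have key := hK.isPreconnected.induction₂'
    (fun p p' => N.ConnQ y₀ (N.sec 0 p) ↔ N.ConnQ y₀ (N.sec 0 p')) ?_
    (fun _ _ _ _ _ _ h h' => h.trans h') (mem_image_of_mem _ hx) (mem_image_of_mem _ hz)
  · rwa [(hs x hx 0).1, (hs z hz 0).1] at key
  · rintro _ ⟨x, hx, rfl⟩
    have h1 := depth_of_mem hN (knot_sub hN hx)
    have h2 : ContinuousAt (N.sec x) (N.E x) :=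
      (sec_continuousAt hN (by linarith [h1.1]) (by linarith [h1.2])).self_of_nhds
    have h3 : N.sec x (N.E x) = x := sec_E_self hN (by linarith [h1.1]) (by linarith [h1.2])
    have h4 := ConnQ_loc hN y₀ hx
    rw [← h3] at h4
    filter_upwards [mem_nhdsWithin_of_mem_nhds (h2.eventually h4), self_mem_nhdsWithin]
    rintro _ h5 ⟨z, hz, rfl⟩
    have h6 := h5 (hs z hz x).2
    rw [h3, (hs z hz x).1] at h6
    rw [(hs z hz 0).1, (hs x hx 0).1]
    exact ⟨h6.symm, h6⟩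

theorem Conn_occurs {i : ℕ} (h1 : 1 ≤ i) (h2 : i ≤ N.l) (m : ℤ) :
    ∃ x ∈ N.knotUp, sh x.2 = i ∧ N.lin i x.1 = m := by
  obtain ⟨t, ht⟩ := exists_free_time hN
  have hn : (N.n i : ℝ) ≠ 0 := by exact_mod_cast (hN.n_pos i).ne'
  set ζ : ℂ := ⟨N.α i t + m / N.n i, t⟩ with hζ
  have hfar : ∀ j, ∀ β ∈ N.B j, N.ε ≤ ‖ζ - β‖ := fun j β hβ =>
    (ht j β hβ).trans (by simpa [hζ] using abs_im_le_norm (ζ - β))
  have hon : (N.n i : ℝ) * (ζ.re - N.α i ζ.im) = m := by
    simp only [hζ]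
    field_simp
    ring
  refine ⟨(ζ, i), Or.inl ⟨i, h1, h2, rfl, ⟨m, hon⟩, ?_⟩, Conn_sh (by simp) (by simp), ?_⟩
  · rintro β (hβ | hβ) <;> exact hfar _ β hβ
  · unfold lin
    rw [tw_far (bump_far (hfar _)) (bump_far (hfar _))]
    exact hon

theorem isPathConnected_diff (hK : IsConnected N.knot) : IsPathConnected (N.surf \ N.knot) := by
  have hl : 1 ≤ N.l := by have := hN.two_le; omega
  obtain ⟨x₀, hx₀⟩ := (gap_simply hN le_rfl hl 0).nonempty
  have hy₀ : N.E x₀ ∈ N.surf \ N.knot := by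
    rw [← image_YUp hN]
    exact mem_image_of_mem _ (gap_sub hN le_rfl hl 0 hx₀)
  have hocc : ∀ i, 1 ≤ i → i ≤ N.l → ∀ a : ℤ, ∃ x ∈ N.knotUp,
      (N.ConnQ (N.E x₀) x ↔ N.ConnP (N.E x₀) i a) := by
    intro i h1 h2 a
    obtain ⟨x, hx, h3, h4⟩ := Conn_occurs hN h1 h2 (a + if i % 2 = 1 then 0 else 1)
    refine ⟨x, hx, ?_⟩
    unfold ConnQ
    rw [h3, h4, Int.floor_intCast, add_sub_cancel_right]
  have h0 : N.ConnP (N.E x₀) 1 0 := ConnP_of hN le_rfl hl hx₀ (JoinedIn.refl hy₀)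
  obtain ⟨z₀, hz₀, h1⟩ := hocc 1 le_rfl hl 0
  refine ⟨N.E x₀, hy₀, fun y hy => ?_⟩
  rw [← image_YUp hN] at hy
  obtain ⟨x, hx, rfl⟩ := hy
  obtain ⟨h2, h3, -⟩ := mem_sheet_sh hN hx.1
  obtain ⟨z, hz, h4⟩ := hocc _ h2 h3 ⌊N.lin (sh x.2) x.1⌋
  exact h4.1 ((ConnQ_const hN hK _ hz₀ hz).1 (h1.2 h0)) x (mem_gap hN hx)

end Nest

end Neuwirth
end

-- merged part: Pool.Agent.Work.MP_d5331a_gt.Main
section
set_option autoImplicit false

open Set

namespace Neuwirth

theorem main (N : Nest) (hN : N.Good) (hK : IsConnected N.knot) :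
    ∃ F : Set S3, IsCompact F ∧ N.knot ⊆ F ∧ (∀ x ∈ F, Flat F N.knot x) ∧
      IsConnected (F \ N.knot) ∧
      (∀ x, Function.Injective (FundamentalGroup.map (incl F N.knot) x)) ∧
      ∃ (x : ↥(F \ N.knot)) (g h : FundamentalGroup ↥(F \ N.knot) x), g * h ≠ h * g := by
  have hpc := Nest.isPathConnected_diff hN hK
  have hflat : ∀ x ∈ N.surf, Flat N.surf N.knot x := fun x hx => Nest.flat hN hx
  haveI : PathConnectedSpace ↥(N.surf \ N.knot) := isPathConnected_iff_pathConnectedSpace.1 hpc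
  haveI := locPath_of_flat hflat
  have h0 : N.surf \ N.knot ⊆ N.side 0 := fun x hx =>
    ((Nest.side_inter_side hN).symm ▸ hx.1 : x ∈ N.side 0 ∩ N.side 1).1
  have h1 : N.surf \ N.knot ⊆ N.side 1 := fun x hx =>
    ((Nest.side_inter_side hN).symm ▸ hx.1 : x ∈ N.side 0 ∩ N.side 1).2
  have c0 := Nest.side_cocy hN (c := 0) (by norm_num)
  have c1 := Nest.side_cocy hN (c := 1) (by norm_num)
  obtain ⟨Φ0, l0⟩ := c0.exists_hol
  obtain ⟨Φ1, l1⟩ := c1.exists_hol
  refine ⟨N.surf, Nest.isCompact_surf hN, image_mono (Nest.knot_sub hN), hflat,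
    hpc.isConnected, fun x => ?_, Nest.exists_not_comm hN⟩
  exact glue (N.side 0) (N.side 1) N.knot (N.surf \ N.knot) (Nest.isClosed_side hN 0)
    (Nest.isClosed_side hN 1) (Nest.side_union hN) (by rw [Nest.side_inter_side hN]) h0 h1
    (fun _ h => h.2) _ _ c0 c1 Φ0 Φ1 l0 l1
    (Nest.detect hN (by norm_num) h0 Φ0 l0) (Nest.detect hN (by norm_num) h1 Φ1 l1) x

end Neuwirth
end
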